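import Pool.Agent.Lib.MP_164d34_nt.Fam.Gallagher
import Pool.Agent.Lib.MP_164d34_nt.Fam.GaussId2

/-! The large sieve for primitive characters. -/

namespace Pool.Agent.Lib.MP_f64879_nt

open Complex MeasureTheory Finset Pool.Agent.Lib.MP_164d34_nt.Fam
open scoped Real ComplexConjugate

theorem ls_add (a : ℕ → ℂ) (M E : ℕ) :
    ∑ p ∈ (Icc 1 E).sigma red, ‖trig a M ((p.2 : ℝ) / p.1)‖ ^ 2 ≤
      22 * ((E : ℝ) ^ 2 + M + 1) * nsq a M := by
  obtain ⟨δ, hδ'⟩ : ∃ δ : ℝ, δ = (2 * ((E : ℝ) ^ 2 + M + 1))⁻¹ := ⟨_, rfl⟩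
  have hδ : 0 < δ := by rw [hδ']; positivity
  have h1 : δ * (2 * ((E : ℝ) ^ 2 + M + 1)) = 1 := by rw [hδ']; field_simp
  have hM : 0 ≤ δ * M := by positivity
  have hE : 0 ≤ δ * (E * E) := by positivity
  have hgap : δ * (E * E) < 1 := by nlinarith
  have hδM : δ * M ≤ 1 / 2 := by nlinarith
  set F : ℝ → ℝ := fun θ => ‖trig a M θ‖ ^ 2 with hF
  set D : ℝ → ℝ := fun θ => 2 * π * M * (F θ + ‖trig (gaD a M) M θ‖ ^ 2) with hD
  have cF : Continuous F := (trig_cont a M).norm.pow 2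
  have cF' : Continuous fun θ => ‖trig (gaD a M) M θ‖ ^ 2 := (trig_cont _ M).norm.pow 2
  have cD : Continuous D := continuous_const.mul (cF.add cF')
  have cG : Continuous fun θ => F θ / δ + D θ := (cF.div_const _).add cD
  have hF0 : ∀ θ, 0 ≤ F θ := fun θ => by positivity
  have hD0 : ∀ θ, 0 ≤ D θ := fun θ => by have := hF0 θ; positivity
  have hp := ga_point (fun t => (ga_deriv a M t).norm_sq) cD (fun t => by
    have := abs_real_inner_le_norm (trig a M t) (2 * π * M * trig (gaD a M) M t)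
    rw [norm_mul, show ‖(2 * π * M : ℂ)‖ = 2 * π * M by simp [Real.pi_pos.le]] at this
    rw [abs_mul, abs_two]
    have h2 : 0 ≤ 2 * π * M * (‖trig a M t‖ - ‖trig (gaD a M) M t‖) ^ 2 := by positivity
    simp only [hD, hF]
    linarith) hδ
  obtain ⟨i1, e1⟩ := ga_sum ((Icc 1 E).sigma red) (fun _ => 1)
    (fun p => (p.2 : ℝ) / p.1) cG (lo := -(δ / 2)) (hi := 1 + δ / 2) (ρ := δ / 2) (by linarith)
    fun p hp => by
      have := ga_mem (mem_sigma.1 hp).2
      constructor <;> linarith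
  have key := intervalIntegral.integral_mono_on (μ := volume)
    (by linarith : -(δ / 2) ≤ 1 + δ / 2) i1 (cG.intervalIntegrable _ _) fun θ _ => by
      have g0 := hF0 θ
      have g1 := hD0 θ
      by_cases h : ∃ p ∈ (Icc 1 E).sigma red, |(p.2 : ℝ) / p.1 - θ| ≤ δ / 2
      · obtain ⟨p, hp, hθ⟩ := h
        obtain ⟨h1, h2⟩ := mem_sigma.1 hp
        rw [sum_eq_single p, if_pos hθ, one_mul]
        · intro q hq hne
          obtain ⟨h4, h5⟩ := mem_sigma.1 hq
          have := ga_far h2 h5 (mem_Icc.1 h1).2 (mem_Icc.1 h4).2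
            (fun e e' => hne (Sigma.ext e.symm (heq_of_eq e'.symm))) hgap
          rw [if_neg, mul_zero]
          intro h7
          have := abs_sub_le ((p.2 : ℝ) / p.1) θ (q.2 / q.1)
          rw [abs_sub_comm θ] at this
          linarith
        · exact fun h => absurd hp h
      · rw [sum_eq_zero fun q hq => by rw [if_neg fun e => h ⟨q, hq, e⟩, mul_zero]]
        positivity
  rw [e1, intervalIntegral.integral_add ((cF.div_const _).intervalIntegrable _ _)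
    (cD.intervalIntegrable _ _), intervalIntegral.integral_div, hD,
    intervalIntegral.integral_const_mul, intervalIntegral.integral_add
      (cF.intervalIntegrable _ _) (cF'.intervalIntegrable _ _)] at key
  refine (sum_le_sum fun p _ => (hp _).trans_eq (one_mul _).symm).trans (key.trans ?_)
  have l1 := ga_long a M hδ.le
  have l2 := ga_long (gaD a M) M hδ.le
  have n0 := ga_nsq_nonneg a M
  have n1 := ga_nsq_nonneg (gaD a M) M
  have n2 := ga_nsq_D a M
  have l3 : (∫ θ in (-(δ / 2))..(1 + δ / 2), F θ) ≤ 3 / 2 * nsq a M := by nlinarith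
  have l4 : ∫ θ in (-(δ / 2))..(1 + δ / 2), ‖trig (gaD a M) M θ‖ ^ 2 ≤ 3 / 2 * nsq a M := by
    nlinarith
  have l5 : (∫ θ in (-(δ / 2))..(1 + δ / 2), F θ) / δ ≤ 3 * ((E : ℝ) ^ 2 + M + 1) * nsq a M := by
    rw [div_le_iff₀ hδ]
    refine l3.trans_eq ?_
    linear_combination (-3 / 2 * nsq a M) * h1
  have l6 := mul_le_mul_of_nonneg_left (add_le_add l3 l4) (by positivity : 0 ≤ 2 * π * M)
  have l7 : 0 ≤ M * nsq a M := by positivity
  have l8 : 0 ≤ ((E : ℝ) ^ 2 + 1) * nsq a M := by positivity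
  nlinarith [Real.pi_lt_d2]

theorem ls_one {f : ℕ} (hf : 1 ≤ f) (a : ℕ → ℂ) (M : ℕ) :
    ∑ χ ∈ prim f, ‖chp χ a M‖ ^ 2 ≤ ∑ b ∈ red f, ‖trig a M ((b : ℝ) / f)‖ ^ 2 := by
  have : NeZero f := ⟨by omega⟩
  have hf' : (0 : ℝ) < f := by exact_mod_cast hf
  have h1 : ∀ χ ∈ prim f, ‖∑ b ∈ red f, conj (χ b) * trig a M ((b : ℝ) / f)‖ ^ 2 =
      f * ‖chp χ a M‖ ^ 2 := fun χ hχ => by
    have hp : χ⁻¹.IsPrimitive := χ.conductor_inv.trans (g2_prim.mp hχ)
    have e : ∑ b ∈ red f, conj (χ b) * trig a M ((b : ℝ) / f) =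
        gaussSum χ⁻¹ ZMod.stdAddChar * chp χ a M := by
      simp only [trig, chp, mul_sum, gi_conj]
      rw [sum_comm]
      refine sum_congr rfl fun n _ => ?_
      have := gaussSum_mulShift_of_isPrimitive ZMod.stdAddChar hp (n : ZMod f)
      rw [inv_inv, ← g2_gauss] at this
      rw [mul_left_comm, mul_comm (gaussSum _ _), ← this, mul_sum]
      exact sum_congr rfl fun b _ => by ring
    rw [e, norm_mul, mul_pow, gauss_sq hp]
  refine le_of_mul_le_mul_left ?_ hf'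
  rw [mul_sum, ← sum_congr rfl h1]
  refine (sum_le_sum_of_subset_of_nonneg (subset_univ _) fun _ _ _ => by positivity).trans ?_
  rw [g2_parseval]
  gcongr
  exact Nat.totient_le f

theorem ls_mul (a : ℕ → ℂ) (s : Finset ℕ) {H : ℕ} (hs : s ⊆ range H) (E : ℕ) :
    ∑ f ∈ Icc 1 E, ∑ χ ∈ prim f, ‖∑ n ∈ s, a n * χ n‖ ^ 2 ≤
      22 * ((E : ℝ) ^ 2 + H + 1) * ∑ n ∈ s, ‖a n‖ ^ 2 := by
  have h := ls_add (fun n => if n ∈ s then a n else 0) H E
  rw [sum_sigma] at h
  have e : nsq (fun n => if n ∈ s then a n else 0) H = ∑ n ∈ s, ‖a n‖ ^ 2 := by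
    rw [nsq, ← sum_subset hs fun n _ hn => by simp [hn]]
    exact sum_congr rfl fun n hn => by simp [hn]
  rw [← e]
  refine le_trans (sum_le_sum fun f hf => le_trans (le_of_eq ?_) (ls_one (mem_Icc.1 hf).1 _ H)) h
  refine sum_congr rfl fun χ _ => ?_
  rw [chp, ← sum_subset hs fun n _ hn => by simp [hn]]
  exact congrArg (‖·‖ ^ 2) (sum_congr rfl fun n hn => by simp [hn])

theorem ls_dy (a : ℕ → ℂ) (s : Finset ℕ) {E J : ℕ} (hs : ∀ n ∈ s, E ^ 2 < n ∧ n < 2 ^ J) :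
    ∑ f ∈ Icc 1 E, ∑ χ ∈ prim f, ‖∑ n ∈ s, a n * χ n‖ ^ 2 ≤
      66 * J * ∑ n ∈ s, n * ‖a n‖ ^ 2 := by
  have hm : ∀ n ∈ s, Nat.log 2 n ∈ range J := fun n hn =>
    mem_range.2 (Nat.log_lt_of_lt_pow (by have := (hs n hn).1; omega) (hs n hn).2)
  calc _ ≤ ∑ f ∈ Icc 1 E, ∑ χ ∈ prim f, J * ∑ j ∈ range J,
        ‖∑ n ∈ s with Nat.log 2 n = j, a n * χ n‖ ^ 2 := by
        refine sum_le_sum fun f _ => sum_le_sum fun χ _ => ?_
        rw [← sum_fiberwise_of_maps_to hm]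
        refine (pow_le_pow_left₀ (norm_nonneg _) (norm_sum_le _ _) 2).trans ?_
        simpa using sq_sum_le_card_mul_sum_sq (s := range J)
          (f := fun j => ‖∑ n ∈ s with Nat.log 2 n = j, a n * χ n‖)
    _ = J * ∑ j ∈ range J, ∑ f ∈ Icc 1 E, ∑ χ ∈ prim f,
        ‖∑ n ∈ s with Nat.log 2 n = j, a n * χ n‖ ^ 2 := by
        simp only [← mul_sum]
        rw [sum_comm]
        exact congrArg _ (sum_congr rfl fun f _ => sum_comm)
    _ ≤ J * ∑ j ∈ range J, 66 * ∑ n ∈ s with Nat.log 2 n = j, n * ‖a n‖ ^ 2 := by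
        gcongr with j hj
        refine (ls_mul a _ (H := 2 ^ (j + 1)) (fun n hn => ?_) E).trans ?_
        · rw [← (mem_filter.1 hn).2]
          exact mem_range.2 (Nat.lt_pow_succ_log_self one_lt_two n)
        rw [mul_sum, mul_sum]
        refine sum_le_sum fun n hn => ?_
        obtain ⟨h1, h2⟩ := mem_filter.1 hn
        have h3 := (hs n h1).1
        have h4 := Nat.pow_log_le_self 2 (by omega : n ≠ 0)
        rw [h2] at h4
        have h5 : E ^ 2 + 2 ^ (j + 1) + 1 ≤ 3 * n := by rw [pow_succ 2]; omega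
        have h6 : (E : ℝ) ^ 2 + (2 ^ (j + 1) : ℕ) + 1 ≤ 3 * n := by exact_mod_cast h5
        nlinarith [sq_nonneg ‖a n‖]
    _ = _ := by rw [← mul_sum, sum_fiberwise_of_maps_to hm]; ring

end Pool.Agent.Lib.MP_f64879_nt
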