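import Pool.Agent.Lib.MP_f64879_nt.BV
import Pool.Agent.Shared.SelbergUpper

/-! Primes `p ≡ e` modulo `q` such that `p - 2 e` has no small prime factor. -/

namespace Pool.Agent.Lib.MP_f64879_nt

open Finset Filter ArithmeticFunction Pool.Agent.Lib.MP_30b5ba_nt.P
open scoped Classical

theorem ev_small {c ε : ℝ} (hc : 0 < c) (hε : 0 < ε) (n : ℕ) :
    ∀ᶠ u : ℝ in atTop, u ^ n * Real.exp (-(c * u)) ≤ ε := by
  obtain ⟨K, hK, h⟩ := exp_neg_le hc (n + 1)
  filter_upwards [eventually_gt_atTop 0, eventually_ge_atTop (K / ε)] with u h0 h1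
  refine (mul_le_mul_of_nonneg_left (h u h0) (by positivity)).trans ?_
  rw [div_le_iff₀ hε] at h1
  rw [pow_succ, ← mul_div_assoc, mul_div_mul_left _ _ (by positivity), div_le_iff₀ h0]
  linarith

theorem sum_le_ne {s t : Finset ℕ} {f : ℕ → ℝ} (h0 : ∀ n, 0 ≤ f n) (h : ∀ n ∈ s, f n ≠ 0 → n ∈ t) :
    ∑ n ∈ s, f n ≤ ∑ n ∈ t, f n := by
  rw [← sum_filter_ne_zero]
  exact sum_le_sum_of_subset_of_nonneg (fun n hn => h n (mem_filter.1 hn).1 (mem_filter.1 hn).2)
    fun n _ _ => h0 n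

theorem M0_ge : ∀ᶠ u : ℝ in atTop, 1 / 30 ≤ M0 u := by
  filter_upwards [ev_small (c := 1 / 2) (ε := 1 / 100) (by norm_num) (by norm_num) 1,
    eventually_ge_atTop 10] with u h1 h2
  obtain ⟨X, hX⟩ : ∃ X, X = Real.exp (u - 1 / 2) := ⟨_, rfl⟩
  have e1 : Real.exp (u + 1 / 2) = Real.exp 1 * X := by rw [hX, ← Real.exp_add]; congr 1; ring
  have e2 := Real.exp_one_gt_d9
  have e3 := Real.exp_one_lt_d9
  have X1 : 10 ≤ X := by rw [hX]; linarith [Real.add_one_le_exp (u - 1 / 2)]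
  have X2 : Real.log X = u - 1 / 2 := by rw [hX, Real.log_exp]
  have X3 : √X * u ≤ X / 50 := by
    have a1 : √X = X * Real.exp (1 / 4) * Real.exp (-(1 / 2 * u)) := by
      rw [hX, ← Real.exp_half, ← Real.exp_add, ← Real.exp_add]; congr 1; ring
    have a2 : Real.exp (1 / 4) ≤ 2 := by
      rw [← Real.le_log_iff_exp_le two_pos]; linarith [Real.log_two_gt_d9]
    calc √X * u = X * (Real.exp (1 / 4) * (u ^ 1 * Real.exp (-(1 / 2 * u)))) := by rw [a1]; ring
      _ ≤ X * (2 * (1 / 100)) := by gcongr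
      _ = _ := by ring
  have X4 : 1 ≤ √X := Real.one_le_sqrt.2 (by linarith)
  have a1 := Chebyshev.psi_le (x := X) (by linarith)
  have a2 := Chebyshev.psi_ge' (x := Real.exp 1 * X) (by positivity)
  have a3 : Real.log (Real.exp 1 * X + 2) ≤ u + 2 := by
    rw [Real.log_le_iff_le_exp (by positivity), ← e1, show u + 2 = u + 1 / 2 + 3 / 2 by ring,
      Real.exp_add _ (3 / 2)]
    nlinarith [Real.add_one_le_exp (u + 1 / 2), Real.add_one_le_exp (3 / 2)]
  have a4 : Real.log 4 = 2 * Real.log 2 := by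
    rw [show (4 : ℝ) = 2 ^ 2 by norm_num, Real.log_pow]; norm_num
  have a5 : X / 10 ≤ Chebyshev.psi (Real.exp 1 * X) - Chebyshev.psi X := by
    have := Real.log_two_gt_d9
    have := Real.log_two_lt_d9
    have : 0.4 * X ≤ (Real.exp 1 - 2) * Real.log 2 * X := by gcongr; nlinarith
    nlinarith
  have a6 : ⌊X⌋₊ ≤ ⌊Real.exp 1 * X⌋₊ := Nat.floor_le_floor (by nlinarith)
  rw [Chebyshev.psi, Chebyshev.psi, ← sum_Ioc_consecutive _ (Nat.zero_le _) a6,
    add_sub_cancel_left] at a5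
  refine le_trans ?_ (sum_le_sum_of_subset_of_nonneg (s := Ioc ⌊X⌋₊ ⌊Real.exp 1 * X⌋₊)
    (fun n hn => mem_range.2 (Nat.lt_succ_of_le ((mem_Ioc.1 hn).2.trans (Nat.floor_le_floor (by
      rw [← e1, Real.exp_le_exp]; linarith))))) fun n _ _ => LW_nonneg u n)
  refine le_trans ?_ (sum_le_sum (f := fun n => Λ n * (3 * X)⁻¹) fun n hn => ?_)
  · rw [← sum_mul, ← div_eq_mul_inv, le_div_iff₀ (by positivity)]
    linarith
  · have b1 : X < n := (Nat.floor_lt (by linarith)).1 (mem_Ioc.1 hn).1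
    have b2 : (n : ℝ) ≤ Real.exp 1 * X := (Nat.le_floor_iff (by positivity)).1 (mem_Ioc.1 hn).2
    have b3 := Real.log_le_log (by linarith) b1.le
    have b4 : Real.log n ≤ u + 1 / 2 := by rwa [Real.log_le_iff_le_exp (by linarith), e1]
    rw [W, bp_one (abs_le.2 ⟨by linarith, by linarith⟩), one_div]
    exact mul_le_mul_of_nonneg_left (inv_anti₀ (by linarith) (by nlinarith)) vonMangoldt_nonneg

theorem tot_prod (T : Finset ℕ) (hT : ∀ l ∈ T, l.Prime) :
    ((∏ l ∈ T, l).totient : ℝ) = ∏ l ∈ T, ((l : ℝ) - 1) := by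
  induction T using Finset.induction_on with
  | empty => simp
  | insert a T ha ih =>
    have h1 := hT a (mem_insert_self _ _)
    have h2 := fun l hl => hT l (mem_insert_of_mem (b := a) hl)
    rw [prod_insert ha, prod_insert ha, Nat.totient_mul (Nat.Coprime.prod_right fun l hl =>
      (Nat.coprime_primes h1 (h2 l hl)).2 fun e => ha (e ▸ hl)), Nat.cast_mul, ih h2,
      Nat.totient_prime h1, Nat.cast_pred h1.pos]

theorem cls_one {q : ℕ} (hq : 1 ≤ q) (h2 : 2 ∣ q) {e : ℤ} (he : e = 1 ∨ e = -1) {T : Finset ℕ}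
    (hT : ∀ l ∈ T, l.Prime ∧ ¬l ∣ q) : ∃ b : ℕ, b.Coprime (q * ∏ l ∈ T, l) ∧ ∀ n : ℕ,
      n ≡ b [MOD q * ∏ l ∈ T, l] ↔ (q : ℤ) ∣ n - e ∧ ∀ l ∈ T, (l : ℤ) ∣ n - 2 * e := by
  have hc : IsCoprime (q : ℤ) (∏ l ∈ T, l : ℕ) := Nat.isCoprime_iff_coprime.2
    (Nat.Coprime.prod_right fun l hl => ((hT l hl).1.coprime_iff_not_dvd.2 (hT l hl).2).symm)
  obtain ⟨d, hd⟩ : ∃ d, d = ∏ l ∈ T, l := ⟨_, rfl⟩
  have d0 : 0 < d := hd ▸ prod_pos fun l hl => (hT l hl).1.pos
  have hd' : ∀ z : ℤ, (d : ℤ) ∣ z ↔ ∀ l ∈ T, (l : ℤ) ∣ z := fun z => by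
    simp only [Int.natCast_dvd, hd]
    exact ⟨fun h l hl => (dvd_prod_of_mem _ hl).trans h,
      fun h => prod_primes_dvd _ (fun l hl => (hT l hl).1.prime) h⟩
  rw [← hd] at hc ⊢
  obtain ⟨s, t, hst⟩ := id hc
  obtain ⟨β, hβ⟩ : ∃ β : ℤ, β = e * (t * d) + 2 * e * (s * q) := ⟨_, rfl⟩
  have b1 : (q : ℤ) ∣ β - e := ⟨s * e, by rw [hβ]; linear_combination e * hst⟩
  have b2 : (d : ℤ) ∣ β - 2 * e := ⟨-t * e, by rw [hβ]; linear_combination 2 * e * hst⟩
  have key : ∀ n : ℕ, n ≡ (β % (q * d : ℕ)).toNat [MOD q * d] ↔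
      (q : ℤ) ∣ n - e ∧ ∀ l ∈ T, (l : ℤ) ∣ n - 2 * e := fun n => by
    rw [Nat.modEq_iff_dvd, Int.toNat_of_nonneg (Int.emod_nonneg _ (by positivity)), ← hd',
      Int.emod_def, sub_right_comm, dvd_sub_left (dvd_mul_right _ _), Nat.cast_mul]
    constructor
    · intro h
      exact ⟨by simpa using b1.sub (dvd_of_mul_right_dvd h),
        by simpa using b2.sub (dvd_of_mul_left_dvd h)⟩
    · intro h
      exact hc.mul_dvd (by simpa using b1.sub h.1) (by simpa using b2.sub h.2)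
  refine ⟨_, Nat.coprime_of_dvd fun l hl h3 h4 => ?_, key⟩
  obtain ⟨a1, a2⟩ := (key _).1 (Nat.ModEq.refl _)
  have a3 := Int.natCast_dvd_natCast.2 h3
  have a4 : ¬(l : ℤ) ∣ e := fun h => hl.one_lt.ne' (by
    rcases he with rfl | rfl <;> simpa [Int.natCast_dvd] using h)
  by_cases h5 : l ∣ q
  · exact a4 (by simpa using a3.sub ((Int.natCast_dvd_natCast.2 h5).trans a1))
  · have a5 : (l : ℤ) ∣ 2 * e := by
      simpa using a3.sub ((Int.natCast_dvd_natCast.2 ((hl.dvd_mul.1 h4).resolve_left h5)).trans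
        ((hd' _).2 a2))
    have a6 := ((Nat.prime_iff_prime_int.1 hl).dvd_mul.1 a5).resolve_right a4
    exact h5 ((Int.natCast_dvd_natCast.1 a6).trans h2)

theorem prod_low : ∃ c : ℝ, 0 < c ∧ ∀ (z : ℝ) (P : Finset ℕ), 2 ≤ z → P ⊆ pr 0 z → (∀ l ∈ P, 3 ≤ l) →
    c / Real.log z ≤ ∏ l ∈ P, (1 - 1 / ((l : ℝ) - 1)) := by
  obtain ⟨C, -, h⟩ := Mertens.real_bound
  refine ⟨Real.exp (-(C + 12)), Real.exp_pos _, fun z P hz hP h3 => ?_⟩
  have a1 : ∑ l ∈ P, 1 / (l : ℝ) ≤ Real.log (Real.log z) + C := by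
    linarith [sum_le_sum_of_subset_of_nonneg (f := fun l : ℕ => 1 / (l : ℝ)) hP
      fun _ _ _ => by positivity, (abs_le.1 (h z hz)).2]
  have a2 : ∑ l ∈ P, 1 / (l : ℝ) ^ 2 ≤ 2 :=
    (sum_le_sum_of_subset_of_nonneg (fun l hl => mem_Icc.2 ⟨by linarith [h3 l hl],
      Nat.le_floor (mem_pr.1 (hP hl)).2.2⟩) fun _ _ _ => by positivity).trans
      (Shared.SelbergUpper.sum_inv_sq ⌊z⌋₊)
  calc _ = Real.exp (-(C + 12) - Real.log (Real.log z)) := by
        rw [Real.exp_sub, Real.exp_log (Real.log_pos (by linarith))]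
    _ ≤ Real.exp (∑ l ∈ P, -(1 / (l : ℝ) + 6 * (1 / (l : ℝ) ^ 2))) := by
        rw [Real.exp_le_exp, sum_neg_distrib, sum_add_distrib, ← mul_sum]
        linarith
    _ ≤ _ := by
        rw [Real.exp_sum]
        refine prod_le_prod (fun _ _ => (Real.exp_pos _).le) fun l hl => ?_
        have b1 : (3 : ℝ) ≤ l := by exact_mod_cast h3 l hl
        have b2 : 0 < (l : ℝ) - 1 := by linarith
        have b3 : 0 < (l : ℝ) - 2 := by linarith
        rw [Real.exp_neg, show 1 - 1 / ((l : ℝ) - 1) = (1 / ((l : ℝ) - 2) + 1)⁻¹ by field_simp; ring]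
        refine inv_anti₀ (by positivity) (le_trans (add_le_add_left ?_ 1) (Real.add_one_le_exp _))
        rw [mul_one_div, div_add_div _ _ (by linarith) (by positivity),
          div_le_div_iff₀ b3 (by positivity)]
        nlinarith [mul_nonneg (by linarith : (0 : ℝ) ≤ l) (by linarith : (0 : ℝ) ≤ l - 3)]

theorem low0 : ∃ θ c : ℝ, 0 < θ ∧ 0 < c ∧ ∀ A : ℕ, ∀ᶠ u : ℝ in atTop, ∀ q : ℕ, 1 ≤ q →
    q ≤ u ^ A → 2 ∣ q → ∀ e : ℤ, e = 1 ∨ e = -1 → c / (q * u) ≤
      ∑ n ∈ range (Mx u) with (q : ℤ) ∣ (n : ℕ) - e ∧ ∀ l : ℕ, l.Prime → l ≤ Real.exp (θ * u) →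
        ¬(l : ℤ) ∣ n - 2 * e, Λ n * W u n := by
  obtain ⟨k, hk, hfl⟩ := fl2 (κ := 2) (δ := 1 / 2) two_pos (by norm_num)
  obtain ⟨c, hc, hlow⟩ := prod_low
  have k1 : (1 : ℝ) ≤ k := by exact_mod_cast hk
  refine ⟨1 / (20 * k), c / 120, by positivity, by positivity, fun A => ?_⟩
  obtain ⟨C, hC, hbv⟩ := bv (A + 3)
  filter_upwards [M0_ge, eventually_ge_atTop (20 * k : ℝ), eventually_ge_atTop (240 * C / c),
    ev_small (c := 1 / 20) (by norm_num) one_pos A] with u hM u1 u2 u3 q q1 q2 q3 e he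
  have u0 : 0 < u := by linarith
  obtain ⟨E, E0, E1, E2⟩ := hbv u (by linarith)
  obtain ⟨z, hz⟩ : ∃ z, z = Real.exp (1 / (20 * k) * u) := ⟨_, rfl⟩
  have z1 : Real.log z = u / (20 * k) := by rw [hz, Real.log_exp]; ring
  have z2 : 1 ≤ u / (20 * k) := (one_le_div (by positivity)).2 u1
  have z3 : u / (20 * k) ≤ u / 20 := by gcongr; linarith
  have z4 : 2 ≤ z := by
    rw [hz, one_div_mul_eq_div]; linarith [Real.add_one_le_exp (u / (20 * k))]
  have z5 : z ^ k = Real.exp (u / 20) := by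
    rw [hz, ← Real.exp_nat_mul]; congr 1; field_simp
  have hφ : (0 : ℝ) < q.totient := by exact_mod_cast Nat.totient_pos.2 q1
  have hφ' : (q.totient : ℝ) ≤ q := by exact_mod_cast q.totient_le
  have q0 : (0 : ℝ) < q := by exact_mod_cast q1
  rw [← hz]
  set P := (pr 0 z).filter fun l => ¬l ∣ q with hP
  have hP1 : ∀ l ∈ P, l.Prime ∧ ¬l ∣ q := fun l hl =>
    ⟨(mem_pr.1 (mem_filter.1 hl).1).1, (mem_filter.1 hl).2⟩
  have hP2 : ∀ l ∈ P, 3 ≤ l := fun l hl => by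
    have := (hP1 l hl).1.two_le
    have : l ≠ 2 := fun h => (hP1 l hl).2 (h ▸ q3)
    omega
  have h := hfl ℕ ((range (Mx u)).filter fun n => (q : ℤ) ∣ n - e) (fun n => Λ n * W u n) P
    (fun l n => (l : ℤ) ∣ n - 2 * e) (fun l => 1 / ((l : ℝ) - 1)) (M0 u / q.totient)
    (C / u ^ (A + 3)) z (fun T => E (q * ∏ l ∈ T, l)) z4 (fun n _ => LW_nonneg u n)
    (fun l hl => by
      have b1 : (3 : ℝ) ≤ l := by exact_mod_cast hP2 l hl
      have b2 : 0 < (l : ℝ) - 1 := by linarith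
      refine ⟨(hP1 l hl).1, (mem_pr.1 (mem_filter.1 hl).1).2.2, by positivity, ?_, ?_⟩ <;>
        rw [div_le_div_iff₀ b2 (by linarith)] <;> linarith)
    (by positivity) (fun T => E0 _) (by
      refine (Shared.SelbergUpper.inj_sum (F := fun d => E (q * d)) (B := Icc 1 ⌊z ^ k⌋₊)
        (fun T hT l hl => (hP1 l (mem_powerset.1 (mem_filter.1 hT).1 hl)).1) (fun T hT =>
          mem_Icc.2 ⟨prod_pos fun l hl => (hP1 l (mem_powerset.1 (mem_filter.1 hT).1 hl)).1.pos,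
            Nat.le_floor (by simpa using (mem_filter.1 hT).2)⟩) fun d => E0 _).trans ?_
      rw [← sum_image (g := fun d => q * d) fun a _ b _ h => Nat.eq_of_mul_eq_mul_left q1 h]
      refine le_trans (sum_le_sum_of_subset_of_nonneg (fun m hm => ?_) fun m _ _ => E0 m)
        (E2 (q * ⌊z ^ k⌋₊) ?_)
      · obtain ⟨d, hd, rfl⟩ := mem_image.1 hm
        exact mem_Icc.2 ⟨Nat.mul_pos q1 (mem_Icc.1 hd).1, Nat.mul_le_mul_left _ (mem_Icc.1 hd).2⟩
      · rw [Real.exp_neg, mul_inv_le_iff₀ (Real.exp_pos _), one_mul, one_div_mul_eq_div] at u3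
        rw [Nat.cast_mul, show u / 10 = u / 20 + u / 20 by ring, Real.exp_add]
        exact mul_le_mul (q2.trans u3) ((Nat.floor_le (by positivity)).trans z5.le)
          (Nat.cast_nonneg _) (Real.exp_pos _).le)
    fun T hT _ => by
      obtain ⟨b, b1, b2⟩ := cls_one q1 q3 he fun l hl => hP1 l (hT hl)
      have b3 := E1 _ b (Nat.mul_pos q1 (prod_pos fun l hl => (hP1 l (hT hl)).1.pos)) b1
      rw [Nat.totient_mul (Nat.Coprime.prod_right fun l hl =>
        ((hP1 l (hT hl)).1.coprime_iff_not_dvd.2 (hP1 l (hT hl)).2).symm), Nat.cast_mul,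
        tot_prod T fun l hl => (hP1 l (hT hl)).1, ap] at b3
      rw [filter_filter, prod_div_distrib, prod_const_one, div_mul_div_comm, mul_one]
      simp only [b2] at b3
      convert b3
  have a1 := hlow z P z4 (filter_subset _ _) hP2
  have a2 : c / u ≤ c / Real.log z := by rw [z1]; gcongr; linarith
  have a3 : 1 / 30 / q * (c / u) ≤ M0 u / q.totient * ∏ l ∈ P, (1 - 1 / ((l : ℝ) - 1)) :=
    mul_le_mul (by gcongr) (a2.trans a1) (by positivity) (by positivity)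
  have a4 : (2 * Real.log z + 1) * (C / u ^ (A + 3)) ≤ c / 120 / (q * u) :=
    calc _ ≤ u * (C / u ^ (A + 3)) := by gcongr; linarith
      _ = C / u / (u ^ A * u) := by field_simp; ring
      _ ≤ _ := by
        rw [div_le_iff₀ hc] at u2
        have : C / u ≤ c / 120 := by
          rw [div_le_iff₀ u0]
          nlinarith
        gcongr
  have a5 : 1 / 30 / q * (c / u) = 4 * (c / 120 / (q * u)) := by field_simp; norm_num
  have a6 := le_trans (by linarith : c / 120 / (q * u) -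
    M0 u / q.totient * ∏ l ∈ P, (1 - 1 / ((l : ℝ) - 1)) ≤ _) (abs_le.1 h).1
  rw [sub_le_sub_iff_right] at a6
  refine a6.trans (le_of_eq (sum_congr ?_ fun _ _ => rfl))
  ext n
  simp only [mem_filter, and_assoc]
  refine and_congr_right fun _ => and_congr_right fun h1 => ⟨fun h2 l l1 l2 l3 => ?_,
    fun h2 l hl => h2 l (hP1 l hl).1 (mem_pr.1 (mem_filter.1 hl).1).2.2⟩
  by_cases l4 : l ∣ q
  · have := ((Int.natCast_dvd_natCast.2 l4).trans h1).sub l3
    rw [show (n : ℤ) - e - (n - 2 * e) = e by ring] at this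
    exact l1.one_lt.ne' (by rcases he with rfl | rfl <;> simpa [Int.natCast_dvd] using this)
  · exact h2 l (mem_filter.2 ⟨mem_pr.2 ⟨l1, by exact_mod_cast l1.pos, l2⟩, l4⟩) l3

theorem low : ∃ θ c : ℝ, 0 < θ ∧ 0 < c ∧ ∀ A : ℕ, ∀ᶠ u : ℝ in atTop, ∀ q : ℕ, 1 ≤ q →
    q ≤ u ^ A → 2 ∣ q → ∀ e : ℤ, e = 1 ∨ e = -1 → c * Real.exp u / (q * u ^ 2) ≤
      #{p ∈ range (Mx u) | Nat.Prime p ∧ Real.exp (u - 1) < p ∧ (q : ℤ) ∣ p - e ∧
        ∀ l : ℕ, l.Prime → l ≤ Real.exp (θ * u) → ¬(l : ℤ) ∣ p - 2 * e} := by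
  obtain ⟨θ, c, hθ, hc, h⟩ := low0
  refine ⟨θ, c / 12, hθ, by positivity, fun A => ?_⟩
  filter_upwards [h A, eventually_ge_atTop 2,
    ev_small (c := 1 / 2) (ε := c / 72) (by norm_num) (by positivity) (A + 2)]
    with u h1 u1 u2 q q1 q2 q3 e he
  have q0 : (0 : ℝ) < q := by exact_mod_cast q1
  have u0 : 0 < u := by linarith
  have hl := log_Mx u0.le
  have e3 := Real.exp_one_lt_three
  have M1 : (1 : ℝ) ≤ Mx u := by rw [Mx]; push_cast; linarith [Nat.cast_nonneg (α := ℝ) ⌊Real.exp (u + 1)⌋₊]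
  have hW : ∀ n, W u n ≤ 3 * Real.exp (-u) := fun n => by
    rcases le_or_gt (n : ℝ) (Real.exp (u - 1)) with a | a
    · rw [W_small a]; positivity
    · refine (div_le_div₀ zero_le_one bp.le_one (Real.exp_pos _) a.le).trans ?_
      rw [one_div, ← Real.exp_neg, neg_sub, sub_eq_add_neg, Real.exp_add]
      gcongr
  have a1 : ∑ n ∈ range (Mx u) with ¬n.Prime, Λ n * W u n ≤ c / (q * u) / 2 :=
    calc _ ≤ (∑ n ∈ Ioc 0 ⌊(Mx u : ℝ)⌋₊ with ¬n.Prime, Λ n) * (3 * Real.exp (-u)) := by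
          rw [sum_mul]
          refine (sum_le_sum fun n _ => mul_le_mul_of_nonneg_left (hW n) vonMangoldt_nonneg).trans
            (sum_le_ne (fun n => mul_nonneg vonMangoldt_nonneg (by positivity)) fun n hn h0 => ?_)
          have : n ≠ 0 := by rintro rfl; simp at h0
          rw [mem_filter, mem_range] at hn
          rw [Nat.floor_natCast, mem_filter, mem_Ioc]
          exact ⟨by omega, hn.2⟩
      _ ≤ 2 * (3 * Real.exp (u / 2)) * (2 * u) * (3 * Real.exp (-u)) := by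
          rw [← Chebyshev.psi_sub_theta_eq_sum_not_prime]
          refine mul_le_mul_of_nonneg_right ((Chebyshev.psi_sub_theta_le M1).trans ?_) (by positivity)
          have := Real.log_nonneg M1
          gcongr
          · rw [Real.log_le_iff_le_exp (by linarith)] at hl
            refine (Real.sqrt_le_sqrt hl).trans ?_
            rw [← Real.exp_half, show (u + 2) / 2 = 1 + u / 2 by ring, Real.exp_add]
            gcongr
          · linarith
      _ = 36 * (u ^ (A + 2) * Real.exp (-(1 / 2 * u))) / (u ^ A * u) := by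
          rw [show -(1 / 2 * u) = u / 2 + -u by ring, Real.exp_add]
          field_simp
          ring
      _ ≤ 36 * (c / 72) / (q * u) := by gcongr
      _ = _ := by ring
  have a2 := h1 q q1 q2 q3 e he
  rw [← sum_filter_add_sum_filter_not _ Nat.Prime] at a2
  have a3 := add_le_add (le_refl _) ((sum_le_sum_of_subset_of_nonneg
    (filter_subset_filter _ (filter_subset _ _)) fun n _ _ => LW_nonneg u n).trans a1) |> a2.trans
  have a4 := le_trans (by linarith : c / (q * u) / 2 ≤ _) ((sum_le_ne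
    (t := {p ∈ range (Mx u) | Nat.Prime p ∧ Real.exp (u - 1) < p ∧ (q : ℤ) ∣ p - e ∧
        ∀ l : ℕ, l.Prime → l ≤ Real.exp (θ * u) → ¬(l : ℤ) ∣ p - 2 * e})
    (s := ((range (Mx u)).filter fun n : ℕ => (q : ℤ) ∣ n - e ∧ ∀ l : ℕ, l.Prime →
      l ≤ Real.exp (θ * u) → ¬(l : ℤ) ∣ n - 2 * e).filter Nat.Prime)
    (LW_nonneg u) fun n hn h0 => by
      simp only [mem_filter] at hn ⊢
      exact ⟨hn.1.1, hn.2, not_le.1 fun a => h0 (by rw [W_small a, mul_zero]), hn.1.2⟩).trans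
    (sum_le_card_nsmul _ _ (2 * u * (3 * Real.exp (-u))) fun n hn => by
      obtain ⟨b1, b2, -⟩ := mem_filter.1 hn
      refine mul_le_mul (vonMangoldt_le_log.trans ((Real.log_le_log (by exact_mod_cast b2.pos)
        (Nat.cast_le.2 (mem_range.1 b1).le)).trans (by linarith))) (hW n) (W_nonneg u n)
        (by positivity)))
  rw [nsmul_eq_mul, ← div_le_iff₀ (by positivity), Real.exp_neg] at a4
  refine le_trans (le_of_eq ?_) a4
  field_simp
  norm_num

end Pool.Agent.Lib.MP_f64879_nt
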