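import Pool.Agent.Lib.MP_9d27bc_nt.C.FL

/-! The fundamental lemma of the sieve with summed remainders. -/

namespace Pool.Agent.Lib.MP_f64879_nt

open Finset Pool.Agent.Lib.MP_9d27bc_nt.C.FL
open scoped Classical

theorem expand2 {ι : Type} (S : Finset ι) (w : ι → ℝ) (X : ι → ℕ → ℝ) (ν : ℕ → ℝ) (P : Finset ℕ)
    {M E Z : ℝ} {r : Finset ℕ → ℝ} (hr : ∀ T, 0 ≤ r T)
    (hE : ∑ T ∈ P.powerset with ∏ l ∈ T, ((l : ℕ) : ℝ) ≤ Z, r T ≤ E)
    (hΛ : ∀ T ⊆ P, ∏ l ∈ T, (l : ℝ) ≤ Z →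
      |∑ i ∈ S, w i * ∏ l ∈ T, X i l - M * ∏ l ∈ T, ν l| ≤ r T)
    {J : ℕ} (B : Fin J → Finset ℕ) (hB : ∀ i j, i ≠ j → Disjoint (B i) (B j))
    (y : Fin J → ℝ) (hy : ∀ j, 1 ≤ y j) (n : Fin J → ℕ)
    (hP : ∀ j, ∀ l ∈ B j, l ∈ P ∧ l.Prime ∧ (l : ℝ) ≤ y j) (hZ : ∏ j, y j ^ n j ≤ Z)
    (c : Fin J → ℕ → ℝ) (hc : ∀ j k, |c j k| ≤ 1) (hc' : ∀ j k, c j k ≠ 0 → k ≤ n j) :
    |∑ i ∈ S, w i * ∏ j, Q (c j) (B j) (X i) - M * ∏ j, Q (c j) (B j) ν| ≤ E := by
  set s : Fin J → Finset (Finset ℕ) := fun j => {T ∈ (B j).powerset | #T ≤ n j} with hs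
  have hs1 : ∀ j, ∀ T ∈ s j, T ⊆ B j := fun j T hT => mem_powerset.1 (mem_filter.1 hT).1
  have hs2 : ∀ j, ∀ T ∈ s j, ∏ l ∈ T, (l : ℝ) ≤ y j ^ n j := by
    intro j T hT
    calc ∏ l ∈ T, (l : ℝ) ≤ ∏ _l ∈ T, y j :=
          prod_le_prod (fun l _ => Nat.cast_nonneg l) fun l hl => (hP j l (hs1 j T hT hl)).2.2
      _ = y j ^ #T := prod_const _
      _ ≤ _ := pow_le_pow_right₀ (hy j) (mem_filter.1 hT).2
  have hU : ∀ f ∈ Fintype.piFinset s, ∀ x : ℕ → ℝ,
      ∏ l ∈ univ.biUnion f, x l = ∏ j, ∏ l ∈ f j, x l := fun f hf x =>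
    prod_biUnion fun i _ j _ hij => (hB i j hij).mono
      (hs1 i _ (Fintype.mem_piFinset.1 hf i)) (hs1 j _ (Fintype.mem_piFinset.1 hf j))
  have key : ∀ x : ℕ → ℝ, ∏ j, Q (c j) (B j) x
      = ∑ f ∈ Fintype.piFinset s, (∏ j, c j #(f j)) * ∏ l ∈ univ.biUnion f, x l := by
    intro x
    have : ∀ j, Q (c j) (B j) x = ∑ T ∈ s j, c j #T * ∏ l ∈ T, x l := fun j =>
      (sum_filter_of_ne fun T _ h => hc' j _ (left_ne_zero_of_mul h)).symm
    simp only [this]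
    rw [prod_univ_sum]
    exact sum_congr rfl fun f hf => by rw [prod_mul_distrib, hU f hf]
  have e : ∑ i ∈ S, w i * ∏ j, Q (c j) (B j) (X i) - M * ∏ j, Q (c j) (B j) ν
      = ∑ f ∈ Fintype.piFinset s, (∏ j, c j #(f j)) *
        (∑ i ∈ S, w i * ∏ l ∈ univ.biUnion f, X i l - M * ∏ l ∈ univ.biUnion f, ν l) := by
    simp only [key, mul_sum, mul_sub, sum_sub_distrib]
    rw [sum_comm]
    congr 1
    · exact sum_congr rfl fun f _ => sum_congr rfl fun i _ => by ring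
    · exact sum_congr rfl fun f _ => by ring
  have hm : ∀ f ∈ Fintype.piFinset s, univ.biUnion f ⊆ P ∧ ∏ l ∈ univ.biUnion f, (l : ℝ) ≤ Z := by
    intro f hf
    have hf' := Fintype.mem_piFinset.1 hf
    refine ⟨biUnion_subset.2 fun j _ l hl => (hP j l (hs1 j _ (hf' j) hl)).1, ?_⟩
    rw [hU f hf]
    exact (prod_le_prod (fun j _ => prod_nonneg fun l _ => Nat.cast_nonneg l)
      fun j _ => hs2 j _ (hf' j)).trans hZ
  have hi : ∀ f ∈ Fintype.piFinset s, ∀ j, f j = univ.biUnion f ∩ B j := by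
    intro f hf j
    have hf' := Fintype.mem_piFinset.1 hf
    ext l
    rw [mem_inter, mem_biUnion]
    refine ⟨fun h => ⟨⟨j, mem_univ _, h⟩, hs1 j _ (hf' j) h⟩, fun ⟨⟨i, _, h⟩, h'⟩ => ?_⟩
    by_contra h''
    exact disjoint_left.1 (hB i j (by rintro rfl; exact h'' h)) (hs1 i _ (hf' i) h) h'
  rw [e]
  refine (abs_sum_le_sum_abs _ _).trans ((sum_le_sum (g := fun f => r (univ.biUnion f))
    fun f hf => ?_).trans ?_)
  · have a1 : |∏ j, c j #(f j)| ≤ 1 := by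
      rw [abs_prod]
      exact prod_le_one (fun j _ => abs_nonneg _) fun j _ => hc j _
    rw [abs_mul]
    exact (mul_le_mul a1 (hΛ _ (hm f hf).1 (hm f hf).2) (abs_nonneg _) zero_le_one).trans_eq
      (one_mul _)
  · rw [← sum_image fun f hf g hg h => funext fun j => by rw [hi f hf j, hi g hg j, h]]
    refine le_trans (sum_le_sum_of_subset_of_nonneg (fun T hT => ?_) fun T _ _ => hr T) hE
    obtain ⟨f, hf, rfl⟩ := mem_image.1 hT
    exact mem_filter.2 ⟨mem_powerset.2 (hm f hf).1, (hm f hf).2⟩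

theorem idx_lt {z : ℝ} {l : ℕ} (hl : l.Prime) (hz : (l : ℝ) ≤ z) : idx z l < ⌊2 * Real.log z⌋₊ := by
  have h2 : (2 : ℝ) ≤ l := by exact_mod_cast hl.two_le
  have h4 := (idx_spec hl hz).1
  have a1 : ((idx z l).succ : ℝ) ≤ 2 ^ idx z l := by
    exact_mod_cast Nat.succ_le_of_lt Nat.lt_two_pow_self
  have a2 : 1 / 2 ≤ Real.log l :=
    le_trans (by linarith [Real.log_two_gt_d9]) (Real.log_le_log (by norm_num) h2)
  rw [le_div_iff₀ (by positivity)] at h4
  refine Nat.le_floor (a1.trans ?_)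
  nlinarith [(by positivity : (0 : ℝ) < 2 ^ idx z l)]

theorem fl2 {κ δ : ℝ} (hκ : 0 < κ) (hδ : 0 < δ) : ∃ u : ℕ, 1 ≤ u ∧
    ∀ (ι : Type) (S : Finset ι) (w : ι → ℝ) (P : Finset ℕ) (e : ℕ → ι → Prop) (ν : ℕ → ℝ)
      (M E z : ℝ) (r : Finset ℕ → ℝ), 2 ≤ z → (∀ i ∈ S, 0 ≤ w i) →
      (∀ l ∈ P, l.Prime ∧ (l : ℝ) ≤ z ∧ 0 ≤ ν l ∧ ν l ≤ κ / l ∧ ν l ≤ 1 / 2) → 0 ≤ M →
      (∀ T, 0 ≤ r T) → ∑ T ∈ P.powerset with ∏ l ∈ T, ((l : ℕ) : ℝ) ≤ z ^ u, r T ≤ E →
      (∀ T ⊆ P, ∏ l ∈ T, (l : ℝ) ≤ z ^ u →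
        |∑ i ∈ S with ∀ l ∈ T, e l i, w i - M * ∏ l ∈ T, ν l| ≤ r T) →
      |∑ i ∈ S with ∀ l ∈ P, ¬e l i, w i - M * ∏ l ∈ P, (1 - ν l)| ≤
        δ * (M * ∏ l ∈ P, (1 - ν l)) + (2 * Real.log z + 1) * E := by
  obtain ⟨C, hC, hblock⟩ := block
  set η := min 1 (δ / 3) with hη
  have hη0 : 0 < η := lt_min one_pos (by positivity)
  obtain ⟨m, hm⟩ := pow_unbounded_of_one_lt (Real.exp (4 * (κ * C)) / η) (one_lt_two (α := ℝ))
  refine ⟨4 * m + 6, by omega, ?_⟩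
  intro ι S w P e ν₀ M E z r hz hw hP hM hr hE' hΛ
  have hE : 0 ≤ E := le_trans (sum_nonneg fun T _ => hr T) hE'
  set ν : ℕ → ℝ := fun l => if l ∈ P then ν₀ l else 0 with hν
  have hν0 : ∀ l, 0 ≤ ν l := fun l => by
    simp only [hν]
    split_ifs with h
    · exact (hP l h).2.2.1
    · exact le_rfl
  have hνP : ∀ l ∈ P, ν l = ν₀ l := fun l hl => if_pos hl
  set X : ι → ℕ → ℝ := fun i l => if e l i then 1 else 0 with hX
  have hX0 : ∀ i l, 0 ≤ X i l ∧ X i l ≤ 1 := fun i l => by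
    simp only [hX]
    split_ifs <;> norm_num
  set J := ⌊2 * Real.log z⌋₊ with hJ
  set B : Fin J → Finset ℕ := fun j => {l ∈ P | idx z l = j} with hB
  have hBP : ∀ j, ∀ l ∈ B j, l ∈ P ∧ idx z l = j := fun j l hl => mem_filter.1 hl
  have hfib : ∀ x : ℕ → ℝ, ∏ l ∈ P, x l = ∏ j, ∏ l ∈ B j, x l := by
    intro x
    rw [← prod_fiberwise_of_maps_to (t := range J) (g := idx z)
      fun l hl => mem_range.2 (idx_lt (hP l hl).1 (hP l hl).2.1),
      ← Fin.prod_univ_eq_prod_range (fun j => ∏ l ∈ P with idx z l = j, x l)]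
  have hlz : 0 ≤ Real.log z := Real.log_nonneg (by linarith)
  set h : Fin J → ℕ := fun j => 2 * (m + j) with hh
  have hev : ∀ j, Even (h j) := fun j => even_two_mul _
  have hexp := expand2 S w X ν P (M := M) (Z := z ^ (4 * m + 6)) hr hE' (fun T hT hT' => by
      have := hΛ T hT hT'
      rw [sum_filter] at this
      rw [prod_congr rfl fun l hl => hνP l (hT hl)]
      simpa only [hX, prod_boole, mul_boole] using this) B
    (fun i j hij => disjoint_left.2 fun l h1 h2 =>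
      hij (Fin.ext ((hBP i l h1).2.symm.trans (hBP j l h2).2)))
    (fun j => Real.exp (Real.log z / 2 ^ (j : ℕ))) (fun j => Real.one_le_exp (by positivity))
    (fun j => h j + 1) (fun j l hl => by
      obtain ⟨a1, a2⟩ := hBP j l hl
      have a3 := (hP l a1).1
      refine ⟨a1, a3, (Real.log_le_iff_le_exp (by exact_mod_cast a3.pos)).1 ?_⟩
      rw [← a2]
      exact (idx_spec a3 (hP l a1).2.1).1) (by
      simp only [← Real.exp_nat_mul, ← Real.exp_sum]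
      rw [← Real.exp_log (show 0 < z ^ (4 * m + 6) by positivity), Real.log_pow,
        Real.exp_le_exp]
      have a1 : ∑ j : Fin J, ((h j + 1 : ℕ) : ℝ) * (Real.log z / 2 ^ (j : ℕ))
          = (∑ j ∈ range J, ((2 * m + 1 : ℝ) + 2 * j) / 2 ^ j) * Real.log z := by
        rw [← Fin.sum_univ_eq_sum_range (fun j => ((2 * m + 1 : ℝ) + 2 * j) / 2 ^ j), sum_mul]
        refine sum_congr rfl fun j _ => ?_
        simp only [hh]
        push_cast
        ring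
      rw [a1, sum_lev]
      refine mul_le_mul_of_nonneg_right ?_ hlz
      have : (0 : ℝ) ≤ (2 * (2 * m + 1) + 4 * J + 4) / 2 ^ J := by positivity
      push_cast
      linarith)
  have cU1 : ∀ a k, |cU a k| ≤ 1 := fun a k => by
    unfold cU
    split_ifs <;> simp
  have cD1 : ∀ a k, |cD a k| ≤ 1 := fun a k => by
    unfold cD
    split_ifs <;> simp
  have cU2 : ∀ a k, cU a k ≠ 0 → k ≤ a + 1 := fun a k hk => by
    by_contra hc
    exact hk (if_neg (by omega))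
  have cD2 : ∀ a k, cD a k ≠ 0 → k ≤ a + 1 := fun a k hk => by
    by_contra hc
    exact hk (if_neg (by omega))
  set U : (ℕ → ℝ) → ℝ := fun x => ∏ j, Q (cU (h j)) (B j) x with hU
  set D : Fin J → (ℕ → ℝ) → ℝ := fun j x =>
    ∏ i, if i = j then Q (cD (h i)) (B i) x else Q (cU (h i)) (B i) x with hD
  have E1 : |∑ i ∈ S, w i * U (X i) - M * U ν| ≤ E :=
    hexp (fun j => cU (h j)) (fun j => cU1 _) fun j => cU2 _
  have E2 : ∀ j, |∑ i ∈ S, w i * D j (X i) - M * D j ν| ≤ E := by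
    intro j
    have := hexp (fun i => if i = j then cD (h i) else cU (h i))
      (fun i k => by split_ifs; exacts [cD1 _ _, cU1 _ _])
      fun i k => by split_ifs; exacts [cD2 _ _, cU2 _ _]
    have a1 : ∀ i x, Q (if i = j then cD (h i) else cU (h i)) (B i) x
        = if i = j then Q (cD (h i)) (B i) x else Q (cU (h i)) (B i) x := by
      intro i x
      split_ifs <;> rfl
    simpa only [hD, a1] using this
  have T : ∀ x : ℕ → ℝ, (∀ l ∈ P, 0 ≤ x l ∧ x l ≤ 1) →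
      ∏ l ∈ P, (1 - x l) ≤ U x ∧ U x ≤ ∏ l ∈ P, (1 - x l) + ∑ j, D j x := by
    intro x hx
    have a1 : ∀ j, ∀ l ∈ B j, 0 ≤ x l ∧ x l ≤ 1 := fun j l hl => hx l (hBP j l hl).1
    have a2 : ∀ j, 0 ≤ ∏ l ∈ B j, (1 - x l) := fun j =>
      prod_nonneg fun l hl => sub_nonneg.2 (a1 j l hl).2
    rw [hfib]
    exact ⟨prod_le_prod (fun j _ => a2 j) fun j _ => (bonf_even (a1 j) (hev j)).1,
      tele univ a2 (fun j => (bonf_even (a1 j) (hev j)).1) fun j => (bonf_even (a1 j) (hev j)).2⟩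
  have hν1 : ∀ l ∈ P, 0 ≤ ν l ∧ ν l ≤ 1 / 2 := fun l hl =>
    ⟨hν0 l, (hνP l hl).trans_le (hP l hl).2.2.2.2⟩
  have hν2 : ∀ l ∈ P, 0 ≤ ν l ∧ ν l ≤ 1 := fun l hl => ⟨hν0 l, by linarith [(hν1 l hl).2]⟩
  set V : Fin J → ℝ := fun j => ∏ l ∈ B j, (1 - ν l) with hV
  set ε : Fin J → ℝ := fun j => η * (1 / 2 ^ ((j : ℕ) + 1)) with hε
  have hε0 : ∀ j, 0 ≤ ε j := fun j => by positivity
  have hV0 : ∀ j, 0 ≤ V j := fun j =>
    prod_nonneg fun l hl => sub_nonneg.2 (hν2 l (hBP j l hl).1).2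
  have hεs : ∑ j, ε j ≤ η := by
    rw [← mul_sum, Fin.sum_univ_eq_sum_range (fun j => (1 : ℝ) / 2 ^ (j + 1)), sum_geo]
    have : (0 : ℝ) ≤ 1 / 2 ^ J := by positivity
    nlinarith
  have hDj : ∀ j, Q (cD (h j)) (B j) ν ≤ V j * ε j := by
    intro j
    have a1 : ∑ l ∈ B j, ν l ≤ κ * C := by
      refine le_trans ?_ (mul_le_mul_of_nonneg_left (hblock (Real.log z / 2 ^ (j : ℕ)) (B j)
        fun l hl => ?_) hκ.le)
      · rw [mul_sum]
        refine sum_le_sum fun l hl => ?_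
        rw [hνP l (hBP j l hl).1, mul_one_div]
        exact (hP l (hBP j l hl).1).2.2.2.1
      · obtain ⟨b1, b2⟩ := hBP j l hl
        obtain ⟨b3, b4, -⟩ := idx_spec (hP l b1).1 (hP l b1).2.1
        rw [b2] at b3 b4
        exact ⟨(hP l b1).1, b3, b4⟩
    have a2 := (D_le (B := B j) hν0 (h j)).trans
      (Real.exp_le_exp.2 (show _ ≤ 2 * (κ * C) by linarith))
    have a3 := (Real.exp_le_exp.2 (show -(2 * (κ * C)) ≤ _ by linarith)).trans
      (prod_ge fun l hl => hν1 l (hBP j l hl).1)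
    have a4 : (2 : ℝ) ^ m * 2 ^ ((j : ℕ) + 1) ≤ 2 ^ (h j + 1) := by
      rw [← pow_add]
      exact pow_le_pow_right₀ one_le_two (by simp only [hh]; omega)
    have a5 : Real.exp (2 * (κ * C)) ≤ 2 ^ m * η * Real.exp (-(2 * (κ * C))) := by
      rw [div_lt_iff₀ hη0] at hm
      rw [Real.exp_neg, ← div_eq_mul_inv, le_div_iff₀ (Real.exp_pos _), ← Real.exp_add]
      rw [show 2 * (κ * C) + 2 * (κ * C) = 4 * (κ * C) by ring]
      exact hm.le
    have a6 := mul_le_mul_of_nonneg_right a4 (D_nonneg (B := B j) (fun l _ => hν0 l) (h j))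
    have a7 := mul_le_mul_of_nonneg_left a3 (show 0 ≤ 2 ^ m * η by positivity)
    refine le_of_mul_le_mul_left ?_ (show (0 : ℝ) < 2 ^ m * 2 ^ ((j : ℕ) + 1) by positivity)
    calc _ ≤ 2 ^ m * η * V j := by linarith
      _ = _ := by simp only [hε]; field_simp
  have hDs : ∑ j, D j ν ≤ δ * ∏ l ∈ P, (1 - ν l) := by
    have a1 : ∀ j, D j ν ≤ (∏ i, V i) * 3 * ε j := by
      intro j
      calc D j ν ≤ ∏ i, (V i * (1 + ε i)) * (if i = j then ε i else 1) := by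
            refine prod_le_prod (fun i _ => ?_) fun i _ => ?_
            · split_ifs
              · exact D_nonneg (fun l _ => hν0 l) _
              · exact (hV0 i).trans (bonf_even (fun l hl => hν2 l (hBP i l hl).1) (hev i)).1
            · have b1 := hDj i
              have b2 := mul_nonneg (mul_nonneg (hV0 i) (hε0 i)) (hε0 i)
              split_ifs
              · linarith
              · have := (bonf_even (fun l hl => hν2 l (hBP i l hl).1) (hev i)).2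
                linarith
        _ = (∏ i, V i) * (∏ i, (1 + ε i)) * ε j := by
            rw [prod_mul_distrib, prod_mul_distrib, prod_ite_eq']
            simp
        _ ≤ _ := by
            have b1 := prod_nonneg (s := univ) fun i _ => hV0 i
            have b2 : ∏ i, (1 + ε i) ≤ 3 := (Real.prod_one_add_le_exp_sum _ hε0).trans
              ((Real.exp_le_exp.2 (hεs.trans (min_le_left _ _))).trans Real.exp_one_lt_three.le)
            have b3 := hε0 j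
            gcongr
    have a2 := sum_le_sum fun j (_ : j ∈ univ) => a1 j
    have a3 := prod_nonneg (s := univ) fun i _ => hV0 i
    have a4 := mul_le_mul_of_nonneg_left (hεs.trans (min_le_right _ _)) (mul_nonneg a3 zero_le_three)
    rw [← mul_sum] at a2
    rw [hfib]
    linarith
  have e1 : ∑ i ∈ S with ∀ l ∈ P, ¬e l i, w i = ∑ i ∈ S, w i * ∏ l ∈ P, (1 - X i l) := by
    rw [sum_filter]
    refine sum_congr rfl fun i _ => ?_
    have : ∀ l, 1 - X i l = if ¬e l i then 1 else 0 := fun l => by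
      simp only [hX]
      split_ifs <;> norm_num
    simp only [this, prod_boole, mul_boole]
  have b1 : ∑ i ∈ S, w i * ∏ l ∈ P, (1 - X i l) ≤ ∑ i ∈ S, w i * U (X i) :=
    sum_le_sum fun i hi => mul_le_mul_of_nonneg_left (T _ fun l _ => hX0 i l).1 (hw i hi)
  have b2 : ∑ i ∈ S, w i * U (X i)
      ≤ ∑ i ∈ S, w i * ∏ l ∈ P, (1 - X i l) + ∑ j, ∑ i ∈ S, w i * D j (X i) := by
    rw [sum_comm, ← sum_add_distrib]
    refine sum_le_sum fun i hi => ?_
    rw [← mul_sum, ← mul_add]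
    exact mul_le_mul_of_nonneg_left (T _ fun l _ => hX0 i l).2 (hw i hi)
  have b3 : ∑ j, ∑ i ∈ S, w i * D j (X i) ≤ M * ∑ j, D j ν + J * E := by
    have := sum_le_sum fun j (_ : j ∈ univ) => (abs_le.1 (E2 j)).2
    rw [sum_sub_distrib, ← mul_sum, sum_const, card_univ, Fintype.card_fin, nsmul_eq_mul] at this
    linarith
  have b4 := mul_le_mul_of_nonneg_left (T ν hν2).1 hM
  have b5 := mul_le_mul_of_nonneg_left (T ν hν2).2 hM
  have b6 := mul_le_mul_of_nonneg_left hDs hM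
  have b7 : (J : ℝ) * E ≤ 2 * Real.log z * E :=
    mul_le_mul_of_nonneg_right (Nat.floor_le (by linarith)) hE
  have b8 : 0 ≤ (J : ℝ) * E := by positivity
  obtain ⟨b9, b10⟩ := abs_le.1 E1
  rw [e1, ← prod_congr rfl fun l hl => congrArg (1 - ·) (hνP l hl), abs_le]
  constructor <;> linarith

end Pool.Agent.Lib.MP_f64879_nt
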