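import Pool.Agent.Lib.MP_f64879_nt.Va
import Pool.Agent.Lib.MP_f64879_nt.FL2

/-! A smooth Bombieri-Vinogradov theorem of level one tenth. -/

namespace Pool.Agent.Lib.MP_f64879_nt

open Complex Finset Pool.Agent.Lib.MP_164d34_nt.Fam ArithmeticFunction
open scoped Real

/-- the smooth mass of the prime powers -/
noncomputable def M0 (u : ℝ) : ℝ := ∑ n ∈ range (Mx u), Λ n * W u n

/-- the smooth mass of the prime powers in a residue class -/
noncomputable def ap (u : ℝ) (m a : ℕ) : ℝ := ∑ n ∈ range (Mx u) with n ≡ a [MOD m], Λ n * W u n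

theorem W_nonneg (u : ℝ) (n : ℕ) : 0 ≤ W u n := div_nonneg bp.nonneg (Nat.cast_nonneg _)

theorem LW_nonneg (u : ℝ) (n : ℕ) : 0 ≤ Λ n * W u n :=
  mul_nonneg vonMangoldt_nonneg (W_nonneg u n)

theorem sm_cop {g : ℕ → ℂ} (hg : ∀ n, ‖g n‖ ≤ 1) (u : ℝ) (m : ℕ) :
    ‖sm (fun n => if n.Coprime m then g n else 0) u - sm g u‖ ≤
      ∑ n ∈ range (Mx u) with ¬n.Coprime m, Λ n * W u n := by
  rw [sm, sm, ← sum_sub_distrib, sum_filter]
  refine norm_sum_le_of_le _ fun n _ => ?_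
  by_cases h : n.Coprime m
  · rw [if_pos h, if_neg (not_not.2 h), sub_self, norm_zero]
  · rw [if_neg h, if_pos h, zero_mul, zero_sub, norm_neg, norm_mul, norm_real,
      Real.norm_of_nonneg (LW_nonneg u n)]
    exact mul_le_of_le_one_left (LW_nonneg u n) (hg n)

theorem orth (u : ℝ) {m a : ℕ} (hm : 1 ≤ m) (ha : a.Coprime m) :
    |ap u m a - M0 u / m.totient| ≤ (m.totient : ℝ)⁻¹ * (∑ f ∈ m.divisors,
      if f ≤ 1 then 0 else ∑ χ ∈ prim f, ‖sm (fun n => χ n) u‖) +
      2 * ∑ n ∈ range (Mx u) with ¬n.Coprime m, Λ n * W u n := by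
  classical
  have : NeZero m := ⟨by omega⟩
  have hφ : (1 : ℝ) ≤ m.totient := by exact_mod_cast Nat.totient_pos.2 hm
  set b := ∑ n ∈ range (Mx u) with ¬n.Coprime m, Λ n * W u n with hb
  have b0 : 0 ≤ b := sum_nonneg fun n _ => LW_nonneg u n
  have hu := (ZMod.isUnit_iff_coprime a m).2 ha
  have e1 : ∑ χ : DirichletCharacter ℂ m, χ (a : ZMod m)⁻¹ * sm (fun n => χ n) u =
      (m.totient * ap u m a : ℝ) := by
    simp only [sm, mul_sum, ← mul_assoc]
    rw [sum_comm, ap, sum_filter, mul_sum, ofReal_sum]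
    refine sum_congr rfl fun n _ => ?_
    rw [← sum_mul, DirichletCharacter.sum_char_inv_mul_char_eq ℂ hu]
    simp only [ZMod.natCast_eq_natCast_iff]
    by_cases h : n ≡ a [MOD m]
    · rw [if_pos h, if_pos h.symm]; push_cast; ring
    · rw [if_neg h, if_neg fun h' => h h'.symm]; simp
  have e2 : (fun n : ℕ => (1 : DirichletCharacter ℂ m) n) = fun n => if n.Coprime m then 1 else 0 := by
    funext n
    split_ifs with h
    · exact MulChar.one_apply ((ZMod.isUnit_iff_coprime n m).2 h)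
    · exact g2_zero _ h
  have e3 := sm_cop (g := fun _ => 1) (fun _ => by simp) u m
  rw [← e2, show sm (fun _ => 1) u = M0 u by simp [sm, M0]] at e3
  have e4 := sum_by_conductor hm fun g =>
    (if g = fun n => if n.Coprime m then 1 else 0 then 0 else ‖sm g u‖) - b
  rw [sum_sub_distrib, sum_const, card_univ, ← Nat.card_eq_fintype_card,
    DirichletCharacter.card_eq_totient_of_hasEnoughRootsOfUnity, nsmul_eq_mul,
    ← add_sum_erase _ _ (mem_univ 1), if_pos e2, zero_add] at e4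
  have e5 : ∑ χ ∈ univ.erase (1 : DirichletCharacter ℂ m), ‖sm (fun n => χ n) u‖ - m.totient * b ≤
      ∑ f ∈ m.divisors, if f ≤ 1 then 0 else ∑ χ ∈ prim f, ‖sm (fun n => χ n) u‖ := by
    refine le_trans (le_of_eq ?_) (e4.trans_le (sum_le_sum fun f hf => ?_))
    · refine congrArg (· - _) (sum_congr rfl fun χ hχ => (if_neg fun h => ?_).symm)
      refine (mem_erase.1 hχ).1 (MulChar.ext' fun x => ?_)
      simpa using congrFun (h.trans e2.symm) x.val
    · split_ifs with h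
      · obtain rfl : f = 1 := by have := Nat.pos_of_mem_divisors hf; omega
        refine sum_nonpos fun ψ _ => ?_
        rw [if_pos (by rw [ψ.level_one]; simp [MulChar.one_apply (isUnit_of_subsingleton _)])]
        linarith
      · refine sum_le_sum fun ψ _ => ?_
        have := sm_cop (g := fun n => ψ n) (fun n => ψ.norm_le_one _) u m
        have := norm_sub_norm_le (sm (fun n => if n.Coprime m then ψ n else 0) u)
          (sm (fun n => ψ n) u)
        have := norm_nonneg (sm (fun n => ψ n) u)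
        split_ifs <;> linarith
  have e6 : |m.totient * ap u m a - M0 u| ≤
      b + ∑ χ ∈ univ.erase (1 : DirichletCharacter ℂ m), ‖sm (fun n => χ n) u‖ := by
    rw [← Real.norm_eq_abs, ← norm_real, ofReal_sub, ← e1, ← add_sum_erase _ _ (mem_univ 1),
      MulChar.one_apply (IsUnit.of_mul_eq_one _ (ZMod.inv_mul_of_unit _ hu)), one_mul, add_sub_right_comm]
    refine (norm_add_le _ _).trans (add_le_add e3 (norm_sum_le_of_le _ fun χ _ => ?_))
    rw [norm_mul]
    exact mul_le_of_le_one_left (norm_nonneg _) (χ.norm_le_one _)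
  have p0 : (0 : ℝ) < m.totient := by linarith
  rw [show ap u m a - M0 u / m.totient = (m.totient * ap u m a - M0 u) / m.totient by field_simp,
    abs_div, abs_of_pos p0, div_le_iff₀' p0, mul_add, mul_inv_cancel_left₀ p0.ne']
  nlinarith

theorem bad_le : ∃ C : ℝ, 0 ≤ C ∧ ∀ (u : ℝ) (m : ℕ), 1 ≤ m →
    ∑ n ∈ range (Mx u) with ¬n.Coprime m, Λ n * W u n ≤
      Real.exp (-((u - 1) / 2)) * (C + Real.log m) := by
  obtain ⟨C, hC, h⟩ := bad_small one_pos
  refine ⟨C, hC, fun u m hm => le_trans ?_ (mul_le_mul_of_nonneg_left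
    ((h m (Mx u) hm).trans_eq (by rw [one_mul])) (Real.exp_pos _).le)⟩
  rw [mul_sum]
  refine sum_le_sum fun n _ => ?_
  have := vonMangoldt_nonneg (n := n)
  rcases le_or_gt (n : ℝ) (Real.exp (u - 1)) with h1 | h1
  · rw [W_small h1, mul_zero]
    positivity
  have h2 : (0 : ℝ) < n := (Real.exp_pos _).trans h1
  have h3 : Real.exp ((u - 1) / 2) ≤ √(n : ℝ) := by
    rw [Real.exp_half]
    exact Real.sqrt_le_sqrt h1.le
  rw [mul_div_left_comm, W, Real.exp_neg, inv_eq_one_div, div_div]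
  gcongr
  · exact bp.le_one
  · exact (mul_le_mul_of_nonneg_right h3 (Real.sqrt_nonneg _)).trans_eq (Real.mul_self_sqrt h2.le)

theorem phi_ge (m : ℕ) : m * Real.exp (-(2 * ∑ p ∈ m.primeFactors, 1 / (p : ℝ))) ≤ m.totient := by
  have h := congrArg (Rat.cast : ℚ → ℝ) (Nat.totient_eq_mul_prod_factors m)
  push_cast at h
  rw [h]
  simp only [one_div]
  gcongr
  refine MP_9d27bc_nt.C.FL.prod_ge (x := fun p => (p : ℝ)⁻¹) fun p hp => ⟨by positivity, ?_⟩
  rw [one_div]
  exact inv_anti₀ two_pos (by exact_mod_cast (Nat.prime_of_mem_primeFactors hp).two_le)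

theorem phi_inv : ∃ G : ℝ, 0 ≤ G ∧ ∀ m : ℕ, 1 ≤ m →
    (m.totient : ℝ)⁻¹ ≤ G * (1 + Real.log m) ^ 2 / m := by
  obtain ⟨C, -, h⟩ := sum_pf
  refine ⟨Real.exp (2 * C), (Real.exp_pos _).le, fun m hm => ?_⟩
  have h0 := Real.log_natCast_nonneg m
  refine (inv_anti₀ (by positivity) (phi_ge m)).trans ?_
  rw [mul_inv, ← Real.exp_neg, neg_neg, mul_comm, div_eq_mul_inv,
    ← Real.exp_log (show 0 < (1 + Real.log m) ^ 2 by positivity), ← Real.exp_add, Real.log_pow]
  gcongr
  push_cast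
  linarith [h m]

theorem exp_neg_le {c : ℝ} (hc : 0 < c) (n : ℕ) :
    ∃ K : ℝ, 0 ≤ K ∧ ∀ u : ℝ, 0 < u → Real.exp (-(c * u)) ≤ K / u ^ n := by
  refine ⟨n.factorial / c ^ n, by positivity, fun u hu => ?_⟩
  rw [Real.exp_neg, div_div, ← mul_pow, ← inv_div]
  exact inv_anti₀ (by positivity) (Real.pow_div_factorial_le_exp _ (by positivity) n)

theorem bv0 (B : ℕ) : ∃ C : ℝ, 0 ≤ C ∧ ∀ u : ℝ, 3 ≤ u → ∀ D : ℕ, (D : ℝ) ≤ Real.exp (u / 10) →
    ∑ f ∈ Ioc 1 D, (f : ℝ)⁻¹ * ∑ χ ∈ prim f, ‖sm (fun n => χ n) u‖ ≤ C / u ^ B := by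
  obtain ⟨C1, hC1, h1⟩ := sw one_pos (2 * (B + 5) + B)
  obtain ⟨C2, hC2, h2⟩ := vaughan
  obtain ⟨K, hK, h3⟩ := exp_neg_le (show (0 : ℝ) < 2 / 5 by norm_num) (B + 3)
  refine ⟨4 * C1 + 32 * C2 + 8 * C2 * K, by positivity, fun u hu D hD => ?_⟩
  have u0 : 0 < u := by linarith
  obtain ⟨F, hF1, hF2⟩ : ∃ F : ℕ, u ^ (B + 5) ≤ F ∧ F ≤ 2 * u ^ (B + 5) :=
    ⟨_, Nat.le_ceil _, by
      have := one_le_pow₀ (n := B + 5) (show 1 ≤ u by linarith)
      linarith [Nat.ceil_lt_add_one (pow_pos u0 (B + 5)).le]⟩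
  have hF0 : (0 : ℝ) < F := (pow_pos u0 _).trans_le hF1
  have hF : 1 ≤ F := by exact_mod_cast hF0
  have a1 : ∑ f ∈ Ioc 1 F, (f : ℝ)⁻¹ * ∑ χ ∈ prim f, ‖sm (fun n => χ n) u‖ ≤ 4 * C1 / u ^ B := by
    refine (sum_le_card_nsmul _ _ (C1 * F / u ^ (2 * (B + 5) + B)) fun f hf => ?_).trans ?_
    · obtain ⟨f1, f2⟩ := mem_Ioc.1 hf
      have : NeZero f := ⟨by omega⟩
      rw [inv_mul_le_iff₀ (by positivity)]
      refine (sum_le_card_nsmul _ _ (C1 * F / u ^ (2 * (B + 5) + B)) fun χ hχ =>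
        (h1 f χ (g2_prim.1 hχ) (prim_ne f1 hχ) u u0).trans ?_).trans ?_
      · rw [Real.rpow_one]
        gcongr
      · rw [nsmul_eq_mul]
        exact mul_le_mul_of_nonneg_right (card_prim (by omega)) (by positivity)
    · have : (#(Ioc 1 F) : ℝ) ≤ 2 * u ^ (B + 5) := le_trans (by simp) hF2
      rw [nsmul_eq_mul]
      calc _ ≤ 2 * u ^ (B + 5) * (C1 * (2 * u ^ (B + 5)) / u ^ (2 * (B + 5) + B)) := by gcongr
        _ = _ := by field_simp; ring
  have a2 := h2 u D F u0.le hF ((pow_le_pow_left₀ (by positivity) hD 2).trans (by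
    rw [← Real.exp_nat_mul, Real.exp_le_exp]; push_cast; linarith))
  have a3 : C2 * (u + 3) ^ 5 / F ≤ 32 * C2 / u ^ B :=
    calc _ ≤ C2 * (2 * u) ^ 5 / u ^ (B + 5) := by gcongr; linarith
      _ = _ := by field_simp; ring
  have a4 : C2 * D ^ 6 * (u + 3) ^ 3 * Real.exp (-u) ≤ 8 * C2 * K / u ^ B :=
    calc _ ≤ C2 * Real.exp (u / 10) ^ 6 * (2 * u) ^ 3 * Real.exp (-u) := by gcongr; linarith
      _ = 8 * C2 * u ^ 3 * Real.exp (-(2 / 5 * u)) := by
          rw [← Real.exp_nat_mul, show -(2 / 5 * u) = (6 : ℕ) * (u / 10) + -u by push_cast; ring,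
            Real.exp_add]
          ring
      _ ≤ 8 * C2 * u ^ 3 * (K / u ^ (B + 3)) := by gcongr; exact h3 u u0
      _ = _ := by field_simp; ring
  refine (sum_le_sum_of_subset_of_nonneg (t := Ioc 1 F ∪ Ioc F D) (fun f hf => by
    simp only [mem_union, mem_Ioc] at hf ⊢; omega) fun f _ _ => by positivity).trans ?_
  rw [sum_union (disjoint_left.2 fun f h h' => by simp only [mem_Ioc] at h h'; omega), add_div,
    add_div]
  linarith

theorem bv (B : ℕ) : ∃ C : ℝ, 0 ≤ C ∧ ∀ u : ℝ, 3 ≤ u → ∃ E : ℕ → ℝ, (∀ m, 0 ≤ E m) ∧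
    (∀ m a : ℕ, 1 ≤ m → a.Coprime m → |ap u m a - M0 u / m.totient| ≤ E m) ∧
    ∀ D : ℕ, (D : ℝ) ≤ Real.exp (u / 10) → ∑ m ∈ Icc 1 D, E m ≤ C / u ^ B := by
  obtain ⟨C1, hC1, h1⟩ := bv0 (B + 3)
  obtain ⟨C2, hC2, h2⟩ := bad_le
  obtain ⟨G, hG, h3⟩ := phi_inv
  obtain ⟨K, hK, h4⟩ := exp_neg_le (show (0 : ℝ) < 2 / 5 by norm_num) (B + 1)
  refine ⟨8 * G * C1 + 2 * Real.exp (1 / 2) * (C2 + 1) * K, by positivity, fun u hu =>
    ⟨_, fun m => ?_, fun m a => orth u, fun D hD => ?_⟩⟩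
  · have := sum_nonneg (s := (range (Mx u)).filter fun n => ¬n.Coprime m) fun n _ => LW_nonneg u n
    positivity
  have u0 : 0 < u := by linarith
  have hl : ∀ m : ℕ, m ≤ D + 1 → Real.log m ≤ u := fun m hm => by
    rcases Nat.eq_zero_or_pos m with rfl | h0
    · simpa using u0.le
    have a : (m : ℝ) ≤ D + 1 := by exact_mod_cast hm
    rw [Real.log_le_iff_le_exp (by positivity), show u = u / 10 + 9 / 10 * u by ring, Real.exp_add]
    nlinarith [Real.add_one_le_exp (u / 10), Real.add_one_le_exp (9 / 10 * u)]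
  set g : ℕ → ℝ := fun f => if f ≤ 1 then 0 else ∑ χ ∈ prim f, ‖sm (fun n => χ n) u‖ with hg
  have g0 : ∀ f, 0 ≤ g f := fun f => by simp only [hg]; positivity
  have a1 : ∑ m ∈ Icc 1 D, (m.totient : ℝ)⁻¹ * ∑ f ∈ m.divisors, g f ≤ 8 * G * C1 / u ^ B :=
    calc _ ≤ ∑ m ∈ Icc 1 D, G * (2 * u) ^ 2 *
          ∑ p ∈ m.divisorsAntidiagonal, (p.1 : ℝ)⁻¹ * g p.1 * (p.2 : ℝ)⁻¹ := by
          refine sum_le_sum fun m hm => ?_
          obtain ⟨m1, m2⟩ := mem_Icc.1 hm
          have := hl m (by omega)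
          have := Real.log_natCast_nonneg m
          rw [sum_congr rfl (g := fun p : ℕ × ℕ => (m : ℝ)⁻¹ * g p.1) fun p hp => by
            rw [← (Nat.mem_divisorsAntidiagonal.1 hp).1, Nat.cast_mul, mul_inv]; ring,
            ← mul_sum, Nat.sum_divisorsAntidiagonal fun a _ => g a, ← mul_assoc, ← div_eq_mul_inv]
          refine mul_le_mul_of_nonneg_right ((h3 m m1).trans ?_) (sum_nonneg fun f _ => g0 f)
          gcongr
          linarith
      _ ≤ G * (2 * u) ^ 2 * ((C1 / u ^ (B + 3)) * (2 * u)) := by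
          rw [← mul_sum]
          gcongr
          refine (sum_le_sum_of_subset_of_nonneg (t := range (D + 1)) (fun m hm => mem_range.2
            (Nat.lt_succ_of_le (mem_Icc.1 hm).2)) fun _ _ _ => sum_nonneg fun p _ => by
              have := g0 p.1; positivity).trans ((conv_le (fun p => by
                have := g0 p.1; positivity) _).trans ?_)
          dsimp only
          rw [← sum_mul_sum]
          refine mul_le_mul (le_trans (le_of_eq ?_) (h1 u hu D hD)) ((sum_inv_le _).trans (by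
            linarith [hl _ le_rfl])) (sum_nonneg fun _ _ => by positivity) (by positivity)
          rw [← sum_subset (s₁ := Ioc 1 D) (fun m hm => mem_range.2
            (Nat.lt_succ_of_le (mem_Ioc.1 hm).2)) fun m hm h => by
              rw [mem_range] at hm; rw [mem_Ioc] at h
              simp only [hg]; rw [if_pos (by omega), mul_zero]]
          exact sum_congr rfl fun m hm => by
            simp only [hg]; rw [if_neg (by have := (mem_Ioc.1 hm).1; omega)]
      _ = _ := by field_simp; ring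
  have a2 : ∑ m ∈ Icc 1 D, 2 * ∑ n ∈ range (Mx u) with ¬n.Coprime m, Λ n * W u n ≤
      2 * Real.exp (1 / 2) * (C2 + 1) * K / u ^ B :=
    calc _ ≤ _ := sum_le_card_nsmul _ _ (2 * (Real.exp (-((u - 1) / 2)) * ((C2 + 1) * u)))
          fun m hm => by
            refine mul_le_mul_of_nonneg_left ((h2 u m (mem_Icc.1 hm).1).trans ?_) two_pos.le
            have := hl m (by have := (mem_Icc.1 hm).2; omega)
            gcongr
            nlinarith
      _ ≤ Real.exp (u / 10) * (2 * (Real.exp (-((u - 1) / 2)) * ((C2 + 1) * u))) := by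
          rw [nsmul_eq_mul]
          gcongr
          simpa using hD
      _ = 2 * Real.exp (1 / 2) * (C2 + 1) * u * Real.exp (-(2 / 5 * u)) := by
          have : Real.exp (u / 10) * Real.exp (-((u - 1) / 2)) =
              Real.exp (1 / 2) * Real.exp (-(2 / 5 * u)) := by
            rw [← Real.exp_add, ← Real.exp_add]; congr 1; ring
          linear_combination 2 * (C2 + 1) * u * this
      _ ≤ 2 * Real.exp (1 / 2) * (C2 + 1) * u * (K / u ^ (B + 1)) := by gcongr; exact h4 u u0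
      _ = _ := by field_simp; ring
  rw [sum_add_distrib, add_div]
  exact add_le_add a1 a2

end Pool.Agent.Lib.MP_f64879_nt
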