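import Pool.Agent.Lib.MP_f64879_nt.US

/-! Primes in a progression that avoid a bounded number of classes modulo every small prime. -/

namespace Pool.Agent.Lib.MP_f64879_nt

open Finset Filter ArithmeticFunction Pool.Agent.Lib.MP_30b5ba_nt.P Pool.Agent.Shared.BrunSieve
open scoped Classical

theorem W_le (u : ℝ) (n : ℕ) : W u n ≤ 3 * Real.exp (-u) := by
  rcases le_or_gt (n : ℝ) (Real.exp (u - 1)) with a | a
  · rw [W_small a]; positivity
  · refine (div_le_div₀ zero_le_one bp.le_one (Real.exp_pos _) a.le).trans ?_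
    rw [one_div, ← Real.exp_neg, neg_sub, sub_eq_add_neg, Real.exp_add]
    exact mul_le_mul_of_nonneg_right Real.exp_one_lt_three.le (Real.exp_pos _).le

theorem ap_le {u : ℝ} (hu : 2 ≤ u) {m : ℕ} (h1 : 1 ≤ m) (h2 : m ≤ Real.exp u) (b : ℕ) :
    ap u m b ≤ 36 * u / m := by
  have m0 : (0 : ℝ) < m := by exact_mod_cast h1
  have a1 : #{n ∈ range (Mx u) | n ≡ b [MOD m]} ≤ Mx u / m + 1 := by
    rw [← card_range (Mx u / m + 1)]
    refine card_le_card_of_injOn (fun n => n / m) (fun n hn => mem_coe.2 (mem_range.2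
      (Nat.lt_succ_of_le (Nat.div_le_div_right (mem_range.1 (mem_filter.1 hn).1).le))))
      fun n hn n' hn' e => ?_
    rw [← Nat.mod_add_div n m, ← Nat.mod_add_div n' m, (mem_filter.1 hn).2, (mem_filter.1 hn').2]
    exact congrArg (b % m + m * ·) e
  have a2 : (#{n ∈ range (Mx u) | n ≡ b [MOD m]} : ℝ) ≤ 5 * Real.exp u / m := by
    refine (Nat.cast_le.2 a1).trans ?_
    rw [Nat.cast_add_one, le_div_iff₀ m0, add_mul, one_mul]
    have b1 : ((Mx u / m : ℕ) : ℝ) * m ≤ Mx u := by exact_mod_cast Nat.div_mul_le_self _ _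
    have b2 : (Mx u : ℝ) ≤ Real.exp u * Real.exp 1 + 1 := by
      rw [Mx, ← Real.exp_add]; push_cast; linarith [Nat.floor_le (Real.exp_pos (u + 1)).le]
    nlinarith [Real.exp_one_lt_three, Real.add_one_le_exp u]
  refine (sum_le_card_nsmul _ _ (2 * u * (3 * Real.exp (-u))) fun n hn => ?_).trans ?_
  · rcases eq_or_ne n 0 with rfl | h0
    · simpa using by positivity
    exact mul_le_mul (vonMangoldt_le_log.trans ((Real.log_le_log (by positivity) (Nat.cast_le.2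
      (mem_range.1 (mem_filter.1 hn).1).le)).trans (by linarith [log_Mx (show 0 ≤ u by linarith)])))
      (W_le u n) (W_nonneg u n) (by linarith)
  · rw [nsmul_eq_mul]
    refine (mul_le_mul_of_nonneg_right a2 (by positivity)).trans ?_
    rw [Real.exp_neg, show 5 * Real.exp u / m * (2 * u * (3 * (Real.exp u)⁻¹)) = 30 * u / m by
      field_simp; norm_num]
    gcongr
    norm_num

theorem cls {q a : ℕ} (hq : 1 ≤ q) (ha : a.Coprime q) (R : (l : ℕ) → Finset (ZMod l)) {T : Finset ℕ}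
    (hT : ∀ l ∈ T, l.Prime ∧ ¬l ∣ q ∧ 0 ∉ R l) (u : ℝ) {δ : ℝ}
    (h : ∀ b : ℕ, b.Coprime (q * ∏ l ∈ T, l) →
      |ap u (q * ∏ l ∈ T, l) b - M0 u / (q * ∏ l ∈ T, l).totient| ≤ δ) :
    |∑ n ∈ range (Mx u) with n ≡ a [MOD q] ∧ ∀ l ∈ T, ((n : ℕ) : ZMod l) ∈ R l, Λ n * W u n -
      M0 u / q.totient * ∏ l ∈ T, #(R l) / ((l : ℝ) - 1)| ≤ (∏ l ∈ T, (#(R l) : ℝ)) * δ := by
  have hc : q.Coprime (∏ l ∈ T, l) :=
    Nat.Coprime.prod_right fun l hl => ((hT l hl).1.coprime_iff_not_dvd.2 (hT l hl).2.1).symm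
  have d0 : 0 < ∏ l ∈ T, l := prod_pos fun l hl => (hT l hl).1.pos
  have a1 : #{b ∈ range (q * ∏ l ∈ T, l) | b ≡ a [MOD q] ∧ ∀ l ∈ T, ((b : ℕ) : ZMod l) ∈ R l} =
      ∏ l ∈ T, #(R l) := by
    have : NeZero q := ⟨by omega⟩
    rw [count_mul_coprime hq d0 hc _ _ (fun n => by simp) (periodic_forall T _ fun l _ =>
      per_res l (R l)), count_prod T (fun l hl => (hT l hl).1) _ fun l _ => per_res l (R l),
      prod_congr rfl fun l hl => card_res (hT l hl).1.pos _]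
    have := card_res hq {(a : ZMod q)}
    simp only [mem_singleton, ZMod.natCast_eq_natCast_iff, card_singleton] at this
    rw [this, one_mul]
  have a2 : ∀ n b : ℕ, n ≡ b [MOD q * ∏ l ∈ T, l] → ((n ≡ a [MOD q] ∧ ∀ l ∈ T,
      ((n : ℕ) : ZMod l) ∈ R l) ↔ b ≡ a [MOD q] ∧ ∀ l ∈ T, ((b : ℕ) : ZMod l) ∈ R l) := by
    intro n b e
    refine and_congr ⟨(e.of_mul_right _).symm.trans, (e.of_mul_right _).trans⟩
      (forall₂_congr fun l hl => ?_)
    rw [(ZMod.natCast_eq_natCast_iff _ _ _).2 ((e.of_mul_left _).of_dvd (dvd_prod_of_mem _ hl))]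
  rw [← sum_fiberwise_of_maps_to (g := fun n => n % (q * ∏ l ∈ T, l)) (t := {b ∈ range
    (q * ∏ l ∈ T, l) | b ≡ a [MOD q] ∧ ∀ l ∈ T, ((b : ℕ) : ZMod l) ∈ R l}) fun n hn =>
      mem_filter.2 ⟨mem_range.2 (Nat.mod_lt _ (Nat.mul_pos hq d0)),
        (a2 _ _ (Nat.mod_modEq _ _)).2 (mem_filter.1 hn).2⟩, prod_div_distrib, div_mul_div_comm,
    ← tot_prod T fun l hl => (hT l hl).1, ← Nat.cast_mul, ← Nat.totient_mul hc, ← Nat.cast_prod,
    ← a1, mul_comm (M0 u), mul_div_assoc, ← nsmul_eq_mul, ← nsmul_eq_mul, ← sum_const,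
    ← sum_sub_distrib]
  refine (abs_sum_le_sum_abs _ _).trans (sum_le_card_nsmul _ _ _ fun b hb => ?_)
  obtain ⟨b1, b2⟩ := mem_filter.1 hb
  refine le_trans (le_of_eq (congrArg (|· - _|) (sum_congr ?_ fun _ _ => rfl))) (h b ?_)
  · ext n
    simp only [mem_filter, and_assoc]
    refine and_congr_right fun _ => ⟨fun c => c.2.2 ▸ (Nat.mod_modEq _ _).symm, fun c => ?_⟩
    exact ⟨((a2 _ _ c).2 b2).1, ((a2 _ _ c).2 b2).2, Eq.trans c (Nat.mod_eq_of_lt (mem_range.1 b1))⟩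
  · refine Nat.Coprime.mul_right (b2.1.gcd_eq.trans ha) (Nat.Coprime.prod_right fun l hl =>
      ((hT l hl).1.coprime_iff_not_dvd.2 fun c => (hT l hl).2.2 ?_).symm)
    exact (ZMod.natCast_eq_zero_iff _ _).2 c ▸ b2.2 l hl

theorem np_small {u : ℝ} (u1 : 2 ≤ u) : ∑ n ∈ range (Mx u) with ¬n.Prime, Λ n * W u n ≤
    36 * (u * Real.exp (-(1 / 2 * u))) := by
  have hl := log_Mx (show 0 ≤ u by linarith)
  have e3 := Real.exp_one_lt_three
  have M1 : (1 : ℝ) ≤ Mx u := by exact_mod_cast Nat.le_add_left 1 _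
  calc _ ≤ (∑ n ∈ Ioc 0 ⌊(Mx u : ℝ)⌋₊ with ¬n.Prime, Λ n) * (3 * Real.exp (-u)) := by
        rw [sum_mul]
        refine (sum_le_sum fun n _ => mul_le_mul_of_nonneg_left (W_le u n) vonMangoldt_nonneg).trans
          (sum_le_ne (fun n => mul_nonneg vonMangoldt_nonneg (by positivity)) fun n hn h0 => ?_)
        have : n ≠ 0 := by rintro rfl; simp at h0
        rw [mem_filter, mem_range] at hn
        rw [Nat.floor_natCast, mem_filter, mem_Ioc]
        exact ⟨by omega, hn.2⟩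
    _ ≤ 2 * (3 * Real.exp (u / 2)) * (2 * u) * (3 * Real.exp (-u)) := by
        rw [← Chebyshev.psi_sub_theta_eq_sum_not_prime]
        refine mul_le_mul_of_nonneg_right ((Chebyshev.psi_sub_theta_le M1).trans ?_) (by positivity)
        have := Real.log_nonneg M1
        gcongr
        · rw [Real.log_le_iff_le_exp (by linarith)] at hl
          refine (Real.sqrt_le_sqrt hl).trans ?_
          rw [← Real.exp_half, show (u + 2) / 2 = 1 + u / 2 by ring, Real.exp_add]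
          gcongr
        · linarith
    _ = _ := by
        rw [show -(1 / 2 * u) = u / 2 + -u by ring, Real.exp_add]
        ring

theorem gen (k : ℕ) : ∃ θ : ℝ, 0 < θ ∧ ∀ q a : ℕ, 1 ≤ q → a.Coprime q → ∀ᶠ u : ℝ in atTop,
    ∀ R : (l : ℕ) → Finset (ZMod l),
      (∀ l : ℕ, l.Prime → ¬l ∣ q → #(R l) ≤ k ∧ 2 * #(R l) < l ∧ 0 ∉ R l) →
      ∃ p : ℕ, p.Prime ∧ Real.exp (u - 1) < p ∧ p ≤ Real.exp (u + 1) ∧ p ≡ a [MOD q] ∧
        ∀ l : ℕ, l.Prime → l ≤ Real.exp (θ * u) → ¬l ∣ q → (p : ZMod l) ∉ R l := by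
  obtain ⟨j, hj, hfl⟩ := fl2 (κ := 2 * k + 1) (δ := 1 / 2) (by positivity) (by norm_num)
  obtain ⟨C0, hC0, hM⟩ := Mertens.real_bound
  have j1 : (1 : ℝ) ≤ j := by exact_mod_cast hj
  refine ⟨1 / (20 * j), by positivity, fun q a q1 ha => ?_⟩
  obtain ⟨C, hC, hbv⟩ := bv (2 * k ^ 2 + 4 * k + 3 + (4 * k + 2))
  have q0 : (0 : ℝ) < q := by exact_mod_cast q1
  obtain ⟨c, hc⟩ : ∃ c : ℝ, c = 1 / 30 / q * Real.exp (-(4 * k * C0)) := ⟨_, rfl⟩
  have c0 : 0 < c := by rw [hc]; positivity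
  filter_upwards [M0_ge, eventually_ge_atTop (20 * j : ℝ), eventually_ge_atTop (20 * q : ℝ),
    eventually_ge_atTop (8 * (C + 72 * Real.exp (2 * k ^ 2 * C0)) / c),
    ev_small (c := 1 / 2) (ε := c / 288) (by norm_num) (by positivity) (4 * k + 1)]
    with u hM0 u1 u2 u3 u4 R hR
  have u0 : 0 < u := by linarith
  obtain ⟨E, E0, E1, E2⟩ := hbv u (by linarith)
  obtain ⟨z, hz⟩ : ∃ z, z = Real.exp (1 / (20 * j) * u) := ⟨_, rfl⟩
  have z1 : Real.log z = u / (20 * j) := by rw [hz, Real.log_exp]; ring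
  have z2 : 1 ≤ u / (20 * j) := (one_le_div (by positivity)).2 u1
  have z3 : u / (20 * j) ≤ u / 20 := by gcongr; linarith
  have z4 : 2 ≤ z := by
    rw [hz, one_div_mul_eq_div]; linarith [Real.add_one_le_exp (u / (20 * j))]
  have z5 : (q * ⌊z ^ j⌋₊ : ℕ) ≤ Real.exp (u / 10) := by
    rw [Nat.cast_mul, show u / 10 = u / 20 + u / 20 by ring, Real.exp_add]
    refine mul_le_mul (by linarith [Real.add_one_le_exp (u / 20)]) ((Nat.floor_le
      (by positivity)).trans_eq ?_) (Nat.cast_nonneg _) (Real.exp_pos _).le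
    rw [hz, ← Real.exp_nat_mul]; congr 1; field_simp
  have hφ : (1 : ℝ) ≤ q.totient := by exact_mod_cast Nat.totient_pos.2 q1
  have hφ' : (q.totient : ℝ) ≤ q := by exact_mod_cast q.totient_le
  rw [← hz]
  set P := (pr 0 z).filter fun l => ¬l ∣ q with hP
  have hP1 : ∀ l ∈ P, l.Prime ∧ ¬l ∣ q := fun l hl =>
    ⟨(mem_pr.1 (mem_filter.1 hl).1).1, (mem_filter.1 hl).2⟩
  have hP2 : ∀ l ∈ P, (2 : ℝ) ≤ l ∧ (#(R l) : ℝ) ≤ k ∧ (2 * #(R l) + 1 : ℝ) ≤ l := fun l hl => by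
    exact_mod_cast And.intro (hP1 l hl).1.two_le (And.intro (hR l (hP1 l hl).1 (hP1 l hl).2).1
      (Nat.succ_le_of_lt (hR l (hP1 l hl).1 (hP1 l hl).2).2.1))
  have hP3 : ∀ l ∈ P, 0 ≤ #(R l) / ((l : ℝ) - 1) ∧ #(R l) / ((l : ℝ) - 1) ≤ 2 * k * (1 / l) ∧
      #(R l) / ((l : ℝ) - 1) ≤ 1 / 2 := fun l hl => by
    obtain ⟨b1, b2, b3⟩ := hP2 l hl
    have b4 : 0 < (l : ℝ) - 1 := by linarith
    rw [mul_one_div]
    refine ⟨by positivity, ?_, ?_⟩ <;> rw [div_le_div_iff₀ b4 (by linarith)] <;>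
      nlinarith [Nat.cast_nonneg (α := ℝ) k]
  have hS : ∀ n : ℕ, Real.exp (n * ∑ l ∈ P, 1 / (l : ℝ)) ≤ Real.exp (n * C0) * u ^ n := fun n => by
    rw [← Real.exp_log (pow_pos u0 n), Real.log_pow, ← Real.exp_add, ← mul_add]
    gcongr
    linarith [sum_le_sum_of_subset_of_nonneg (f := fun l : ℕ => 1 / (l : ℝ))
      (filter_subset (fun l => ¬l ∣ q) (pr 0 z)) fun _ _ _ => by positivity,
      (abs_le.1 (hM z z4)).2, Real.log_le_log (by linarith) (show Real.log z ≤ u by linarith)]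
  obtain ⟨t, ht⟩ : ∃ t, t = u ^ (2 * k ^ 2 + 4 * k + 3) := ⟨_, rfl⟩
  have t0 : 0 < t := by rw [ht]; positivity
  have h := hfl ℕ ((range (Mx u)).filter fun n => n ≡ a [MOD q]) (fun n => Λ n * W u n) P
    (fun l n => (n : ZMod l) ∈ R l) (fun l => #(R l) / ((l : ℝ) - 1)) (M0 u / q.totient)
    ((C + 72 * Real.exp (2 * k ^ 2 * C0)) / u ^ (4 * k + 2)) z
    (fun T => t * E (q * ∏ l ∈ T, l) + 72 * u / t * ∏ l ∈ T, 2 * k ^ 2 * (1 / (l : ℝ))) z4
    (fun n _ => LW_nonneg u n) (fun l hl => ⟨(hP1 l hl).1, (mem_pr.1 (mem_filter.1 hl).1).2.2,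
      (hP3 l hl).1, (hP3 l hl).2.1.trans (by rw [mul_one_div]; gcongr; linarith), (hP3 l hl).2.2⟩)
    (by positivity) (fun T => by have := E0 (q * ∏ l ∈ T, l); positivity) (by
      rw [sum_add_distrib, ← mul_sum, ← mul_sum, add_div]
      refine add_le_add (le_trans (mul_le_mul_of_nonneg_left (le_trans ?_ (E2 _ z5)) t0.le)
        (le_of_eq (by rw [ht, pow_add u (_ + 3)]; field_simp))) ?_
      · refine (Shared.SelbergUpper.inj_sum (F := fun d => E (q * d)) (B := Icc 1 ⌊z ^ j⌋₊)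
          (fun T hT l hl => (hP1 l (mem_powerset.1 (mem_filter.1 hT).1 hl)).1) (fun T hT =>
            mem_Icc.2 ⟨prod_pos fun l hl => (hP1 l (mem_powerset.1 (mem_filter.1 hT).1 hl)).1.pos,
              Nat.le_floor (by simpa using (mem_filter.1 hT).2)⟩) fun d => E0 _).trans ?_
        rw [← sum_image (g := fun d => q * d) fun a _ b _ h => Nat.eq_of_mul_eq_mul_left q1 h]
        refine sum_le_sum_of_subset_of_nonneg (fun m hm => ?_) fun m _ _ => E0 m
        obtain ⟨d, hd, rfl⟩ := mem_image.1 hm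
        exact mem_Icc.2 ⟨Nat.mul_pos q1 (mem_Icc.1 hd).1, Nat.mul_le_mul_left _ (mem_Icc.1 hd).2⟩
      · refine (mul_le_mul_of_nonneg_left ((sum_le_sum_of_subset_of_nonneg (filter_subset _ _)
          fun _ _ _ => by positivity).trans ((prod_one_add _).symm.trans_le
            ((Real.prod_one_add_le_exp_sum _ fun _ => by positivity).trans ?_)) :
              _ ≤ Real.exp (2 * k ^ 2 * C0) * u ^ (2 * k ^ 2)) (by positivity)).trans_eq ?_
        · rw [← mul_sum]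
          exact_mod_cast hS (2 * k ^ 2)
        · rw [ht]; field_simp; ring)
    fun T hT hT' => by
      have b0 := fun l (hl : l ∈ T) => hP1 l (hT hl)
      have d0 : 0 < ∏ l ∈ T, l := prod_pos fun l hl => (b0 l hl).1.pos
      have b1 := cls q1 ha R (fun l hl => ⟨(b0 l hl).1, (b0 l hl).2,
        (hR l (b0 l hl).1 (b0 l hl).2).2.2⟩) u (δ := min (E (q * ∏ l ∈ T, l))
          (72 * u * ∏ l ∈ T, 2 * (1 / (l : ℝ)))) fun b hb => le_min (E1 _ b (Nat.mul_pos q1 d0) hb) (by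
        have c1 := ap_le (u := u) (by linarith) (Nat.mul_pos q1 d0) (le_trans (Nat.cast_le.2
          (Nat.mul_le_mul_left q (Nat.le_floor (by simpa using hT')))) (z5.trans
            (Real.exp_le_exp.2 (by linarith)))) b
        have c2 := ap_le (u := u) (by linarith) le_rfl (by simpa using u0.le) 0
        have c3 : (((q * ∏ l ∈ T, l).totient : ℝ))⁻¹ ≤ ∏ l ∈ T, 2 * (1 / (l : ℝ)) := by
          rw [Nat.totient_mul (Nat.Coprime.prod_right fun l hl =>
            ((b0 l hl).1.coprime_iff_not_dvd.2 (b0 l hl).2).symm), Nat.cast_mul,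
            tot_prod T fun l hl => (b0 l hl).1, mul_inv, ← prod_inv_distrib]
          refine (mul_le_of_le_one_left (prod_nonneg fun l hl => ?_) (inv_le_one_of_one_le₀ hφ)).trans
            (prod_le_prod (fun l hl => ?_) fun l hl => ?_) <;> have := (hP2 l (hT hl)).1
          · exact inv_nonneg.2 (by linarith)
          · exact inv_nonneg.2 (by linarith)
          · rw [mul_one_div, ← inv_div]
            exact inv_anti₀ (by linarith) (by linarith)
        have c4 := inv_anti₀ (Nat.cast_pos.2 (Nat.totient_pos.2 (Nat.mul_pos q1 d0)))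
          (Nat.cast_le (α := ℝ).2 (q * ∏ l ∈ T, l).totient_le)
        have c5 : 0 ≤ ap u (q * ∏ l ∈ T, l) b := sum_nonneg fun n _ => LW_nonneg u n
        simp only [ap, Nat.modEq_one, filter_true, Nat.cast_one, div_one] at c2
        have c6 := mul_le_mul c2 c3 (by positivity) (by positivity)
        have c7 := mul_le_mul_of_nonneg_left (c4.trans c3) (show 0 ≤ 36 * u by positivity)
        have c8 : 0 ≤ M0 u * (((q * ∏ l ∈ T, l).totient : ℝ))⁻¹ := by positivity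
        rw [div_eq_mul_inv] at c1 ⊢
        rw [← M0] at c6
        exact abs_le.2 ⟨by linarith, by linarith⟩)
      rw [filter_filter]
      refine le_trans (le_of_eq (by congr)) (b1.trans ?_)
      have c1 : ∏ l ∈ T, (#(R l) : ℝ) ≤ ∏ _l ∈ T, (k : ℝ) :=
        prod_le_prod (fun _ _ => Nat.cast_nonneg _) fun l hl => (hP2 l (hT hl)).2.1
      have c2 : ∏ l ∈ T, 2 * k ^ 2 * (1 / (l : ℝ)) =
          (∏ _l ∈ T, (k : ℝ)) ^ 2 * ∏ l ∈ T, 2 * (1 / (l : ℝ)) := by
        rw [← prod_pow, ← prod_mul_distrib]; exact prod_congr rfl fun _ _ => by ring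
      have c3 := E0 (q * ∏ l ∈ T, l)
      have c4 : 0 ≤ ∏ l ∈ T, 2 * (1 / (l : ℝ)) := by positivity
      have c5 : 0 ≤ ∏ l ∈ T, (#(R l) : ℝ) := by positivity
      rw [c2]
      generalize ∏ _l ∈ T, (k : ℝ) = ρ at c1
      refine (mul_le_mul_of_nonneg_right c1 (le_min c3 (by positivity))).trans ?_
      rcases le_total ρ t with c6 | c6
      · exact le_add_of_le_of_nonneg (mul_le_mul c6 (min_le_left _ _) (le_min c3 (by positivity))
          t0.le) (by positivity)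
      · refine le_add_of_nonneg_of_le (by positivity) ((mul_le_mul_of_nonneg_left
          (min_le_right _ _) (by linarith)).trans ?_)
        rw [div_mul_eq_mul_div, le_div_iff₀ t0]
        nlinarith [mul_le_mul_of_nonneg_left c6 (mul_nonneg (mul_nonneg (t0.le.trans c6) u0.le) c4)]
  have a3 : c / u ^ (4 * k) ≤ M0 u / q.totient * ∏ l ∈ P, (1 - #(R l) / ((l : ℝ) - 1)) := by
    rw [hc, mul_div_assoc]
    refine mul_le_mul (by gcongr) (le_trans ?_ (MP_9d27bc_nt.C.FL.prod_ge fun l hl =>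
      ⟨(hP3 l hl).1, (hP3 l hl).2.2⟩)) (by positivity) (by positivity)
    rw [Real.exp_neg, Real.exp_neg, div_eq_mul_inv, ← mul_inv]
    refine inv_anti₀ (Real.exp_pos _) (le_trans (Real.exp_le_exp.2 ?_) (by simpa using hS (4 * k)))
    have := sum_le_sum fun l hl => (hP3 l hl).2.1
    rw [← mul_sum] at this
    simp only [one_div] at this
    linarith
  have a4 : (2 * Real.log z + 1) * ((C + 72 * Real.exp (2 * k ^ 2 * C0)) / u ^ (4 * k + 2)) ≤
      c / u ^ (4 * k) / 8 :=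
    calc _ ≤ u * ((C + 72 * Real.exp (2 * k ^ 2 * C0)) / u ^ (4 * k + 2)) := by gcongr; linarith
      _ = 8 * (C + 72 * Real.exp (2 * k ^ 2 * C0)) / u / u ^ (4 * k) / 8 := by field_simp; ring
      _ ≤ _ := by
        gcongr
        rwa [div_le_comm₀ u0 c0]
  have a5 : 36 * (u * Real.exp (-(1 / 2 * u))) ≤ c / u ^ (4 * k) / 8 := by
    rw [div_right_comm, le_div_iff₀ (by positivity)]
    rw [pow_succ] at u4
    linarith
  have a7 := div_pos c0 (pow_pos u0 (4 * k))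
  have a6 := le_trans (by linarith : c / u ^ (4 * k) / 4 -
    M0 u / q.totient * ∏ l ∈ P, (1 - #(R l) / ((l : ℝ) - 1)) ≤ _) (abs_le.1 h).1
  rw [sub_le_sub_iff_right] at a6
  by_contra hn
  refine absurd (a6.trans ((sum_le_ne (LW_nonneg u) fun n h1 h2 => ?_).trans
    ((np_small (by linarith)).trans a5))) (by linarith)
  simp only [mem_filter, mem_range] at h1 ⊢
  exact ⟨h1.1.1, fun h3 => hn ⟨n, h3, not_le.1 fun a => h2 (by rw [W_small a, mul_zero]),
    (Nat.le_floor_iff (Real.exp_pos _).le).1 (Nat.lt_succ_iff.1 h1.1.1), h1.1.2,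
    fun l l1 l2 l3 => h1.2 l (mem_filter.2 ⟨mem_pr.2 ⟨l1, Nat.cast_pos.2 l1.pos, l2⟩, l3⟩)⟩⟩

end Pool.Agent.Lib.MP_f64879_nt
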