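import Pool.Agent.Lib.MP_f64879_nt.Final
import Pool.Agent.Lib.MP_f64879_nt.Gen

/-! One prime and two almost primes for every large `n`. -/

namespace Pool.Agent.Lib.MP_f64879_nt

open Finset Filter
open scoped Classical

theorem main2 : ∃ K : ℕ, ∀ x : ℕ, 1 ≤ x → ∀ᶠ n : ℕ in atTop, ∃ y z : ℕ, 1 ≤ y ∧ 1 ≤ z ∧
    n = x + y + z ∧ (2 * y + 1).Prime ∧ (2 * x * y * z + 1).primeFactorsList.length ≤ K ∧
      (2 * x * y * z - 1).primeFactorsList.length ≤ K := by
  obtain ⟨θ, hθ, h⟩ := gen 4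
  obtain ⟨u0, hu⟩ := eventually_atTop.1 (h 210 1 (by norm_num) (by norm_num))
  refine ⟨⌊(3 : ℕ) / (min θ 1 / 2)⌋₊, fun x hx => ?_⟩
  filter_upwards [log_nat.eventually_ge_atTop 6, log_nat.eventually_ge_atTop (u0 + 1),
    eventually_ge_atTop (2 * x + 2)] with n h1 h2 h3
  have N0 : (0 : ℝ) < n := by exact_mod_cast (by omega : 0 < n)
  obtain ⟨p, p1, p2, p3, p4, p5⟩ := hu (Real.log n - 1) (by linarith) (fun l =>
    {r ∈ (range l).image Nat.cast | r ≠ 0 ∧ (x : ZMod l) ≠ 0 ∧
      (x * (r - 1) * (2 * (n - x) - r + 1) - 2) * (x * (r - 1) * (2 * (n - x) - r + 1) + 2) = 0})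
    fun l hl l1 => by
      have := Fact.mk hl
      have a1 : 8 < l := by
        by_contra h
        have := hl.two_le
        interval_cases l <;> first | omega | exact absurd hl (by norm_num)
      refine (fun a => ⟨a, by omega, by simp⟩ : _ ≤ 4 → _) ?_
      by_cases a2 : (x : ZMod l) = 0
      · simp [a2]
      refine le_trans (card_le_card fun r hr => ?_) ((card_union_le _ _).trans (add_le_add
        (quad (neg_ne_zero.2 a2) (x * (2 * (n - x) + 2)) (-(x * (2 * (n - x) + 1)) - 2)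
          ((range l).image Nat.cast)
          (fun r => x * (r - 1) * (2 * (n - x) - r + 1) - 2) fun r => by ring)
        (quad (neg_ne_zero.2 a2) (x * (2 * (n - x) + 2)) (-(x * (2 * (n - x) + 1)) + 2)
          ((range l).image Nat.cast)
          (fun r => x * (r - 1) * (2 * (n - x) - r + 1) + 2) fun r => by ring)))
      simp only [mem_filter, mem_union] at hr ⊢
      exact (mul_eq_zero.1 hr.2.2.2).imp (And.intro hr.1) (And.intro hr.1)
  rw [sub_add_cancel, Real.exp_log N0, Nat.cast_le] at p3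
  obtain ⟨y, rfl⟩ : ∃ y, p = 2 * y + 1 := ⟨p / 2, by unfold Nat.ModEq at p4; omega⟩
  have y1 : 1 ≤ y := by have := p1.two_le; omega
  obtain ⟨z, z1, rfl⟩ : ∃ z, 1 ≤ z ∧ n = x + y + z := ⟨n - x - y, by omega, by omega⟩
  have g1 : 1 ≤ x * y * z := Nat.mul_pos (Nat.mul_pos hx y1) z1
  have g2 : 2 * x * y * z + 1 ≤ (x + y + z) ^ 3 := by
    have a1 := Nat.mul_le_mul (Nat.mul_le_mul (show 2 * x + 1 ≤ x + y + z by omega)
      (show y ≤ x + y + z by omega)) (show z ≤ x + y + z by omega)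
    nlinarith [Nat.mul_pos y1 z1]
  have g3 : 2 * x * y * z = 2 * (x * y * z) := by ring
  have key : ∀ l : ℕ, l.Prime → (l : ℝ) ≤ (x + y + z : ℕ) ^ (min θ 1 / 2) →
      ¬l ∣ (2 * x * y * z + 1) * (2 * x * y * z - 1) := fun l l1 l2 l3 => by
    have := Fact.mk l1
    rw [← ZMod.natCast_eq_zero_iff, Nat.cast_mul, Nat.cast_pred (by omega)] at l3
    push_cast at l3
    rw [Real.rpow_def_of_pos N0] at l2
    have a1 := min_le_left θ 1
    have a2 := min_le_right θ 1
    by_cases a3 : l ∣ 210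
    · have a4 : ((2 * y : ℕ) : ZMod l) = 0 := (ZMod.natCast_eq_zero_iff _ _).2 (a3.trans (by
        unfold Nat.ModEq at p4; omega))
      push_cast at a4
      exact one_ne_zero (by linear_combination -l3 + x ^ 2 * 2 * y * z ^ 2 * a4 : (1 : ZMod l) = 0)
    refine p5 l l1 (l2.trans (Real.exp_le_exp.2 (by nlinarith))) a3 (mem_filter.2
      ⟨mem_image.2 ⟨_, mem_range.2 (ZMod.val_lt _), ZMod.natCast_zmod_val _⟩, fun a4 => ?_,
        fun a4 => one_ne_zero (by linear_combination -l3 + 4 * x * y ^ 2 * z ^ 2 * a4 :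
          (1 : ZMod l) = 0), by push_cast; linear_combination 4 * l3⟩)
    rw [(Nat.prime_dvd_prime_iff_eq l1 p1).1 ((ZMod.natCast_eq_zero_iff _ _).1 a4)] at l2
    have := Real.exp_lt_exp.1 (p2.trans_le l2)
    nlinarith
  exact ⟨y, z, y1, z1, rfl, p1,
    omega_le (by positivity) (by omega) (by omega) g2 fun l l1 l2 l3 => key l l1 l2 (l3.mul_right _),
    omega_le (by positivity) (by omega) (by omega) (by omega) fun l l1 l2 l3 =>
      key l l1 l2 (l3.mul_left _)⟩

end Pool.Agent.Lib.MP_f64879_nt
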