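import Pool.Agent.Lib.MP_164d34_nt.Fam.LBound

/-! Estermann's lemma and Dirichlet series with nonnegative coefficients. -/

namespace Pool.Agent.Lib.MP_f64879_nt

open Complex Finset Filter Topology Metric
open scoped ComplexOrder Nat

theorem one_le_re {c : ℕ → ℂ} (hc : 0 ≤ c) (h1 : c 1 = 1) (hs : LSeriesSummable c 2) :
    1 ≤ (LSeries c 2).re := by
  have h := hs.le_tsum 1 fun j _ => LSeries.term_nonneg (x := 2) (hc j)
  rw [LSeries.term_of_ne_zero one_ne_zero, h1] at h
  simpa [LSeries] using (Complex.le_def.1 h).1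

theorem estermann {c : ℕ → ℂ} (hc : 0 ≤ c) (h1 : c 1 = 1)
    (hs : ∀ s : ℂ, 1 < s.re → LSeriesSummable c s) {G : ℂ → ℂ} (hG : Differentiable ℂ G)
    (hGF : ∀ s : ℂ, 1 < s.re → G s = (s - 1) * LSeries c s) {M : ℝ} (hM1 : 1 ≤ M)
    (hM : ∀ s ∈ closedBall (2 : ℂ) (3 / 2), ‖G s‖ ≤ M) {β : ℝ} (h7 : 7 / 8 ≤ β) (hβ : β < 1)
    (hre : 0 ≤ (G β).re) : (1 - β) / 4 * (32 * M) ^ (-(4 * (1 - β))) ≤ (G 1).re := by
  set H := dslope G 1 with hH
  have hHd : Differentiable ℂ H := differentiableOn_univ.1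
    ((Complex.differentiableOn_dslope univ_mem).2 hG.differentiableOn)
  have hHs : ∀ s, s ≠ 1 → H s = (G s - G 1) / (s - 1) := fun s hs => by
    rw [hH, dslope_of_ne _ hs, slope_def_field]
  have habs : LSeries.abscissaOfAbsConv c ≤ 1 :=
    LSeries.abscissaOfAbsConv_le_of_forall_lt_LSeriesSummable fun y hy => hs y (by simpa using hy)
  have ha2 : LSeries.abscissaOfAbsConv c < (2 : ℝ) := habs.trans_lt (by exact_mod_cast one_lt_two)
  have hop : {s : ℂ | 1 < s.re} ∈ 𝓝 (2 : ℂ) :=
    (isOpen_lt continuous_const continuous_re).mem_nhds (by simp)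
  have hev : H =ᶠ[𝓝 2] fun s => LSeries c s - G 1 * (1 * s - 1)⁻¹ := by
    filter_upwards [hop] with s hs
    have h0 : s ≠ 1 := fun h => by simp [h] at hs
    rw [hHs s h0, hGF s hs]
    have := sub_ne_zero.2 h0
    field_simp
  have hder : ∀ n, iteratedDeriv n H 2 = iteratedDeriv n (LSeries c) 2 - G 1 * ((-1) ^ n * n !) := by
    intro n
    have a1 : ContDiffAt ℂ n (LSeries c) 2 :=
      (LSeries_analyticOnNhd c 2 (by simpa using ha2)).contDiffAt
    have a2 : ContDiffAt ℂ n (fun s : ℂ => G 1 * (1 * s - 1)⁻¹) 2 :=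
      contDiffAt_const.mul (ContDiffAt.inv (by fun_prop) (by norm_num))
    rw [hev.iteratedDeriv_eq, iteratedDeriv_fun_sub a1 a2, iteratedDeriv_const_mul_field,
      iteratedDeriv_eq_iterate (f := fun s : ℂ => (1 * s - 1)⁻¹), iter_deriv_inv_linear_sub]
    norm_num
  set r : ℝ := 2 - β with hr
  set a : ℕ → ℂ := fun n => (n ! : ℂ)⁻¹ • ((β : ℂ) - 2) ^ n • iteratedDeriv n H 2 with ha
  have hsum : HasSum a (H β) := Complex.hasSum_taylorSeries_of_entire hHd 2 β
  have hG1 : ‖G 1‖ ≤ M := hM 1 (by rw [mem_closedBall, dist_eq]; norm_num)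
  have hr0 : 0 < r := by linarith
  have hb : ∀ n, ‖a n‖ ≤ 4 * M * (3 / 4) ^ n := fun n => by
    have h2 := Complex.norm_iteratedDeriv_le_of_forall_mem_sphere_norm_le (c := 2) (R := 3 / 2)
      (C := 4 * M) n (by norm_num) hHd.diffContOnCl fun z hz => by
        have h3 : 1 / 2 ≤ ‖z - 1‖ := by
          have h4 := norm_sub_norm_le (z - 2) (-1)
          rw [mem_sphere_iff_norm.1 hz, show z - 2 - -1 = z - 1 by ring] at h4
          norm_num at h4 ⊢
          linarith
        have h0 : z ≠ 1 := fun h => by norm_num [h] at h3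
        rw [hHs z h0, norm_div, div_le_iff₀ (by linarith)]
        have := norm_sub_le (G z) (G 1)
        have := hM z (sphere_subset_closedBall hz)
        nlinarith
    have h3 : ‖(β : ℂ) - 2‖ ≤ 9 / 8 := by
      rw [show (β : ℂ) - 2 = ((β - 2 : ℝ) : ℂ) by push_cast; ring, norm_real, Real.norm_eq_abs,
        abs_le]
      constructor <;> linarith
    have h5 : (0 : ℝ) < n ! := by exact_mod_cast n.factorial_pos
    rw [ha]
    simp only [norm_smul, norm_inv, norm_natCast, norm_pow]
    calc _ ≤ (n ! : ℝ)⁻¹ * ((9 / 8) ^ n * (n ! * (4 * M) / (3 / 2) ^ n)) := by gcongr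
      _ = 4 * M * ((9 / 8) ^ n / (3 / 2) ^ n) := by field_simp
      _ = _ := by rw [← div_pow]; norm_num
  have hre' : ∀ n, (if n = 0 then 1 else 0) - (G 1).re * r ^ n ≤ (a n).re := fun n => by
    have h2 := LSeries.iteratedDeriv_alternating hc ha2 n
    have h5 : (n ! : ℂ) ≠ 0 := by exact_mod_cast n.factorial_ne_zero
    have h3 : a n = ((r ^ n / n ! : ℝ) : ℂ) * ((-1) ^ n * iteratedDeriv n (LSeries c) 2) -
        G 1 * ((r ^ n : ℝ) : ℂ) := by
      have h6 : ((β : ℂ) - 2) ^ n = (-1) ^ n * (r : ℂ) ^ n := by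
        rw [← mul_pow, hr]; push_cast; ring
      have h7 : ((-1 : ℂ) ^ n) * (-1) ^ n = 1 := by rw [← mul_pow]; simp
      simp only [ha, smul_eq_mul, hder, h6]
      push_cast
      field_simp
      linear_combination (-G 1 * n !) * h7
    rw [h3, sub_re, re_ofReal_mul, re_mul_ofReal]
    refine sub_le_sub_right ?_ _
    split_ifs with h
    · subst h
      simpa using one_le_re hc h1 (hs 2 (by simp))
    · have := (Complex.le_def.1 h2).1
      simp only [ofReal_ofNat, zero_re] at this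
      positivity
  set J := ⌈4 * Real.log (32 * M)⌉₊ with hJ
  have hlog : 0 < Real.log (32 * M) := Real.log_pos (by linarith)
  have hJ0 : J ≠ 0 := (Nat.ceil_pos.2 (by linarith)).ne'
  have hJ1 : (3 / 4 : ℝ) ^ J ≤ (32 * M)⁻¹ := by
    calc (3 / 4 : ℝ) ^ J ≤ Real.exp (-(1 / 4)) ^ J :=
          pow_le_pow_left₀ (by norm_num) (by linarith [Real.add_one_le_exp (-(1 / 4))]) _
      _ ≤ Real.exp (-Real.log (32 * M)) := by
          rw [← Real.exp_nat_mul, Real.exp_le_exp]
          linarith [Nat.le_ceil (4 * Real.log (32 * M))]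
      _ = _ := by rw [Real.exp_neg, Real.exp_log (by linarith)]
  have htail : ‖H β - ∑ n ∈ range J, a n‖ ≤ 1 / 2 := by
    have h2 := (hasSum_nat_add_iff' J).2 hsum
    have h3 := (hasSum_geometric_of_lt_one (r := 3 / 4) (by norm_num) (by norm_num)).mul_left
      (4 * M * (3 / 4) ^ J)
    refine (h2.norm_le_of_bounded h3 fun n => (hb _).trans_eq (by ring)).trans ?_
    calc _ = 16 * M * (3 / 4) ^ J := by ring
      _ ≤ 16 * M * (32 * M)⁻¹ := by gcongr
      _ = _ := by field_simp; norm_num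
  have hb0 : 0 < 1 - β := by linarith
  have h2 : 1 - (G 1).re * ((r ^ J - 1) / (1 - β)) ≤ (∑ n ∈ range J, a n).re := by
    rw [re_sum]
    refine le_trans (le_of_eq ?_) (sum_le_sum fun n _ => hre' n)
    rw [sum_sub_distrib, ← mul_sum, geom_sum_eq (by linarith), sum_ite_eq',
      if_pos (mem_range.2 (Nat.pos_of_ne_zero hJ0)), hr]
    ring
  have h3 : (H β).re ≤ (G 1).re / (1 - β) := by
    rw [hHs β (by exact_mod_cast hβ.ne), show (β : ℂ) - 1 = ((β - 1 : ℝ) : ℂ) by push_cast; ring,
      div_ofReal_re, sub_re, ← neg_div_neg_eq, neg_sub, neg_sub]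
    gcongr
    linarith
  have h4 := (abs_le.1 ((abs_re_le_norm _).trans htail)).1
  rw [sub_re] at h4
  have h5 : (1 - β) / 2 ≤ (G 1).re * r ^ J := by
    have : 1 / 2 ≤ (G 1).re * r ^ J / (1 - β) := by
      have e : (G 1).re * r ^ J / (1 - β)
          = (G 1).re / (1 - β) + (G 1).re * ((r ^ J - 1) / (1 - β)) := by ring
      linarith
    rw [le_div_iff₀ hb0] at this
    linarith
  have h6 : r ^ J ≤ 2 * (32 * M) ^ (4 * (1 - β)) := by
    calc r ^ J ≤ Real.exp (1 - β) ^ J :=
          pow_le_pow_left₀ hr0.le (by linarith [Real.add_one_le_exp (1 - β)]) _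
      _ ≤ Real.exp (1 / 8 + Real.log (32 * M) * (4 * (1 - β))) := by
          rw [← Real.exp_nat_mul, Real.exp_le_exp]
          have := (Nat.ceil_lt_add_one (show 0 ≤ 4 * Real.log (32 * M) by linarith)).le
          nlinarith
      _ ≤ _ := by
          rw [Real.exp_add, ← Real.rpow_def_of_pos (by linarith)]
          gcongr
          have := Real.exp_bound_div_one_sub_of_interval' (x := 1 / 8) (by norm_num) (by norm_num)
          linarith
  have h8 : 0 < (32 * M) ^ (4 * (1 - β)) := Real.rpow_pos_of_pos (by linarith) _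
  have h9 : 0 < (G 1).re := (mul_pos_iff_of_pos_right (pow_pos hr0 J)).1 (by linarith)
  rw [Real.rpow_neg (by linarith), ← div_eq_mul_inv, div_le_iff₀ h8]
  nlinarith

open ArithmeticFunction

/-- the complex logarithm as an arithmetic function -/
noncomputable def lg : ArithmeticFunction ℂ := ⟨fun n => Complex.log n, by simp⟩

/-- `P` is the logarithmic derivative of `c` -/
def LogD (c P : ArithmeticFunction ℂ) : Prop := pmul lg c = P * c

theorem pmul_lg (f g : ArithmeticFunction ℂ) : pmul lg (f * g) = pmul lg f * g + f * pmul lg g := by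
  ext n
  simp only [pmul_apply, mul_apply, ArithmeticFunction.add_apply, mul_sum, ← sum_add_distrib]
  refine sum_congr rfl fun x hx => ?_
  obtain ⟨h1, h2⟩ := Nat.mem_divisorsAntidiagonal.1 hx
  have h3 : x.1 ≠ 0 := left_ne_zero_of_mul (h1 ▸ h2)
  have h4 : x.2 ≠ 0 := right_ne_zero_of_mul (h1 ▸ h2)
  have : lg n = lg x.1 + lg x.2 := by
    simp only [lg, coe_mk, ← h1, ← natCast_log]
    rw [Nat.cast_mul, Real.log_mul (by exact_mod_cast h3) (by exact_mod_cast h4), ofReal_add]
  rw [this]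
  ring

theorem LogD.mul {c P c' P' : ArithmeticFunction ℂ} (h : LogD c P) (h' : LogD c' P') :
    LogD (c * c') (P + P') := by
  rw [LogD] at *
  rw [pmul_lg, h, h']
  ring

theorem LogD.nonneg {c P : ArithmeticFunction ℂ} (h : LogD c P) (h1 : c 1 = 1) (hP : ∀ n, 0 ≤ P n)
    (hP1 : P 1 = 0) (n : ℕ) : 0 ≤ c n := by
  induction n using Nat.strong_induction_on with
  | _ n ih =>
    rcases Nat.lt_or_ge n 2 with hn | hn
    · interval_cases n <;> simp [h1]
    have h2 : 0 ≤ lg n * c n := by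
      rw [← pmul_apply, h, mul_apply]
      refine sum_nonneg fun x hx => ?_
      obtain ⟨h3, h4⟩ := Nat.mem_divisorsAntidiagonal.1 hx
      rcases eq_or_ne x.1 1 with e | e
      · simp [e, hP1]
      · have h5 : x.1 ≠ 0 := left_ne_zero_of_mul (h3 ▸ h4)
        have h6 : x.2 ≠ 0 := right_ne_zero_of_mul (h3 ▸ h4)
        refine mul_nonneg (hP _) (ih _ ?_)
        rw [← h3]
        exact lt_mul_left (Nat.pos_of_ne_zero h6) (by omega)
    have h3 : (0 : ℂ) < lg n := by
      simp only [lg, coe_mk, ← natCast_log]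
      exact_mod_cast Real.log_pos (by exact_mod_cast hn)
    have h4 := mul_nonneg (inv_nonneg.2 h3.le) h2
    rwa [inv_mul_cancel_left₀ h3.ne'] at h4

/-- a character as an arithmetic function -/
noncomputable def chA {q : ℕ} (χ : DirichletCharacter ℂ q) : ArithmeticFunction ℂ :=
  toArithmeticFunction fun n => χ n

/-- the twisted von Mangoldt function -/
noncomputable def chP {q : ℕ} (χ : DirichletCharacter ℂ q) : ArithmeticFunction ℂ :=
  toArithmeticFunction fun n => χ n * (vonMangoldt n : ℝ)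

theorem chA_one {q : ℕ} (χ : DirichletCharacter ℂ q) : chA χ 1 = 1 := by
  simp [chA, toArithmeticFunction]

theorem chP_apply {q : ℕ} (χ : DirichletCharacter ℂ q) (n : ℕ) :
    chP χ n = χ n * (vonMangoldt n : ℝ) := by
  simp only [chP, toArithmeticFunction, coe_mk]
  split_ifs with h
  · simp [h]
  · rfl

theorem logD_ch {q : ℕ} (χ : DirichletCharacter ℂ q) : LogD (chA χ) (chP χ) := by
  ext n
  have h := congrFun χ.convolution_twist_vonMangoldt n
  rcases eq_or_ne n 0 with rfl | hn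
  · simp
  refine Eq.trans ?_ h.symm
  simp [chA, toArithmeticFunction, hn, lg, mul_comm]

theorem chA_summable {q : ℕ} (χ : DirichletCharacter ℂ q) {s : ℂ} (hs : 1 < s.re) :
    LSeriesSummable (chA χ) s :=
  (LSeriesSummable_congr s fun hn => by simp [chA, toArithmeticFunction, hn]).1
    (χ.LSeriesSummable_of_one_lt_re hs)

theorem chA_LSeries {q : ℕ} [NeZero q] (χ : DirichletCharacter ℂ q) {s : ℂ} (hs : 1 < s.re) :
    LSeries (chA χ) s = χ.LFunction s := by
  rw [χ.LFunction_eq_LSeries hs]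
  exact LSeries_congr (fun hn => by simp [chA, toArithmeticFunction, hn]) s

end Pool.Agent.Lib.MP_f64879_nt
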