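import Pool.Agent.Lib.MP_f64879_nt.Pair

/-! The second moment argument. -/

namespace Pool.Agent.Lib.MP_f64879_nt

open Finset Filter
open scoped Classical

theorem cs (I G : Finset ℕ) (A : ℕ → Finset ℕ) (hG : ∀ y ∈ I, A y ⊆ G) {R O : ℝ} (hR : 0 < R)
    (h1 : R ≤ ∑ y ∈ I, (#(A y) : ℝ)) (h2 : ∑ y' ∈ I, ∑ y ∈ I.erase y', (#(A y ∩ A y') : ℝ) ≤ O) :
    R ^ 2 ≤ #G * (R + O) := by
  have e : ∀ B ⊆ G, (#B : ℝ) = ∑ n ∈ G, if n ∈ B then 1 else 0 := fun B hB => by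
    rw [sum_boole, filter_mem_eq_inter, inter_eq_right.2 hB]
  have a1 := sq_sum_le_card_mul_sum_sq (s := G) (f := fun n => ∑ y ∈ I, if n ∈ A y then (1 : ℝ) else 0)
  have a2 : ∑ n ∈ G, (∑ y ∈ I, if n ∈ A y then (1 : ℝ) else 0) ^ 2 =
      ∑ y ∈ I, (#(A y) : ℝ) + ∑ y' ∈ I, ∑ y ∈ I.erase y', (#(A y ∩ A y') : ℝ) := by
    simp only [sq, sum_mul_sum]
    rw [sum_comm, ← sum_add_distrib]
    refine sum_congr rfl fun y' hy' => ?_
    rw [sum_comm, ← add_sum_erase _ _ hy', e _ (hG y' hy')]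
    refine congrArg₂ _ (sum_congr rfl fun n _ => by split_ifs <;> simp) (sum_congr rfl fun y _ => ?_)
    rw [e _ (inter_subset_right.trans (hG y' hy'))]
    exact sum_congr rfl fun n _ => by by_cases a : n ∈ A y <;> by_cases b : n ∈ A y' <;> simp [a, b]
  rw [a2, sum_comm, ← sum_congr rfl fun y hy => e _ (hG y hy)] at a1
  have a3 : 0 ≤ ∑ y' ∈ I, ∑ y ∈ I.erase y', (#(A y ∩ A y') : ℝ) := by positivity
  have a4 := mul_le_mul_of_nonneg_left h2 (Nat.cast_nonneg (α := ℝ) #G)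
  have a5 := mul_nonneg (Nat.cast_nonneg (α := ℝ) #G) (a3.trans h2)
  by_contra h
  have a6 : (#G : ℝ) ≤ R := by nlinarith
  nlinarith [mul_nonneg (sub_nonneg.2 h1) (show 0 ≤ ∑ y ∈ I, (#(A y) : ℝ) + R - #G by linarith)]

theorem omega_le {r N j : ℕ} {θ : ℝ} (hθ : 0 < θ) (hN : 2 ≤ N) (h0 : r ≠ 0) (hr : r ≤ N ^ j)
    (h : ∀ l : ℕ, l.Prime → (l : ℝ) ≤ N ^ θ → ¬l ∣ r) : r.primeFactorsList.length ≤ ⌊j / θ⌋₊ := by
  have N2 : (1 : ℝ) < N := by exact_mod_cast hN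
  have a1 := List.pow_card_le_prod r.primeFactorsList ⌈(N : ℝ) ^ θ⌉₊ fun l hl => Nat.ceil_le.2
    (not_le.1 fun b => h l (Nat.prime_of_mem_primeFactorsList hl) b
      (Nat.dvd_of_mem_primeFactorsList hl)).le
  rw [Nat.prod_primeFactorsList h0] at a1
  have a2 : ((N : ℝ) ^ θ) ^ r.primeFactorsList.length ≤ N ^ j :=
    (pow_le_pow_left₀ (by positivity) (Nat.le_ceil _) _).trans (by exact_mod_cast a1.trans hr)
  rw [← Real.rpow_mul_natCast (by linarith), ← Real.rpow_natCast _ j,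
    Real.rpow_le_rpow_left_iff N2] at a2
  exact Nat.le_floor ((le_div_iff₀' hθ).2 (by simpa using a2))

/-- the good `n` attached to one `y` -/
noncomputable def AS (θ : ℝ) (x : ℕ) (e : ℤ) (N y : ℕ) : Finset ℕ :=
  {n ∈ range N | ∃ z p r : ℕ, 1 ≤ z ∧ n = x + y + z ∧ (p : ℤ) = 2 * x * y * z + e ∧
    (r : ℤ) = 2 * x * y * z - e ∧ p.Prime ∧ ∀ l : ℕ, l.Prime → (l : ℝ) ≤ N ^ θ → ¬l ∣ p ∧ ¬l ∣ r}

theorem AS_low : ∃ θ c : ℝ, 0 < θ ∧ 0 < c ∧ ∀ᶠ N : ℕ in atTop, ∀ x y : ℕ, 1 ≤ x → 1 ≤ y →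
    (2 * x * y : ℝ) ≤ (Real.log N / 2) ^ 4 → ∀ e : ℤ, e = 1 ∨ e = -1 →
      c * N / Real.log N ^ 2 ≤ #(AS θ x e N y) := by
  obtain ⟨θ, c, hθ, hc, h⟩ := low
  obtain ⟨u0, hu⟩ := eventually_atTop.1 (h 4)
  refine ⟨min θ 1 / 2, c / 32, by positivity, by positivity, ?_⟩
  filter_upwards [log_nat.eventually (ev_small one_pos one_pos 4), log_nat.eventually_ge_atTop 6,
    log_nat.eventually_ge_atTop (2 * u0), eventually_ge_atTop 16] with N h1 h2 h3 h4 x y hx hy hq e he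
  have N0 : (16 : ℝ) ≤ N := by exact_mod_cast h4
  rw [one_mul, Real.exp_neg, Real.exp_log (by linarith), mul_inv_le_iff₀ (by linarith)] at h1
  obtain ⟨q, hq'⟩ : ∃ q, q = 2 * x * y := ⟨_, rfl⟩
  have q0 : 2 ≤ q := by nlinarith
  have q1 : (q : ℝ) = 2 * x * y := by rw [hq']; push_cast; ring
  have q2 : (2 : ℝ) ≤ q := by exact_mod_cast q0
  have q3 : (q : ℝ) ≤ N / 16 := by linarith
  obtain ⟨u, hu'⟩ : ∃ u, u = Real.log (q * N / 8) := ⟨_, rfl⟩
  have u1 : Real.exp u = q * N / 8 := by rw [hu', Real.exp_log (by positivity)]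
  have u2 : Real.log N - 2 ≤ u := by
    rw [sub_le_iff_le_add, Real.log_le_iff_le_exp (by linarith), Real.exp_add, u1,
      show (2 : ℝ) = 1 + 1 by norm_num, Real.exp_add]
    have : 4 ≤ Real.exp 1 * Real.exp 1 := by nlinarith [Real.add_one_le_exp 1]
    nlinarith [mul_le_mul_of_nonneg_right q2 (by linarith : (0 : ℝ) ≤ N)]
  have u3 : u ≤ 2 * Real.log N := by
    rw [hu', show 2 * Real.log N = Real.log (N ^ 2) by simp]
    exact Real.log_le_log (by positivity) (by nlinarith)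
  have a1 := hu u (by linarith) q (by omega) (q1 ▸ hq.trans (pow_le_pow_left₀ (by linarith)
    (by linarith) 4)) ⟨x * y, by rw [hq', mul_assoc]⟩ e he
  have L0 : 0 < Real.log N := by linarith
  have u0' : 0 < u := by linarith
  have m1 : (N : ℝ) ^ (min θ 1 / 2) = Real.exp (min θ 1 * (Real.log N / 2)) := by
    rw [Real.rpow_def_of_pos (by linarith)]; congr 1; ring
  refine le_trans (le_trans ?_ a1) (Nat.cast_le.2 (card_le_card_of_surjOn
    (fun n : ℕ => (2 * x * y * (n - x - y) + e : ℤ).toNat) fun p hp => ?_))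
  · calc _ = c * (q * N / 8) / (q * (2 * Real.log N) ^ 2) := by field_simp; norm_num
      _ ≤ _ := by rw [u1]; gcongr
  obtain ⟨b1, b2, b3, ⟨z, b4⟩, b5⟩ := mem_filter.1 hp
  have b6 : (2 : ℤ) ≤ p := by exact_mod_cast b2.two_le
  have b7 : 0 < z := pos_of_mul_pos_left (a := z) (b := (q : ℤ)) (by rw [mul_comm]; omega) (by omega)
  lift z to ℕ using b7.le
  have b8 : (p : ℝ) ≤ Real.exp (u + 1) :=
    (Nat.le_floor_iff (Real.exp_pos _).le).1 (Nat.lt_succ_iff.1 (mem_range.1 b1))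
  have b9 : (q * z : ℝ) ≤ p + 1 := by exact_mod_cast (by omega : (q * z : ℤ) ≤ p + 1)
  have c1 : x + y + z < N := by
    have d1 : (z : ℝ) ≤ 3 * N / 8 + 1 := by
      rw [Real.exp_add, u1] at b8
      refine le_of_mul_le_mul_left ?_ (show (0 : ℝ) < q by linarith)
      nlinarith [mul_le_mul_of_nonneg_left Real.exp_one_lt_three.le
        (by positivity : (0 : ℝ) ≤ q * N / 8)]
    have d2 : (x + y : ℝ) ≤ q := by exact_mod_cast (by nlinarith : x + y ≤ q)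
    exact_mod_cast (by linarith : (x + y + z : ℝ) < N)
  have c2 : (p : ℤ) = 2 * x * y * z + e := by rw [hq'] at b4; push_cast at b4; linarith
  have c3 : (((p : ℤ) - 2 * e).toNat : ℤ) = p - 2 * e := Int.toNat_of_nonneg (by omega)
  refine ⟨x + y + z, mem_coe.2 (mem_filter.2 ⟨mem_range.2 c1, z, p, _, by omega, rfl, c2,
    c3.trans (by linarith), b2, fun l l1 l2 => ⟨fun l3 => ?_, fun l3 => b5 l l1 ?_ ?_⟩⟩), ?_⟩
  · rw [(Nat.prime_dvd_prime_iff_eq l1 b2).1 l3, m1] at l2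
    have := Real.exp_lt_exp.1 (b3.trans_le l2)
    nlinarith [min_le_right θ 1]
  · rw [m1] at l2
    exact l2.trans (Real.exp_le_exp.2 (mul_le_mul (min_le_left _ _) (by linarith) (by linarith) hθ.le))
  · exact c3 ▸ Int.natCast_dvd_natCast.2 l3
  · push_cast
    rw [show (x + y + z - x - y : ℤ) = z by ring, ← c2, Int.toNat_natCast]

theorem main : ∃ K : ℕ, ∀ x : ℕ, 1 ≤ x → ∀ e : ℤ, e = 1 ∨ e = -1 → ∃ c : ℝ, 0 < c ∧
    ∀ᶠ N : ℕ in atTop, c * N ≤ #{n ∈ range N | ∃ y z p r : ℕ, 1 ≤ y ∧ 1 ≤ z ∧ n = x + y + z ∧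
      (p : ℤ) = 2 * x * y * z + e ∧ (r : ℤ) = 2 * x * y * z - e ∧
      (2 * y + 1).Prime ∧ p.Prime ∧ r.primeFactorsList.length ≤ K} := by
  obtain ⟨θ, c, hθ, hc, h1⟩ := AS_low
  obtain ⟨C1, hC1, h2⟩ := pair hθ
  refine ⟨⌊(2 : ℕ) / θ⌋₊, fun x hx e he => ?_⟩
  obtain ⟨C2, hC2, h3⟩ := pair_sum hx
  obtain ⟨Y0, h4⟩ := eventually_atTop.1 YS_low
  refine ⟨(c / 4) ^ 2 / (c / 4 + C1 * C2), by positivity, ?_⟩
  filter_upwards [h1, log_nat.eventually (ev_small one_pos one_pos 4),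
    log_nat.eventually_ge_atTop (64 * x), log_nat.eventually_ge_atTop Y0, eventually_ge_atTop 2]
    with N a1 a2 a3 a4 a5
  have N0 : (2 : ℝ) ≤ N := by exact_mod_cast a5
  have x1 : (1 : ℝ) ≤ x := by exact_mod_cast hx
  rw [one_mul, Real.exp_neg, Real.exp_log (by linarith), mul_inv_le_iff₀ (by linarith)] at a2
  obtain ⟨L, hL⟩ : ∃ L, L = Real.log N := ⟨_, rfl⟩
  rw [← hL] at a1 a2 a3 a4
  have L1 : L ≤ L ^ 3 := le_self_pow₀ (by linarith) three_ne_zero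
  obtain ⟨Y, Y1, Y2⟩ : ∃ Y : ℕ, L ^ 3 ≤ Y ∧ Y ≤ 2 * L ^ 3 :=
    ⟨_, Nat.le_ceil _, by linarith [Nat.ceil_lt_add_one (show 0 ≤ L ^ 3 by linarith)]⟩
  have Y3 : (2 * x * Y : ℝ) ≤ (L / 2) ^ 4 := by
    nlinarith [mul_le_mul_of_nonneg_right a3 (show 0 ≤ L ^ 3 by linarith)]
  have Y4 : 0 < Real.log Y := Real.log_pos (by linarith)
  have Y5 : Real.log Y ≤ L := hL ▸ Real.log_le_log (by linarith) (by nlinarith)
  have hy : ∀ y ∈ YS Y, 1 ≤ y ∧ (2 * x * y : ℝ) ≤ (L / 2) ^ 4 := fun y hy => by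
    have b1 := (mem_YS.1 hy).2.1.two_le
    have b2 : (y : ℝ) ≤ Y := by exact_mod_cast (mem_YS.1 hy).1.le
    exact ⟨by omega, le_trans (by gcongr) Y3⟩
  obtain ⟨m, hm⟩ : ∃ m : ℝ, m = Y / Real.log Y / L ^ 2 := ⟨_, rfl⟩
  have L0 : 0 < L := by linarith
  have m1 : 1 ≤ m := by
    rw [hm, one_le_div (by positivity), le_div_iff₀ Y4]
    nlinarith [mul_le_mul_of_nonneg_left Y5 (sq_nonneg L)]
  have key := cs (YS Y) {n ∈ range N | ∃ y z p r : ℕ, 1 ≤ y ∧ 1 ≤ z ∧ n = x + y + z ∧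
      (p : ℤ) = 2 * x * y * z + e ∧ (r : ℤ) = 2 * x * y * z - e ∧
      (2 * y + 1).Prime ∧ p.Prime ∧ r.primeFactorsList.length ≤ ⌊(2 : ℕ) / θ⌋₊} (AS θ x e N)
    (R := c / 4 * m * N) (O := C1 * C2 * m ^ 2 * N) (fun y hy' n hn => by
      obtain ⟨b1, z, p, r, b2, b3, b4, b5, b6, b7⟩ := mem_filter.1 hn
      obtain ⟨b8, b9⟩ := hy y hy'
      have c1 : 1 ≤ x * y * z := Nat.mul_pos (Nat.mul_pos hx b8) b2
      have c2 : 16 * (2 * x * y) ≤ N := by exact_mod_cast (by linarith : 16 * (2 * x * y : ℝ) ≤ N)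
      have c3 := mem_range.1 b1
      have c4 : r ≤ 2 * x * y * z + 1 := by zify; omega
      refine mem_filter.2 ⟨b1, y, z, p, r, b8, b2, b3, b4, b5, (mem_YS.1 hy').2.1, b6,
        omega_le (j := 2) hθ a5 ?_ ?_ fun l l1 l2 => (b7 l l1 l2).2⟩
      · zify at c1 ⊢
        rcases he with rfl | rfl <;> rw [b5] <;> nlinarith
      · nlinarith [Nat.mul_le_mul c2 (show z ≤ N by omega)])
    (by positivity) (by
      refine le_trans ?_ (card_nsmul_le_sum _ _ _ fun y hy' =>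
        a1 x y hx (hy y hy').1 (hy y hy').2 e he)
      rw [nsmul_eq_mul]
      refine le_trans (le_of_eq ?_) (mul_le_mul_of_nonneg_right (h4 Y (by
        exact_mod_cast a4.trans (L1.trans Y1))) (by positivity))
      rw [hm]
      field_simp) (by
      refine le_trans (sum_le_sum fun y' hy' => sum_le_sum fun y hy'' => h2 N x y y' _ a5
        (Dn_ne hx (hy y (mem_erase.1 hy'').2).1 (hy y' hy').1 (mem_erase.1 hy'').1)
        (inter_subset_left.trans (filter_subset _ _)) fun n hn l l1 l2 => ?_) ?_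
      · have k : ∀ y, n ∈ AS θ x e N y → ¬(l : ℤ) ∣ (2 * x * y * (n - x - y)) ^ 2 - 1 := by
          intro y hn h
          obtain ⟨-, z, p, r, -, rfl, b4, b5, -, b7⟩ := mem_filter.1 hn
          rw [show (2 * x * y * ((x + y + z : ℕ) - x - y) : ℤ) ^ 2 - 1 = p * r by
            rw [b4, b5]; rcases he with rfl | rfl <;> push_cast <;> ring] at h
          exact (l1.dvd_mul.1 (by exact_mod_cast h)).elim (b7 l l1 l2).1 (b7 l l1 l2).2
        exact ⟨k y (mem_inter.1 hn).1, k y' (mem_inter.1 hn).2⟩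
      · simp only [← mul_sum]
        refine (mul_le_mul_of_nonneg_left (h3 Y (by
          exact_mod_cast (by linarith : (4 * x : ℝ) ≤ Y))) (by rw [← hL]; positivity)).trans_eq ?_
        rw [hm, ← hL]
        field_simp)
  rw [div_mul_eq_mul_div, div_le_iff₀ (by positivity)]
  refine le_of_mul_le_mul_right ?_ (show 0 < m ^ 2 * N by positivity)
  refine (le_of_eq (by ring)).trans (key.trans ?_)
  rw [mul_assoc _ (_ + _)]
  gcongr
  nlinarith [mul_le_mul_of_nonneg_left m1 (show 0 ≤ c / 4 * m * N by positivity)]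

end Pool.Agent.Lib.MP_f64879_nt
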