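import Pool.Agent.Lib.MP_f64879_nt.US

/-! An exponential moment over the primes `2 y + 1`. -/

namespace Pool.Agent.Lib.MP_f64879_nt

open Finset Filter Function Pool.Agent.Lib.MP_30b5ba_nt.P Pool.Agent.Shared.BrunSieve
open scoped Classical

/-- the numbers `y` in `[√Y, Y)` with `2 y + 1` prime -/
def YS (Y : ℕ) : Finset ℕ := {y ∈ range Y | (2 * y + 1).Prime ∧ Y ≤ y ^ 2}

theorem mem_YS {Y y : ℕ} : y ∈ YS Y ↔ y < Y ∧ (2 * y + 1).Prime ∧ Y ≤ y ^ 2 := by
  rw [YS, mem_filter, mem_range]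

theorem log_nat : Tendsto (fun Y : ℕ => Real.log Y) atTop atTop :=
  Real.tendsto_log_atTop.comp tendsto_natCast_atTop_atTop

theorem YS_low : ∀ᶠ Y : ℕ in atTop, Y / (4 * Real.log Y) ≤ #(YS Y) := by
  filter_upwards [log_nat.eventually (ev_small (c := 1 / 2) (ε := 1 / 100) (by norm_num)
    (by norm_num) 1), log_nat.eventually_ge_atTop 1, eventually_ge_atTop 1] with Y h1 h2 h3
  have Y1 : (1 : ℝ) ≤ Y := by exact_mod_cast h3
  have a1 : √(Y : ℝ) * Real.log Y ≤ Y / 100 := by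
    have : √(Y : ℝ) = Y * Real.exp (-(1 / 2 * Real.log Y)) := by
      conv_lhs => rw [← Real.exp_log (show (0 : ℝ) < Y by linarith), ← Real.exp_half,
        show Real.log Y / 2 = Real.log Y + -(1 / 2 * Real.log Y) by ring, Real.exp_add,
        Real.exp_log (by linarith)]
    rw [this]
    nlinarith
  have a2 : 1 ≤ √(Y : ℝ) := Real.one_le_sqrt.2 Y1
  have a3 := Chebyshev.pi_ge (2 * Y)
  have a4 : Nat.primeCounting (2 * Y) ≤ #(YS Y) + (2 * Y.sqrt + 3) := by
    rw [← Nat.primesLE_card_eq_primeCounting, ← card_range (2 * Y.sqrt + 3)]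
    refine le_trans (card_le_card fun p hp => ?_) ((card_union_le _ _).trans
      (Nat.add_le_add_right (card_image_le (f := fun y => 2 * y + 1)) _))
    obtain ⟨b1, b2⟩ := Nat.mem_primesLE.1 hp
    rw [mem_union, mem_range, mem_image]
    refine (lt_or_ge p _).symm.imp_left fun b3 => ?_
    obtain ⟨y, rfl⟩ := b2.odd_of_ne_two (by omega)
    refine ⟨y, mem_YS.2 ⟨by omega, b2, (Nat.lt_succ_sqrt' Y).le.trans ?_⟩, rfl⟩
    exact Nat.pow_le_pow_left (by omega) 2
  have a5 : (Nat.primeCounting (2 * Y) : ℝ) ≤ #(YS Y) + 5 * √(Y : ℝ) := by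
    have b1 : (Nat.primeCounting (2 * Y) : ℝ) ≤ #(YS Y) + (2 * Y.sqrt + 3) := by exact_mod_cast a4
    linarith [Real.nat_sqrt_le_real_sqrt (a := Y)]
  have l2 := Real.log_two_gt_d9
  have l3 := Real.log_two_lt_d9
  have a6 : Real.log (2 * Y) ≤ 2 * Real.log Y := by
    rw [Real.log_mul two_ne_zero (by linarith)]; linarith
  have a7 : Real.log (2 * Y + 1) ≤ 3 * Real.log Y := by
    refine (Real.log_le_log (by linarith) (show _ ≤ 2 * (2 * (Y : ℝ)) by linarith)).trans ?_
    rw [Real.log_mul two_ne_zero (by linarith)]; linarith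
  push_cast at a3
  rw [div_le_iff₀ (Real.log_pos (by linarith))] at a3
  have a8 := mul_le_mul a5 a6 (Real.log_nonneg (by linarith)) (by positivity)
  rw [div_le_iff₀ (by linarith)]
  nlinarith [mul_nonneg (Nat.cast_nonneg (α := ℝ) #(YS Y)) (by linarith : 0 ≤ Real.log Y)]

theorem cnt : ∃ C : ℝ, 0 < C ∧ ∀ (Y : ℕ) (T : Finset ℕ) (A : (l : ℕ) → Finset (ZMod l)), 4 ≤ Y →
    (∀ l ∈ T, l.Prime ∧ #(A l) ≤ 9) → (∏ l ∈ T, l) ^ 2 ≤ Y →
    (#{y ∈ YS Y | ∀ l ∈ T, ((y : ℕ) : ZMod l) ∈ A l} : ℝ) ≤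
      C * (Y / Real.log Y) * ∏ l ∈ T, (18 / l : ℝ) := by
  obtain ⟨C, hC, h⟩ := us 1 (θ := 1 / 2) (by norm_num)
  refine ⟨8 * C, by positivity, fun Y T A hY hT hd => ?_⟩
  obtain ⟨d, hd'⟩ : ∃ d, d = ∏ l ∈ T, l := ⟨_, rfl⟩
  have d0 : 0 < d := hd' ▸ prod_pos fun l hl => (hT l hl).1.pos
  rw [← hd'] at hd
  have d1 : (0 : ℝ) < d := by exact_mod_cast d0
  have Y4 : (4 : ℝ) ≤ Y := by exact_mod_cast hY
  have L0 : 0 < Real.log Y := Real.log_pos (by linarith)
  obtain ⟨N, hN⟩ : ∃ N, N = Y / d + 1 := ⟨_, rfl⟩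
  have N1 : Y < N * d := by rw [hN, add_mul, one_mul]; exact Nat.lt_div_mul_add d0
  have N2 : N * d ≤ 2 * Y := by
    rw [hN, add_mul, one_mul]; nlinarith [Nat.div_mul_le_self Y d]
  have N3 : d ≤ N := by by_contra h; nlinarith
  have N4 : Y ≤ N ^ 2 := by nlinarith
  have N5 : 2 ≤ N := by by_contra h; nlinarith
  have N6 : Real.log Y / 2 ≤ Real.log N := by
    have : Real.log Y ≤ Real.log ((N : ℝ) ^ 2) := Real.log_le_log (by linarith) (by exact_mod_cast N4)
    rw [Real.log_pow] at this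
    push_cast at this
    linarith
  have N7 : (N : ℝ) ≤ 2 * Y / d := by rw [le_div_iff₀ d1]; exact_mod_cast N2
  have e1 : ∀ l : ℕ, l.Prime → Real.exp (1 / l) ≤ 2 := fun l hl => by
    rw [← Real.le_log_iff_exp_le two_pos]
    have : 1 / (l : ℝ) ≤ 1 / 2 := one_div_le_one_div_of_le two_pos (by exact_mod_cast hl.two_le)
    linarith [Real.log_two_gt_d9]
  have e2 : Real.exp (∑ l ∈ (2 * d).primeFactors, 1 / (l : ℝ)) ≤ 2 * 2 ^ #T := by
    rw [Nat.primeFactors_mul two_ne_zero d0.ne', hd', Nat.primeFactors_prod fun l hl => (hT l hl).1,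
      Nat.prime_two.primeFactors, ← prod_const]
    refine (Real.exp_le_exp.2 (sum_un (fun _ => by positivity) _ _)).trans ?_
    rw [Real.exp_add, sum_singleton, Real.exp_sum]
    exact mul_le_mul (e1 2 Nat.prime_two) (prod_le_prod (fun _ _ => (Real.exp_pos _).le)
      fun l hl => e1 l (hT l hl).1) (by positivity) two_pos.le
  have key : ∀ b : ℕ, (#{y ∈ YS Y | y % d = b} : ℝ) ≤
      C * (2 * Y / d) / (Real.log Y / 2) * (2 * 2 ^ #T) := fun b => by
    have a1 := h N (2 * d) {t ∈ range N | b + d * t ∈ YS Y} N5 (by omega) (filter_subset _ _)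
      fun l hl l1 l2 => by
      have := Fact.mk hl
      exact ⟨{-(2 * b + 1 : ZMod l) / (2 * d)}, card_singleton _, fun t ht h1 => by
        obtain ⟨b1, b2, b3⟩ := mem_YS.1 (mem_filter.1 ht).2
        have b4 : ((2 * d : ℕ) : ZMod l) ≠ 0 := (ZMod.natCast_eq_zero_iff _ _).not.2 l2
        push_cast at b4
        rw [mem_singleton, eq_div_iff b4] at h1
        have b5 := (Nat.prime_dvd_prime_iff_eq hl b2).1 ((ZMod.natCast_eq_zero_iff _ _).1 (by
          push_cast; linear_combination h1))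
        rw [← Real.sqrt_eq_rpow, Real.le_sqrt (by positivity) (by positivity)] at l1
        have b6 : l ^ 2 ≤ N := by exact_mod_cast l1
        have b7 := Nat.div_le_self Y d
        nlinarith⟩
    rw [pow_one, Nat.cast_one, one_mul] at a1
    refine le_trans (Nat.cast_le.2 (card_le_card_of_injOn (fun y => y / d) (fun y hy => ?_)
      fun y hy y' hy' e => ?_)) (a1.trans (by gcongr))
    · obtain ⟨b1, rfl⟩ := mem_filter.1 hy
      refine mem_filter.2 ⟨mem_range.2 ?_, by rwa [Nat.mod_add_div]⟩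
      exact hN ▸ Nat.lt_succ_of_le (Nat.div_le_div_right (mem_YS.1 b1).1.le)
    · rw [← Nat.mod_add_div y d, ← Nat.mod_add_div y' d, (mem_filter.1 hy).2, (mem_filter.1 hy').2]
      exact congrArg (b + d * ·) e
  have a2 : (#{b ∈ range d | ∀ l ∈ T, ((b : ℕ) : ZMod l) ∈ A l} : ℝ) ≤ 9 ^ #T := by
    rw [hd', count_prod T (fun l hl => (hT l hl).1) _ fun l _ => per_res l (A l)]
    exact_mod_cast prod_le_pow_card _ _ _ fun l hl => (card_res (hT l hl).1.pos _).trans_le (hT l hl).2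
  rw [card_eq_sum_card_fiberwise (f := fun y => y % d)
    (t := {b ∈ range d | ∀ l ∈ T, ((b : ℕ) : ZMod l) ∈ A l}) fun y hy => by
      refine mem_coe.2 (mem_filter.2 ⟨mem_range.2 (Nat.mod_lt _ d0), fun l hl => ?_⟩)
      rw [(ZMod.natCast_eq_natCast_iff _ _ _).2 ((Nat.mod_modEq y d).of_dvd
        (hd' ▸ dvd_prod_of_mem _ hl))]
      exact (mem_filter.1 hy).2 l hl, Nat.cast_sum]
  refine (sum_le_card_nsmul _ _ _ fun b _ => le_trans (Nat.cast_le.2 (card_le_card
    (filter_subset_filter _ (filter_subset _ _)))) (key b)).trans ?_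
  rw [nsmul_eq_mul, prod_div_distrib, prod_const, ← Nat.cast_prod, ← hd',
    show (18 : ℝ) = 9 * 2 by norm_num, mul_pow]
  refine (mul_le_mul_of_nonneg_right a2 (by positivity)).trans_eq ?_
  field_simp
  norm_num

theorem mom : ∃ C : ℝ, 0 < C ∧ ∀ (Y : ℕ) (A : (l : ℕ) → Finset (ZMod l)), 4 ≤ Y →
    (∀ l : ℕ, l.Prime → #(A l) ≤ 9) → ∑ y ∈ YS Y, Real.exp (4 * ∑ l ∈ pr 0 (Real.log Y / 10) with
      ((y : ℕ) : ZMod l) ∈ A l, 1 / ((l : ℕ) : ℝ)) ≤ C * (Y / Real.log Y) := by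
  obtain ⟨C, hC, h⟩ := cnt
  refine ⟨C * Real.exp (648 * 2), by positivity, fun Y A hY hA => ?_⟩
  have Y4 : (4 : ℝ) ≤ Y := by exact_mod_cast hY
  have L0 : 0 < Real.log Y := Real.log_pos (by linarith)
  set P := pr 0 (Real.log Y / 10) with hP
  calc _ ≤ ∑ y ∈ YS Y, ∑ T ∈ P.powerset,
        if ∀ l ∈ T, ((y : ℕ) : ZMod l) ∈ A l then ∏ l ∈ T, (36 / l : ℝ) else 0 := by
        refine sum_le_sum fun y _ => ?_
        simp only [← prod_ite_zero]
        rw [← prod_one_add, mul_sum, Real.exp_sum, prod_filter]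
        refine prod_le_prod (fun l _ => by positivity) fun l hl => ?_
        split_ifs
        · have a1 : (2 : ℝ) ≤ l := by exact_mod_cast (mem_pr.1 hl).1.two_le
          have a2 : 4 * (1 / (l : ℝ)) ≤ 2 := by rw [mul_one_div, div_le_iff₀ (by linarith)]; linarith
          have a3 := Real.one_sub_le_exp_neg (4 * (1 / (l : ℝ)))
          have a4 : Real.exp (4 * (1 / (l : ℝ))) ≤ 9 := by
            refine (Real.exp_le_exp.2 a2).trans ?_
            rw [show (2 : ℝ) = 1 + 1 by norm_num, Real.exp_add]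
            nlinarith [Real.exp_one_lt_three, Real.exp_pos 1]
          rw [Real.exp_neg, ← one_div (Real.exp _), le_div_iff₀ (Real.exp_pos _)] at a3
          rw [show 36 / (l : ℝ) = 4 * (1 / l) * 9 by ring]
          nlinarith [(by positivity : 0 ≤ 4 * (1 / (l : ℝ)))]
        · simp
    _ ≤ ∑ T ∈ P.powerset, C * (Y / Real.log Y) * ∏ l ∈ T, (648 * (1 / l ^ 2) : ℝ) := by
        rw [sum_comm]
        refine sum_le_sum fun T hT => ?_
        have hT' := fun l (hl : l ∈ T) => mem_pr.1 (mem_powerset.1 hT hl)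
        rw [← sum_filter, sum_const, nsmul_eq_mul]
        refine (mul_le_mul_of_nonneg_right (h Y T A hY (fun l hl => ⟨(hT' l hl).1, hA l (hT' l hl).1⟩)
          ?_) (by positivity)).trans_eq ?_
        · have a1 : ∑ l ∈ T, Real.log l ≤ Chebyshev.theta (Real.log Y / 10) :=
            sum_le_sum_of_subset_of_nonneg (fun l hl => mem_filter.2 ⟨mem_Ioc.2 ⟨(hT' l hl).1.pos,
              Nat.le_floor (hT' l hl).2.2⟩, (hT' l hl).1⟩) fun l _ _ => Real.log_natCast_nonneg l
          have a2 := Chebyshev.theta_le_log4_mul_x (x := Real.log Y / 10) (by positivity)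
          have a3 := Real.log_le_sub_one_of_pos (show (0 : ℝ) < 4 by norm_num)
          have a4 : (0 : ℝ) < ∏ l ∈ T, (l : ℝ) := prod_pos fun l hl => (hT' l hl).2.1
          rw [← Real.log_prod fun l hl => (hT' l hl).2.1.ne'] at a1
          rw [← Nat.cast_le (α := ℝ), Nat.cast_pow, Nat.cast_prod,
            ← Real.log_le_log_iff (by positivity) (by linarith), Real.log_pow]
          push_cast
          nlinarith
        · rw [mul_assoc, ← prod_mul_distrib]
          exact congrArg _ (prod_congr rfl fun l _ => by ring)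
    _ ≤ _ := by
        rw [← mul_sum, ← prod_one_add, mul_right_comm]
        gcongr
        refine (Real.prod_one_add_le_exp_sum _ fun _ => by positivity).trans (Real.exp_le_exp.2 ?_)
        rw [← mul_sum]
        gcongr
        exact (sum_le_sum_of_subset_of_nonneg (fun l hl => mem_Icc.2 ⟨(mem_pr.1 hl).1.pos,
          Nat.le_floor (mem_pr.1 hl).2.2⟩) fun _ _ _ => by positivity).trans
          (Shared.SelbergUpper.sum_inv_sq _)

end Pool.Agent.Lib.MP_f64879_nt
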