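import Pool.Agent.Lib.MP_f64879_nt.Mom

/-! The sieve bound for a pair of values of `y` and its mean. -/

namespace Pool.Agent.Lib.MP_f64879_nt

open Finset Filter Pool.Agent.Lib.MP_30b5ba_nt.P
open scoped Classical

/-- the resultant type product -/
def Dq {R : Type} [CommRing R] (a y y' : R) : R :=
  y * ((a * y * (y - y') - y' + y) * (a * y * (y - y') + y' - y) * (a * y * (y - y') - y' - y) *
    (a * y * (y - y') + y' + y))

/-- the discriminant of the four linear forms -/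
def Dn (x y y' : ℕ) : ℕ := (2 * x * y' * Dq (2 * x * y' : ℤ) y y').natAbs

theorem Dn_dvd {x y y' l : ℕ} : l ∣ Dn x y y' ↔
    (2 * x * y' * Dq (2 * x * y' : ZMod l) y y') = 0 := by
  rw [Dn, ← Int.natCast_dvd, ← ZMod.intCast_zmod_eq_zero_iff_dvd]
  simp [Dq]

theorem Dn_ne {x y y' : ℕ} (hx : 1 ≤ x) (hy : 1 ≤ y) (hy' : 1 ≤ y') (h : y ≠ y') : Dn x y y' ≠ 0 := by
  have x1 : (1 : ℤ) ≤ x := by exact_mod_cast hx
  have y1 : (1 : ℤ) ≤ y := by exact_mod_cast hy
  have y2 : (1 : ℤ) ≤ y' := by exact_mod_cast hy'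
  have a1 : (y : ℤ) + y' < 2 * x * y' * y := by
    have : (1 : ℤ) ≤ y - y' ∨ (1 : ℤ) ≤ y' - y := by omega
    have := mul_le_mul_of_nonneg_right x1 (mul_nonneg (sub_nonneg.2 y1) (sub_nonneg.2 y2))
    rcases ‹_ ∨ _› with b | b <;> nlinarith
  have a2 : (y : ℤ) + y' < 2 * x * y' * y * (y - y') ∨ 2 * x * y' * y * (y - y') < -((y : ℤ) + y') := by
    have : (1 : ℤ) ≤ y - y' ∨ (1 : ℤ) ≤ y' - y := by omega
    exact this.imp (fun b => by nlinarith) fun b => by nlinarith
  simp only [Dn, Dq, Int.natAbs_ne_zero, mul_ne_zero_iff]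
  omega

theorem Dn_le {x y y' Y : ℕ} (hx : 4 * x ≤ Y) (hy : y ≤ Y) (hy' : y' ≤ Y) (hY : 2 ≤ Y) :
    Dn x y y' ≤ Y ^ 20 := by
  have x1 : (4 * x : ℤ) ≤ Y := by exact_mod_cast hx
  have y1 : (y : ℤ) ≤ Y := by exact_mod_cast hy
  have y2 : (y' : ℤ) ≤ Y := by exact_mod_cast hy'
  have Y2 : (2 : ℤ) ≤ Y := by exact_mod_cast hY
  have a0 : (2 * x * y' * y : ℤ) * 2 ≤ Y ^ 3 := by
    calc (2 * x * y' * y : ℤ) * 2 = 4 * x * y' * y := by ring
      _ ≤ Y * Y * Y := by gcongr
      _ = _ := by ring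
  have a1 : |(2 * x * y' * y : ℤ) * (y - y')| * 2 ≤ Y ^ 4 := by
    rw [abs_mul, abs_of_nonneg (by positivity), mul_right_comm, pow_succ _ 3]
    exact mul_le_mul a0 (abs_le.2 ⟨by omega, by omega⟩) (abs_nonneg _) (by positivity)
  have a2 : (Y : ℤ) * 4 ≤ Y ^ 3 := by nlinarith [mul_le_mul Y2 Y2 (by omega) (by omega)]
  have a3 : (Y : ℤ) ^ 3 ≤ Y ^ 4 := pow_le_pow_right₀ (by omega) (by omega)
  have a4 := abs_le.1 (le_refl |(2 * x * y' * y : ℤ) * (y - y')|)
  have a5 : (0 : ℤ) ≤ 2 * x * y' * y := by positivity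
  zify
  rw [Dn, Int.natCast_natAbs, Dq, ← mul_assoc, show (Y : ℤ) ^ 20 = Y ^ 4 * (Y ^ 4 * Y ^ 4 * Y ^ 4 *
    Y ^ 4) by ring]
  generalize (2 * x * y' * y : ℤ) = a at *
  generalize a * (y - y') = g at *
  simp only [abs_mul]
  gcongr <;> rw [abs_le] <;> omega

theorem pair {θ : ℝ} (hθ : 0 < θ) : ∃ C : ℝ, 0 < C ∧ ∀ (N x y y' : ℕ) (S : Finset ℕ), 2 ≤ N →
    Dn x y y' ≠ 0 → S ⊆ range N → (∀ n ∈ S, ∀ l : ℕ, l.Prime → (l : ℝ) ≤ N ^ θ →
      ¬(l : ℤ) ∣ (2 * x * y * (n - x - y)) ^ 2 - 1 ∧ ¬(l : ℤ) ∣ (2 * x * y' * (n - x - y')) ^ 2 - 1) →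
    #S ≤ C * N / Real.log N ^ 4 * Real.exp (4 * ∑ l ∈ (Dn x y y').primeFactors, 1 / (l : ℝ)) := by
  obtain ⟨C, hC, h⟩ := us 4 hθ
  refine ⟨C, hC, fun N x y y' S hN hD hS h1 => h N _ S hN hD hS fun l hl l1 l2 => ?_⟩
  have := Fact.mk hl
  simp only [Dn_dvd, Dq, mul_eq_zero, not_or] at l2
  obtain ⟨⟨⟨b0, b1⟩, b2⟩, b3, ⟨⟨b4, b5⟩, b6⟩, b7⟩ := l2
  refine ⟨{x + y + (2 * x * y : ZMod l)⁻¹, x + y - (2 * x * y : ZMod l)⁻¹,
    x + y' + (2 * x * y' : ZMod l)⁻¹, x + y' - (2 * x * y' : ZMod l)⁻¹}, ?_, fun t ht h2 => ?_⟩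
  · have c1 : (2 * x * y : ZMod l) * (2 * x * y : ZMod l)⁻¹ = 1 := mul_inv_cancel₀ (by simp [*])
    have c2 : (2 * x * y' : ZMod l) * (2 * x * y' : ZMod l)⁻¹ = 1 := mul_inv_cancel₀ (by simp [*])
    generalize (2 * x * y : ZMod l)⁻¹ = s at c1 ⊢
    generalize (2 * x * y' : ZMod l)⁻¹ = t at c2 ⊢
    rw [card_insert_of_notMem, card_insert_of_notMem, card_pair]
    · exact fun e => b0 (by linear_combination (2 * x * y' : ZMod l) * e - 2 * c2)
    · rw [mem_insert, mem_singleton, not_or]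
      exact ⟨fun e => b6 (by linear_combination (2 * x * y * y' : ZMod l) * e + y' * c1 + y * c2),
        fun e => b4 (by linear_combination (2 * x * y * y' : ZMod l) * e + y' * c1 - y * c2)⟩
    · simp only [mem_insert, mem_singleton, not_or]
      exact ⟨fun e => b0 (by linear_combination (2 * x * y : ZMod l) * e - 2 * c1),
        fun e => b5 (by linear_combination (2 * x * y * y' : ZMod l) * e - y' * c1 + y * c2),
        fun e => b7 (by linear_combination (2 * x * y * y' : ZMod l) * e - y' * c1 - y * c2)⟩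
  · obtain ⟨c3, c4⟩ := h1 t ht l hl l1
    rw [← ZMod.intCast_zmod_eq_zero_iff_dvd] at c3 c4
    push_cast at c3 c4
    simp only [mem_insert, mem_singleton] at h2
    rcases h2 with e | e | e | e
    · exact c3 (by rw [e]; field_simp; ring)
    · exact c3 (by rw [e]; field_simp; ring)
    · exact c4 (by rw [e]; field_simp; ring)
    · exact c4 (by rw [e]; field_simp; ring)

theorem quad {F : Type} [Field F] {a : F} (ha : a ≠ 0) (b c : F) (s : Finset F) (f : F → F)
    (hf : ∀ r, f r = a * r ^ 2 + b * r + c) : #{r ∈ s | f r = 0} ≤ 2 := by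
  have h := Polynomial.natDegree_quadratic (b := b) (c := c) ha
  refine le_trans (card_le_card fun r hr => Multiset.mem_toFinset.2 ?_) ((Multiset.toFinset_card_le _).trans
    ((Polynomial.card_roots' _).trans h.le))
  refine (Polynomial.mem_roots (Polynomial.ne_zero_of_natDegree_gt (n := 0) (by omega))).2 ?_
  simpa [hf] using (mem_filter.1 hr).2

theorem card_Dq {F : Type} [Field F] (a y' : F) (s : Finset F) :
    #{r ∈ s | a ≠ 0 ∧ Dq a r y' = 0} ≤ 9 := by
  rcases eq_or_ne a 0 with rfl | ha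
  · simp
  simp only [ha, ne_eq, not_false_eq_true, true_and, Dq]
  have a0 : #{r ∈ s | r = 0} ≤ 1 := card_le_one.2 fun a h b h' =>
    (mem_filter.1 h).2.trans (mem_filter.1 h').2.symm
  have a1 := quad ha (1 - a * y') (-y') s (fun r => a * r * (r - y') - y' + r) fun r => by ring
  have a2 := quad ha (-1 - a * y') y' s (fun r => a * r * (r - y') + y' - r) fun r => by ring
  have a3 := quad ha (-1 - a * y') (-y') s (fun r => a * r * (r - y') - y' - r) fun r => by ring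
  have a4 := quad ha (1 - a * y') y' s (fun r => a * r * (r - y') + y' + r) fun r => by ring
  refine le_trans (card_le_card fun r hr => ?_) ((card_union_le _ _).trans (add_le_add a0
    ((card_union_le _ _).trans (add_le_add ((card_union_le _ _).trans (add_le_add
      ((card_union_le _ _).trans (add_le_add a1 a2)) a3)) a4))))
  simp only [mem_filter, mem_union, mul_eq_zero] at hr ⊢
  tauto

theorem pf_tail {D : ℕ} (hD : D ≠ 0) {w : ℝ} (hw : 0 < w) :
    ∑ l ∈ D.primeFactors with w < (l : ℕ), 1 / ((l : ℕ) : ℝ) ≤ 2 * Real.log D / w := by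
  have h1 : ∑ p ∈ D.primeFactors, Real.log p ≤ Real.log D := by
    rw [← Real.log_prod fun p hp => by exact_mod_cast (Nat.pos_of_mem_primeFactors hp).ne',
      ← Nat.cast_prod]
    exact Real.log_le_log (by exact_mod_cast prod_pos fun p hp => Nat.pos_of_mem_primeFactors hp)
      (Nat.cast_le.2 (Nat.le_of_dvd (Nat.pos_of_ne_zero hD) D.prod_primeFactors_dvd))
  refine le_trans ?_ (div_le_div_of_nonneg_right (mul_le_mul_of_nonneg_left h1 two_pos.le) hw.le)
  rw [mul_sum, sum_div, sum_filter]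
  refine sum_le_sum fun l hl => ?_
  have a1 : (2 : ℝ) ≤ l := by exact_mod_cast (Nat.prime_of_mem_primeFactors hl).two_le
  have a2 := Real.log_le_log two_pos a1
  have a3 := Real.log_two_gt_d9
  split_ifs with h
  · exact div_le_div₀ (by linarith) (by linarith) hw h.le
  · exact div_nonneg (by linarith) hw.le

theorem pair_sum {x : ℕ} (hx : 1 ≤ x) : ∃ C : ℝ, 0 < C ∧ ∀ Y : ℕ, 4 * x ≤ Y →
    ∑ y' ∈ YS Y, ∑ y ∈ (YS Y).erase y', Real.exp (4 * ∑ l ∈ (Dn x y y').primeFactors, 1 / (l : ℝ))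
      ≤ C * (Y / Real.log Y) ^ 2 := by
  obtain ⟨C, hC, h⟩ := mom
  refine ⟨Real.exp (4 * (400 + ∑ l ∈ (2 * x).primeFactors, 1 / (l : ℝ))) * C ^ 2, by positivity,
    fun Y hY => ?_⟩
  have Y4 : (4 : ℝ) ≤ Y := by exact_mod_cast (by omega : 4 ≤ Y)
  have L0 : 0 < Real.log Y := Real.log_pos (by linarith)
  have hp : ∀ y ∈ YS Y, 1 ≤ y := fun y hy => by
    have := (mem_YS.1 hy).2.1.two_le
    omega
  set A : ℕ → (l : ℕ) → Finset (ZMod l) := fun y' l =>
    {r ∈ (range l).image Nat.cast | (2 * x * y' : ZMod l) ≠ 0 ∧ Dq (2 * x * y' : ZMod l) r y' = 0} with hA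
  calc _ ≤ ∑ y' ∈ YS Y, ∑ y ∈ YS Y, Real.exp (4 * (400 + ∑ l ∈ (2 * x).primeFactors, 1 / (l : ℝ))) *
        Real.exp (4 * ∑ l ∈ pr 0 (Real.log Y / 10) with
          ((y' : ℕ) : ZMod l) ∈ ({0} : Finset (ZMod l)), 1 / ((l : ℕ) : ℝ)) *
        Real.exp (4 * ∑ l ∈ pr 0 (Real.log Y / 10) with
          ((y : ℕ) : ZMod l) ∈ A y' l, 1 / ((l : ℕ) : ℝ)) := by
        refine sum_le_sum fun y' hy' => (sum_le_sum fun y hy => ?_).trans
          (sum_le_sum_of_subset_of_nonneg (erase_subset y' _) fun _ _ _ => by positivity)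
        obtain ⟨a1, a2⟩ := mem_erase.1 hy
        have a3 := Dn_ne hx (hp y a2) (hp y' hy') a1
        have a4 := pf_tail a3 (w := Real.log Y / 10) (by positivity)
        have a5 : Real.log (Dn x y y') ≤ 20 * Real.log Y := by
          have := Real.log_le_log (by positivity) (Nat.cast_le (α := ℝ).2
            (Dn_le hY (mem_YS.1 a2).1.le (mem_YS.1 hy').1.le (by omega)))
          rwa [Nat.cast_pow, Real.log_pow] at this
        have a6 : 2 * Real.log (Dn x y y') / (Real.log Y / 10) ≤ 400 := by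
          rw [div_le_iff₀ (by positivity)]; linarith
        have a7 := sum_un (f := fun l : ℕ => 1 / (l : ℝ)) (fun _ => by positivity)
        rw [← Real.exp_add, ← Real.exp_add, ← mul_add, ← mul_add]
        gcongr
        refine le_trans (sum_le_sum_of_subset_of_nonneg (fun l hl => ?_) fun _ _ _ => by positivity)
          ((a7 _ _).trans (add_le_add_left ((a7 _ _).trans (add_le_add_left ((a7 _ _).trans
            (add_le_add_left (a4.trans a6) _)) _)) _))
        have b1 := Nat.prime_of_mem_primeFactors hl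
        have := Fact.mk b1
        have b2 := Dn_dvd.1 (Nat.dvd_of_mem_primeFactors hl)
        simp only [mem_union, mem_filter, mem_singleton, hA]
        rcases lt_or_ge (Real.log Y / 10) l with b3 | b3
        · exact .inl (.inl (.inl ⟨hl, b3⟩))
        have b4 := mem_pr.2 ⟨b1, Nat.cast_pos.2 b1.pos, b3⟩
        by_cases b5 : (2 * x * y' : ZMod l) = 0
        · refine .inl ((mul_eq_zero.1 b5).imp (fun b6 => .inr ?_) fun b6 => ⟨b4, b6⟩)
          exact Nat.mem_primeFactors.2 ⟨b1, (ZMod.natCast_eq_zero_iff _ _).1 (by simpa using b6),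
            by omega⟩
        · exact .inr ⟨b4, mem_image.2 ⟨_, mem_range.2 (ZMod.val_lt _), ZMod.natCast_zmod_val _⟩, b5,
            (mul_eq_zero.1 b2).resolve_left b5⟩
    _ ≤ ∑ y' ∈ YS Y, Real.exp (4 * (400 + ∑ l ∈ (2 * x).primeFactors, 1 / (l : ℝ))) *
        Real.exp (4 * ∑ l ∈ pr 0 (Real.log Y / 10) with
          ((y' : ℕ) : ZMod l) ∈ ({0} : Finset (ZMod l)), 1 / ((l : ℕ) : ℝ)) *
        (C * (Y / Real.log Y)) := by
        refine sum_le_sum fun y' _ => ?_
        rw [← mul_sum]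
        gcongr
        refine h Y (A y') (by omega) fun l hl => ?_
        have := Fact.mk hl
        convert card_Dq (2 * x * y' : ZMod l) y' ((range l).image Nat.cast)
    _ ≤ _ := by
        rw [← sum_mul, ← mul_sum, mul_assoc _ (C ^ 2), ← mul_pow, sq, ← mul_assoc _ (C * _)]
        gcongr
        exact h Y (fun _ => {0}) (by omega) fun l _ => by simp

end Pool.Agent.Lib.MP_f64879_nt
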