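import Pool.Agent.Lib.MP_f64879_nt.ZF

/-! Fourier separation of a smooth weight and a smooth Siegel-Walfisz bound. -/

namespace Pool.Agent.Lib.MP_f64879_nt

open Complex Finset Filter Topology Metric MeasureTheory
open scoped Real FourierTransform SchwartzMap ContDiff

/-- a bump function on `[-1, 1]` -/
noncomputable def bp : ContDiffBump (0 : ℝ) := ⟨1 / 2, 1, by norm_num, by norm_num⟩

theorem bp_zero {v : ℝ} (h : 1 ≤ |v|) : bp v = 0 := bp.zero_of_le_dist (by simpa [bp] using h)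

theorem bp_one {v : ℝ} (h : |v| ≤ 1 / 2) : bp v = 1 := bp.one_of_mem_closedBall (by simpa [bp] using h)

/-- the bump function times a power -/
noncomputable def bq (j : ℕ) : 𝓢(ℝ, ℂ) :=
  HasCompactSupport.toSchwartzMap (f := fun v : ℝ => ((v ^ j * bp v : ℝ) : ℂ))
    ((bp.hasCompactSupport.mul_left (f := fun v : ℝ => v ^ j)).comp_left (g := ofReal) rfl)
    (ofRealCLM.contDiff.comp ((contDiff_id.pow j).mul bp.contDiff))

theorem bq_apply (j : ℕ) (v : ℝ) : bq j v = (v : ℂ) ^ j * bp v := by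
  simp [bq]

theorem four_int (φ : 𝓢(ℝ, ℂ)) (m : ℕ) : Integrable fun ξ : ℝ => (1 + |ξ|) ^ m * ‖(𝓕 φ) ξ‖ := by
  simp only [add_comm (1 : ℝ), add_pow, sum_mul, one_pow, mul_one]
  refine integrable_finsetSum _ fun i _ => ?_
  refine (((𝓕 φ).integrable_pow_mul volume i).const_mul (m.choose i : ℝ)).congr
    (.of_forall fun ξ => ?_)
  simp only [Real.norm_eq_abs]
  ring

/-- a weighted norm of the Fourier transform -/
noncomputable def fI (φ : 𝓢(ℝ, ℂ)) (m : ℕ) : ℝ := ∫ ξ : ℝ, (1 + |ξ|) ^ m * ‖(𝓕 φ) ξ‖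

theorem fI_nonneg (φ : 𝓢(ℝ, ℂ)) (m : ℕ) : 0 ≤ fI φ m := integral_nonneg fun _ => by positivity

theorem norm_e (x : ℝ) : ‖cexp (x * I)‖ = 1 := norm_exp_ofReal_mul_I x

theorem four_le (φ : 𝓢(ℝ, ℂ)) {ι : Type} [Countable ι] {c : ι → ℂ} (hc : Summable fun i => ‖c i‖)
    (t : ι → ℝ) (u : ℝ) {B : ℝ} {m : ℕ}
    (h : ∀ ξ : ℝ, ‖∑' i, c i * cexp ((2 * π * ξ * t i : ℝ) * I)‖ ≤ B * (1 + |ξ|) ^ m) :
    ‖∑' i, c i * φ (t i - u)‖ ≤ B * fI φ m := by
  set F : ι → ℝ → ℂ := fun i ξ =>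
    ((𝓕 φ) ξ * cexp ((-(2 * π * ξ * u) : ℝ) * I)) * (c i * cexp ((2 * π * ξ * t i : ℝ) * I)) with hF
  have hn : ∀ i ξ, ‖F i ξ‖ = ‖c i‖ * ‖(𝓕 φ) ξ‖ := fun i ξ => by
    simp only [hF, norm_mul, norm_e]
    ring
  have hi : ∀ i, Integrable (F i) := fun i =>
    ((𝓕 φ).integrable.norm.const_mul ‖c i‖).mono'
      (Continuous.aestronglyMeasurable (by have := (𝓕 φ).continuous; fun_prop))
      (.of_forall fun ξ => (hn i ξ).le)
  have he : ∀ i, c i * φ (t i - u) = ∫ ξ, F i ξ := fun i => by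
    have h1 : φ (t i - u) = (𝓕⁻ (𝓕 φ) : 𝓢(ℝ, ℂ)) (t i - u) := by
      rw [FourierTransform.fourierInv_fourier_eq]
    rw [h1, SchwartzMap.fourierInv_coe, Real.fourierInv_eq', ← integral_const_mul]
    refine integral_congr_ae (.of_forall fun ξ => ?_)
    have : cexp ((2 * π * inner ℝ ξ (t i - u) : ℝ) * I) =
        cexp ((-(2 * π * ξ * u) : ℝ) * I) * cexp ((2 * π * ξ * t i : ℝ) * I) := by
      rw [← Complex.exp_add]
      congr 1
      simp
      ring
    simp only [hF, smul_eq_mul, this]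
    ring
  simp only [he]
  rw [integral_tsum_of_summable_integral_norm hi (by
    simpa only [hn, integral_const_mul] using hc.mul_right _), fI, ← integral_const_mul]
  refine norm_integral_le_of_norm_le ((four_int φ m).const_mul B) (.of_forall fun ξ => ?_)
  simp only [hF]
  rw [tsum_mul_left, norm_mul, norm_mul, norm_e, mul_one, mul_comm, ← mul_assoc]
  exact mul_le_mul_of_nonneg_right (h ξ) (norm_nonneg _)

theorem four_fam (φ : 𝓢(ℝ, ℂ)) {κ ι : Type} (X : Finset κ) (s : Finset ι) {w : κ → ℝ}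
    (hw : ∀ x ∈ X, 0 ≤ w x) (c : κ → ι → ℂ) (t : ι → ℝ) (u : ℝ) {B : ℝ}
    (h : ∀ ξ : ℝ, ∑ x ∈ X, w x * ‖∑ i ∈ s, c x i * cexp ((2 * π * ξ * t i : ℝ) * I)‖ ≤ B) :
    ∑ x ∈ X, w x * ‖∑ i ∈ s, c x i * φ (t i - u)‖ ≤ B * fI φ 0 := by
  have hθ : ∀ z : ℂ, ∃ θ : ℂ, ‖θ‖ ≤ 1 ∧ θ * z = ‖z‖ := fun z => by
    rcases eq_or_ne z 0 with rfl | hz
    · exact ⟨0, by simp⟩
    · exact ⟨‖z‖ / z, by simp [hz], div_mul_cancel₀ _ hz⟩
  choose θ h1 h2 using fun x => hθ (∑ i ∈ s, c x i * φ (t i - u))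
  have e : ∀ g : ι → ℂ, ∑' p : ↥(X ×ˢ s), (w p.1.1 * θ p.1.1 * c p.1.1 p.1.2) * g p.1.2 =
      ∑ x ∈ X, w x * (θ x * ∑ i ∈ s, c x i * g i) := fun g => by
    rw [Finset.tsum_subtype (X ×ˢ s) fun p => (w p.1 * θ p.1 * c p.1 p.2) * g p.2, sum_product]
    simp only [mul_sum, mul_assoc]
  have h3 := four_le φ (c := fun p : ↥(X ×ˢ s) => w p.1.1 * θ p.1.1 * c p.1.1 p.1.2)
    Summable.of_finite (fun p => t p.1.2) u (B := B) (m := 0) fun ξ => by
      rw [e fun i => cexp ((2 * π * ξ * t i : ℝ) * I), pow_zero, mul_one]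
      refine (norm_sum_le_of_le _ fun x hx => ?_).trans (h ξ)
      rw [norm_mul, norm_mul, norm_real, Real.norm_of_nonneg (hw x hx)]
      exact mul_le_mul_of_nonneg_left (mul_le_of_le_one_left (norm_nonneg _) (h1 x)) (hw x hx)
  rw [e fun i => φ (t i - u)] at h3
  simp only [h2] at h3
  refine le_trans (le_of_eq ?_) ((re_le_norm _).trans h3)
  simp

/-- the smooth weight at scale `exp u` -/
noncomputable def W (u : ℝ) (n : ℕ) : ℝ := bp (Real.log n - u) / n

/-- the length of the support of the weight -/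
noncomputable def Mx (u : ℝ) : ℕ := ⌊Real.exp (u + 1)⌋₊ + 1

theorem bp_out {u : ℝ} {n : ℕ} (h : n ∉ range (Mx u)) : bp (Real.log n - u) = 0 := by
  have h1 : Real.exp (u + 1) < n := (Nat.lt_floor_add_one _).trans_le (by
    exact_mod_cast not_lt.1 (mem_range.not.1 h))
  have h2 := (Real.lt_log_iff_exp_lt ((Real.exp_pos _).trans h1)).2 h1
  exact bp_zero (le_abs.2 (.inl (by linarith)))

theorem logMul_iter (a : ℕ → ℂ) (j n : ℕ) :
    LSeries.logMul^[j] a n = ((Real.log n : ℝ) : ℂ) ^ j * a n := by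
  induction j with
  | zero => simp
  | succ j ih =>
    rw [Function.iterate_succ_apply', LSeries.logMul, ih, natCast_log]
    ring

theorem sw {ε : ℝ} (hε : 0 < ε) (k : ℕ) : ∃ C : ℝ, 0 ≤ C ∧ ∀ (q : ℕ) [NeZero q]
    (χ : DirichletCharacter ℂ q), χ.IsPrimitive → χ ≠ 1 → ∀ u : ℝ, 0 < u →
      ‖∑ n ∈ range (Mx u), χ n * (ArithmeticFunction.vonMangoldt n * W u n : ℝ)‖ ≤
        C * (q : ℝ) ^ ε / u ^ k := by
  obtain ⟨K, hK, h⟩ := zf (ε := ε / (20 * (k + 1))) (by positivity)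
  refine ⟨∑ j ∈ range (k + 1), k.choose j *
    (j.factorial * (7 * K) ^ (20 * (j + 1)) * fI (bq (k - j)) (20 * (j + 1))),
    sum_nonneg fun j _ => by have := fI_nonneg (bq (k - j)) (20 * (j + 1)); positivity,
    fun q _ χ hp h1 u hu => ?_⟩
  set C := ∑ j ∈ range (k + 1), k.choose j *
    (j.factorial * (7 * K) ^ (20 * (j + 1)) * fI (bq (k - j)) (20 * (j + 1))) with hC
  have hq : (1 : ℝ) ≤ q := by exact_mod_cast NeZero.one_le
  set a : ℕ → ℂ := (fun n : ℕ => χ n) * fun n => (ArithmeticFunction.vonMangoldt n : ℂ) with ha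
  have a0 : a 0 = 0 := by simp [ha]
  have habs : LSeries.abscissaOfAbsConv a ≤ 1 :=
    LSeries.abscissaOfAbsConv_le_of_forall_lt_LSeriesSummable (x := 1) fun y hy =>
      χ.LSeriesSummable_twist_vonMangoldt (by simpa using hy)
  have key : ∀ σ : ℝ, 1 < σ → σ ≤ 2 →
      ‖∑ n ∈ range (Mx u), a n / (n : ℂ) ^ (σ : ℂ) * bp (Real.log n - u)‖ ≤
        C * (q : ℝ) ^ ε / u ^ k := by
    intro σ h2 h3
    have hj : ∀ j ∈ range (k + 1), ‖∑ n ∈ range (Mx u), LSeries.term (LSeries.logMul^[j] a) σ n *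
        bq (k - j) (Real.log n - u)‖ ≤ j.factorial * (7 * K) ^ (20 * (j + 1)) * (q : ℝ) ^ ε *
          fI (bq (k - j)) (20 * (j + 1)) := fun j hj => by
      have hs : LSeriesSummable (LSeries.logMul^[j] a) σ :=
        LSeriesSummable_of_abscissaOfAbsConv_lt_re (by
          rw [LSeries.absicssaOfAbsConv_logPowMul]
          exact habs.trans_lt (by exact_mod_cast h2))
      rw [← tsum_eq_sum (L := .unconditional ℕ) fun n hn => by rw [bq_apply, bp_out hn]; simp]
      refine four_le _ hs.norm (fun n => Real.log n) u fun ξ => ?_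
      set s : ℂ := σ - (2 * π * ξ : ℝ) * I with hs'
      have e : ∀ n : ℕ, LSeries.term (LSeries.logMul^[j] a) σ n *
          cexp ((2 * π * ξ * Real.log n : ℝ) * I) = LSeries.term (LSeries.logMul^[j] a) s n := by
        intro n
        rcases eq_or_ne n 0 with rfl | hn
        · simp
        have hn' : (n : ℂ) ≠ 0 := by exact_mod_cast hn
        rw [LSeries.term_of_ne_zero hn, LSeries.term_of_ne_zero hn, hs', cpow_sub _ _ hn',
          div_div_eq_mul_div, div_mul_eq_mul_div, cpow_def_of_ne_zero hn' (_ * I), ← natCast_log]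
        congr 3
        push_cast
        ring
      simp only [e]
      refine (h q χ hp h1 s (by simpa [hs'] using h2) (by simpa [hs'] using h3) j).trans ?_
      have b1 : ‖s‖ + 2 ≤ 7 * (1 + |ξ|) := by
        have := norm_sub_le (σ : ℂ) ((2 * π * ξ : ℝ) * I)
        rw [norm_mul, norm_I, mul_one, norm_real, norm_real, Real.norm_of_nonneg (by linarith),
          Real.norm_eq_abs, abs_mul, abs_of_pos Real.two_pi_pos] at this
        nlinarith [Real.pi_lt_d2, abs_nonneg ξ]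
      have b2 : ((q : ℝ) ^ (ε / (20 * (k + 1)))) ^ (20 * (j + 1)) ≤ (q : ℝ) ^ ε := by
        rw [← Real.rpow_mul_natCast (by linarith)]
        refine Real.rpow_le_rpow_of_exponent_le hq ?_
        have : (j : ℝ) ≤ k := by exact_mod_cast Nat.lt_succ_iff.1 (mem_range.1 hj)
        rw [div_mul_eq_mul_div, div_le_iff₀ (by positivity)]
        push_cast
        gcongr
      calc _ ≤ j.factorial * (K * (q : ℝ) ^ (ε / (20 * (k + 1))) * (7 * (1 + |ξ|))) ^ (20 * (j + 1)) := by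
            gcongr
        _ = j.factorial * (7 * K) ^ (20 * (j + 1)) *
            ((q : ℝ) ^ (ε / (20 * (k + 1)))) ^ (20 * (j + 1)) * (1 + |ξ|) ^ (20 * (j + 1)) := by
            simp only [mul_pow]; ring
        _ ≤ _ := by gcongr
    have e : (u : ℂ) ^ k * ∑ n ∈ range (Mx u), a n / (n : ℂ) ^ (σ : ℂ) * bp (Real.log n - u) =
        ∑ j ∈ range (k + 1), (k.choose j * (-1) ^ (k - j)) * ∑ n ∈ range (Mx u),
          LSeries.term (LSeries.logMul^[j] a) σ n * bq (k - j) (Real.log n - u) := by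
      simp only [mul_sum]
      rw [sum_comm]
      refine sum_congr rfl fun n _ => ?_
      rcases eq_or_ne n 0 with rfl | hn
      · simp [a0]
      rw [show (u : ℂ) = (Real.log n : ℝ) + -((Real.log n - u : ℝ) : ℂ) by push_cast; ring, add_pow,
        sum_mul]
      refine sum_congr rfl fun j _ => ?_
      rw [LSeries.term_of_ne_zero hn, logMul_iter, bq_apply, neg_pow]
      ring
    have e2 := congrArg norm e
    rw [norm_mul, norm_pow, norm_real, Real.norm_of_nonneg hu.le] at e2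
    rw [le_div_iff₀' (by positivity), e2, hC, sum_mul]
    refine norm_sum_le_of_le _ fun j hj' => ?_
    rw [norm_mul, norm_mul, norm_pow, norm_neg, norm_one, one_pow, mul_one, Complex.norm_natCast]
    exact (mul_le_mul_of_nonneg_left (hj j hj') (Nat.cast_nonneg _)).trans_eq (by ring)
  have hc : ContinuousAt (fun σ : ℝ =>
      ‖∑ n ∈ range (Mx u), a n / (n : ℂ) ^ (σ : ℂ) * bp (Real.log n - u)‖) 1 := by
    refine (tendsto_finsetSum _ fun n _ => ?_).norm
    rcases eq_or_ne n 0 with rfl | hn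
    · simp [a0]
    have hn' : (n : ℂ) ≠ 0 := by exact_mod_cast hn
    exact ((continuous_const.div (continuous_ofReal.const_cpow (.inl hn')) fun σ => by
      simp [hn]).mul continuous_const).tendsto 1
  have h5 := le_of_tendsto (hc.tendsto.mono_left (nhdsWithin_le_nhds (s := Set.Ioi 1)))
    (by filter_upwards [Ioc_mem_nhdsGT (show (1 : ℝ) < 2 by norm_num)] with σ hσ
        using key σ hσ.1 hσ.2)
  refine le_trans (le_of_eq (congrArg norm (sum_congr rfl fun n _ => ?_))) h5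
  simp only [ha, W, Pi.mul_apply, ofReal_one, cpow_one]
  push_cast
  ring

end Pool.Agent.Lib.MP_f64879_nt
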