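import Pool.Agent.Lib.MP_f64879_nt.Est

/-! Siegel's lower bound for `L(1, χ)`. -/

namespace Pool.Agent.Lib.MP_f64879_nt

open Complex Finset Filter Topology Metric DirichletCharacter MP_164d34_nt MP_164d34_nt.Fam
open scoped ComplexOrder ComplexConjugate

theorem L_small {ε : ℝ} (h0 : 0 < ε) (h1 : ε ≤ 1 / 2) : ∃ C : ℝ, 1 ≤ C ∧
    ∀ (q : ℕ) [NeZero q] (χ : DirichletCharacter ℂ q), χ ≠ 1 → ∀ s : ℂ, 1 - ε ≤ s.re →
      ‖χ.LFunction s‖ ≤ C * (q : ℝ) ^ (2 * ε) * ‖s‖ := by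
  have hs := zb_summable h0
  refine ⟨max 1 (∑' n : ℕ, ((n : ℝ) + 1) ^ (-ε - 1)), le_max_left _ _, fun q _ χ hχ s hre => ?_⟩
  rw [lb_eq hχ (by linarith)]
  refine (tsum_of_norm_bounded (hs.hasSum.mul_left ((q : ℝ) ^ (2 * ε) * ‖s‖)) fun n => ?_).trans ?_
  · have a1 := lb_partial hχ (n + 1)
    have a2 : ‖∑ m ∈ range (n + 1), χ (m + 1)‖ ≤ (n : ℝ) + 1 :=
      (norm_sum_le_of_le _ fun _ _ => χ.norm_le_one _).trans (by simp)
    have a3 : ‖∑ m ∈ range (n + 1), χ (m + 1)‖ ≤ ((n : ℝ) + 1) ^ (1 - 2 * ε) * (q : ℝ) ^ (2 * ε) := by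
      set x := ‖∑ m ∈ range (n + 1), χ (m + 1)‖
      have hx : 0 ≤ x := norm_nonneg _
      calc x = x ^ (1 - 2 * ε) * x ^ (2 * ε) := by
            rw [← Real.rpow_add' hx (by norm_num)]; simp
        _ ≤ _ := by gcongr; linarith
    have a4 : (0 : ℝ) < n + 1 := by positivity
    rw [lbTerm, norm_mul]
    calc _ ≤ (((n : ℝ) + 1) ^ (1 - 2 * ε) * (q : ℝ) ^ (2 * ε)) * (‖s‖ * ((n : ℝ) + 1) ^ (-s.re - 1)) :=
          mul_le_mul a3 (zb_step (by linarith) a4 ⟨by linarith, le_rfl⟩) (norm_nonneg _)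
            (by positivity)
      _ = (q : ℝ) ^ (2 * ε) * ‖s‖ * ((n : ℝ) + 1) ^ (1 - 2 * ε + (-s.re - 1)) := by
          rw [Real.rpow_add a4]; ring
      _ ≤ _ := by
          gcongr
          · linarith [n.cast_nonneg (α := ℝ)]
          · linarith
  · rw [mul_comm, mul_assoc]
    gcongr
    exact le_max_right _ _

theorem fin_min (Q : ℕ) : ∃ c : ℝ, 0 < c ∧ ∀ (q : ℕ) [NeZero q], q ≤ Q →
    ∀ χ : DirichletCharacter ℂ q, χ ≠ 1 → c ≤ ‖χ.LFunction 1‖ := by
  induction Q with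
  | zero => exact ⟨1, one_pos, fun q _ h => absurd (Nat.le_zero.1 h) (NeZero.ne q)⟩
  | succ Q ih =>
    obtain ⟨c, hc, h⟩ := ih
    obtain ⟨χ₀, h₀⟩ := Finite.exists_min fun χ : DirichletCharacter ℂ (Q + 1) =>
      if χ = 1 then 1 else ‖χ.LFunction 1‖
    refine ⟨min c (if χ₀ = 1 then 1 else ‖χ₀.LFunction 1‖), lt_min hc ?_, fun q _ hq χ hχ => ?_⟩
    · split_ifs with e
      · exact one_pos
      · exact norm_pos_iff.2 (LFunction_apply_one_ne_zero e)
    · rcases Nat.of_le_succ hq with hq | rfl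
      · exact (min_le_left _ _).trans (h q hq χ hχ)
      · exact (min_le_right _ _).trans ((h₀ χ).trans_eq (if_neg hχ))

theorem quad_val {q : ℕ} {χ : DirichletCharacter ℂ q} (h : χ ^ 2 = 1) (a : ZMod q) :
    ∃ x : ℝ, -1 ≤ x ∧ χ a = x := by
  rcases MulChar.isQuadratic_iff_sq_eq_one.mpr h a with h | h | h
  · exact ⟨0, by norm_num, by simp [h]⟩
  · exact ⟨1, by norm_num, by simp [h]⟩
  · exact ⟨-1, le_rfl, by simp [h]⟩

theorem L_real {q : ℕ} [NeZero q] {χ : DirichletCharacter ℂ q} (h1 : χ ≠ 1) (h : χ ^ 2 = 1) {x : ℝ}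
    (hx : 1 / 20 < x) : conj (χ.LFunction x) = χ.LFunction x := by
  rw [lb_eq h1 (by simpa using hx), Complex.conj_tsum]
  refine tsum_congr fun n => ?_
  have e : ∀ y : ℝ, 0 ≤ y → conj ((y : ℂ) ^ (-(x : ℂ))) = (y : ℂ) ^ (-(x : ℂ)) := fun y hy => by
    rw [← ofReal_neg, ← ofReal_cpow hy, conj_ofReal]
  rw [lbTerm, map_mul, map_sub, e _ (by positivity), e _ (by positivity), map_sum]
  congr 1
  refine sum_congr rfl fun m _ => ?_
  obtain ⟨y, -, hy⟩ := quad_val h (m + 1)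
  rw [hy, conj_ofReal]

/-- the function `(s - 1) ζ(s)` -/
noncomputable def z1 : ℂ → ℂ := LFunctionTrivChar₁ 1

theorem z1_diff : Differentiable ℂ z1 := differentiable_LFunctionTrivChar₁ 1

theorem z1_one : z1 1 = 1 := by simp [z1]

theorem z1_ne {s : ℂ} (hs : s ≠ 1) :
    z1 s = (s - 1) * (1 : DirichletCharacter ℂ 1).LFunction s := by
  rw [z1, LFunctionTrivChar₁, Function.update_of_ne hs]

theorem z1_real (x : ℝ) : conj (z1 x) = z1 x := by
  rcases eq_or_ne (x : ℂ) 1 with h | h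
  · simp [h, z1_one]
  · rw [z1_ne h, LFunction_modOne_eq, map_mul, ← riemannZeta_conj]
    simp

theorem z1_near : ∃ δ : ℝ, 0 < δ ∧ ∀ x : ℝ, 1 - δ ≤ x → z1 x ≠ 0 := by
  have h := z1_diff.continuous.continuousAt.eventually_ne (x := 1) (y := 0) (by simp [z1_one])
  obtain ⟨δ, hδ, h⟩ := Metric.eventually_nhds_iff.1 h
  refine ⟨δ / 2, by linarith, fun x hx => ?_⟩
  rcases le_or_gt x 1 with h1 | h1
  · refine h ?_
    rw [dist_eq, show (x : ℂ) - 1 = ((x - 1 : ℝ) : ℂ) by push_cast; ring, norm_real,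
      Real.norm_eq_abs, abs_lt]
    constructor <;> linarith
  · have h2 : (x : ℂ) ≠ 1 := by exact_mod_cast h1.ne'
    rw [z1_ne h2, LFunction_modOne_eq]
    exact mul_ne_zero (sub_ne_zero.2 h2) (riemannZeta_ne_zero_of_one_lt_re (by simpa using h1))

theorem ball_bound : ∃ K : ℝ, 1 ≤ K ∧ (∀ s ∈ closedBall (2 : ℂ) (3 / 2), ‖z1 s‖ ≤ K) ∧
    ∀ (q : ℕ) [NeZero q] (χ : DirichletCharacter ℂ q), χ ≠ 1 →
      ∀ s ∈ closedBall (2 : ℂ) (3 / 2), ‖χ.LFunction s‖ ≤ K * q := by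
  obtain ⟨K, hK⟩ := (isCompact_closedBall (2 : ℂ) (3 / 2)).exists_bound_of_continuousOn
    z1_diff.continuous.continuousOn
  obtain ⟨C, hC, h⟩ := L_upper
  refine ⟨max 1 (max K (4 * C)), le_max_left _ _,
    fun s hs => (hK s hs).trans ((le_max_left _ _).trans (le_max_right _ _)),
    fun q _ χ hχ s hs => ?_⟩
  rw [mem_closedBall, dist_eq] at hs
  have a1 := (abs_le.1 ((abs_re_le_norm _).trans hs)).1
  have a2 := norm_sub_norm_le s 2
  simp only [sub_re, re_ofNat, Complex.norm_ofNat] at a1 a2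
  calc _ ≤ C * q * 4 := (h q χ hχ s (by linarith)).trans (by gcongr; linarith)
    _ = 4 * C * q := by ring
    _ ≤ _ := by gcongr; exact (le_max_right _ _).trans (le_max_right _ _)

theorem chP_one (n : ℕ) :
    chP (1 : DirichletCharacter ℂ 1) n = (ArithmeticFunction.vonMangoldt n : ℝ) := by
  rw [chP_apply, MulChar.one_apply (isUnit_of_subsingleton _), one_mul]

theorem case_one {K δ : ℝ} (hK : 1 ≤ K) (hz : ∀ s ∈ closedBall (2 : ℂ) (3 / 2), ‖z1 s‖ ≤ K)
    (h0 : 0 < δ) (h8 : δ ≤ 1 / 8) (hn : ∀ x : ℝ, 1 - δ ≤ x → z1 x ≠ 0) {q : ℕ} [NeZero q]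
    {χ : DirichletCharacter ℂ q} (h1 : χ ≠ 1) (h2 : χ ^ 2 = 1)
    (hL : ∀ s ∈ closedBall (2 : ℂ) (3 / 2), ‖χ.LFunction s‖ ≤ K * q)
    (hβ : ∀ x : ℝ, 1 - δ ≤ x → x < 1 → χ.LFunction x ≠ 0) :
    δ / 4 * (32 * (K * (K * q))) ^ (-(4 * δ)) ≤ ‖χ.LFunction 1‖ := by
  set c := chA (1 : DirichletCharacter ℂ 1) * chA χ with hc
  have c1 : c 1 = 1 := by simp [hc, chA_one]
  have c0 : 0 ≤ (c : ℕ → ℂ) := ((logD_ch 1).mul (logD_ch χ)).nonneg c1 (fun n => by
    obtain ⟨x, hx, e⟩ := quad_val h2 n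
    rw [ArithmeticFunction.add_apply, chP_one, chP_apply, e]
    have := ArithmeticFunction.vonMangoldt_nonneg (n := n)
    exact_mod_cast (by nlinarith : 0 ≤ ArithmeticFunction.vonMangoldt n + x * _))
    (by simp [chP_apply])
  have cs : ∀ s : ℂ, 1 < s.re → LSeriesSummable c s := fun s hs =>
    ArithmeticFunction.LSeriesSummable_mul (chA_summable _ hs) (chA_summable _ hs)
  set G : ℂ → ℂ := fun s => z1 s * χ.LFunction s with hG
  have Gd : Differentiable ℂ G := z1_diff.mul (χ.differentiable_LFunction h1)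
  have GF : ∀ s : ℂ, 1 < s.re → G s = (s - 1) * LSeries c s := fun s hs => by
    rw [hc, ArithmeticFunction.LSeries_mul' (chA_summable _ hs) (chA_summable _ hs),
      chA_LSeries _ hs, chA_LSeries _ hs, hG, ← mul_assoc, ← z1_ne fun h => by simp [h] at hs]
  have hq : (1 : ℝ) ≤ q := by exact_mod_cast NeZero.one_le
  have hre : 0 ≤ (G (1 - δ : ℝ)).re := by
    by_contra hlt
    have g2 : 0 ≤ (G (2 : ℝ)).re := by
      have := one_le_re c0 c1 (cs 2 (by simp))
      rw [ofReal_ofNat, GF 2 (by simp)]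
      norm_num
      linarith
    obtain ⟨x, hx, e⟩ := intermediate_value_Icc (show 1 - δ ≤ 2 by linarith)
      (f := fun x : ℝ => (G x).re)
      (continuous_re.comp (Gd.continuous.comp continuous_ofReal)).continuousOn
      (show (0 : ℝ) ∈ Set.Icc _ _ from ⟨(not_le.1 hlt).le, g2⟩)
    have e2 : conj (G x) = G x := by
      rw [hG, map_mul, z1_real, L_real h1 h2 (by linarith [hx.1])]
    refine mul_ne_zero (hn x hx.1) ?_ (Complex.ext e (conj_eq_iff_im.1 e2))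
    rcases lt_or_ge x 1 with h | h
    · exact hβ x hx.1 h
    · exact χ.LFunction_ne_zero_of_one_le_re (.inl h1) (by simpa using h)
  have h := estermann c0 c1 cs Gd GF (M := K * (K * q)) (one_le_mul_of_one_le_of_one_le hK
    (one_le_mul_of_one_le_of_one_le hK hq)) (fun s hs => by
      rw [hG, norm_mul]
      exact mul_le_mul (hz s hs) (hL s hs) (norm_nonneg _) (by linarith))
    (β := 1 - δ) (by linarith) (by linarith) hre
  simp only [hG, z1_one, one_mul, sub_sub_cancel] at h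
  exact h.trans (re_le_norm _)

theorem case_two {K β : ℝ} (hK : 1 ≤ K) (hz : ∀ s ∈ closedBall (2 : ℂ) (3 / 2), ‖z1 s‖ ≤ K)
    (h7 : 7 / 8 ≤ β) (hβ : β < 1) {q r t : ℕ} [NeZero q] [NeZero r] [NeZero t]
    {χ : DirichletCharacter ℂ q} {ψ : DirichletCharacter ℂ r} {ω : DirichletCharacter ℂ t}
    (h1 : χ ≠ 1) (h2 : χ ^ 2 = 1) (k1 : ψ ≠ 1) (k2 : ψ ^ 2 = 1) (l1 : ω ≠ 1)
    (hω : ∀ n : ℕ, ω n = χ n * ψ n)
    (hL : ∀ (q : ℕ) [NeZero q] (χ : DirichletCharacter ℂ q), χ ≠ 1 →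
      ∀ s ∈ closedBall (2 : ℂ) (3 / 2), ‖χ.LFunction s‖ ≤ K * q) (h0 : χ.LFunction β = 0) :
    (1 - β) / 4 * (32 * (K * (K * q) * (K * r) * (K * t))) ^ (-(4 * (1 - β))) ≤
      ‖χ.LFunction 1‖ * ‖ψ.LFunction 1‖ * ‖ω.LFunction 1‖ := by
  set c := chA (1 : DirichletCharacter ℂ 1) * chA χ * chA ψ * chA ω with hc
  have c1 : c 1 = 1 := by simp [hc, chA_one]
  have c0 : 0 ≤ (c : ℕ → ℂ) := ((((logD_ch 1).mul (logD_ch χ)).mul (logD_ch ψ)).mul
    (logD_ch ω)).nonneg c1 (fun n => by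
      obtain ⟨x, hx, e⟩ := quad_val h2 n
      obtain ⟨y, hy, e'⟩ := quad_val k2 n
      simp only [ArithmeticFunction.add_apply]
      rw [chP_one, chP_apply, chP_apply, chP_apply, hω, e, e']
      have := mul_nonneg (mul_nonneg (show 0 ≤ 1 + x by linarith) (show 0 ≤ 1 + y by linarith))
        (ArithmeticFunction.vonMangoldt_nonneg (n := n))
      exact_mod_cast (by linarith : 0 ≤ ArithmeticFunction.vonMangoldt n + x * _ + y * _ + x * y * _))
    (by simp [chP_apply])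
  have s2 := fun (s : ℂ) (hs : 1 < s.re) => ArithmeticFunction.LSeriesSummable_mul
    (chA_summable (1 : DirichletCharacter ℂ 1) hs) (chA_summable χ hs)
  have s3 := fun (s : ℂ) (hs : 1 < s.re) =>
    ArithmeticFunction.LSeriesSummable_mul (s2 s hs) (chA_summable ψ hs)
  have hq : (1 : ℝ) ≤ q := by exact_mod_cast NeZero.one_le
  have hr : (1 : ℝ) ≤ r := by exact_mod_cast NeZero.one_le
  have ht : (1 : ℝ) ≤ t := by exact_mod_cast NeZero.one_le
  have o : ∀ {a b : ℝ}, 1 ≤ a → 1 ≤ b → 1 ≤ a * b := one_le_mul_of_one_le_of_one_le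
  have h := estermann c0 c1
    (fun s hs => ArithmeticFunction.LSeriesSummable_mul (s3 s hs) (chA_summable ω hs))
    (G := fun s => z1 s * χ.LFunction s * ψ.LFunction s * ω.LFunction s)
    (((z1_diff.mul (χ.differentiable_LFunction h1)).mul (ψ.differentiable_LFunction k1)).mul
      (ω.differentiable_LFunction l1))
    (fun s hs => by
      rw [hc, ArithmeticFunction.LSeries_mul' (s3 s hs) (chA_summable _ hs),
        ArithmeticFunction.LSeries_mul' (s2 s hs) (chA_summable _ hs),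
        ArithmeticFunction.LSeries_mul' (chA_summable _ hs) (chA_summable _ hs),
        chA_LSeries _ hs, chA_LSeries _ hs, chA_LSeries _ hs, chA_LSeries _ hs,
        z1_ne fun h => by simp [h] at hs]
      ring)
    (M := K * (K * q) * (K * r) * (K * t)) (o (o (o hK (o hK hq)) (o hK hr)) (o hK ht))
    (fun s hs => by
      have := hz s hs
      have := hL q χ h1 s hs
      have := hL r ψ k1 s hs
      have := hL t ω l1 s hs
      simp only [norm_mul]
      gcongr) h7 hβ (by simp [h0])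
  simp only [z1_one, one_mul] at h
  exact h.trans ((re_le_norm _).trans_eq (by simp only [norm_mul]))

theorem siegel {ε : ℝ} (hε : 0 < ε) : ∃ c : ℝ, 0 < c ∧ ∀ (q : ℕ) [NeZero q]
    (χ : DirichletCharacter ℂ q), χ.IsPrimitive → χ ≠ 1 → χ ^ 2 = 1 →
      c * (q : ℝ) ^ (-ε) ≤ ‖χ.LFunction 1‖ := by
  obtain ⟨K, hK, hz, hL⟩ := ball_bound
  obtain ⟨δ₀, hδ₀, hn⟩ := z1_near
  set δ := min (min δ₀ (1 / 8)) (ε / 10) with hδ
  have d0 : 0 < δ := by positivity
  have d1 : δ ≤ δ₀ := (min_le_left _ _).trans (min_le_left _ _)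
  have d2 : δ ≤ 1 / 8 := (min_le_left _ _).trans (min_le_right _ _)
  have d3 : δ ≤ ε / 10 := min_le_right _ _
  by_cases H : ∃ (r : ℕ) (_ : NeZero r) (ψ : DirichletCharacter ℂ r) (β : ℝ), ψ ≠ 1 ∧ ψ ^ 2 = 1 ∧
      1 - δ ≤ β ∧ β < 1 ∧ ψ.LFunction β = 0
  · obtain ⟨r, _, ψ, β, k1, k2, b1, b2, b3⟩ := H
    obtain ⟨c, hc, hmin⟩ := fin_min r
    obtain ⟨C, hC, hsm⟩ := L_small d0 (by linarith)
    have hr : (1 : ℝ) ≤ r := by exact_mod_cast NeZero.one_le
    have hψ : 0 < ‖ψ.LFunction 1‖ := norm_pos_iff.2 (LFunction_apply_one_ne_zero k1)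
    have hb : 0 < 1 - β := by linarith
    set A := 32 * K ^ 4 * (r : ℝ) ^ 2 with hA
    have A1 : 1 ≤ A := by
      have := one_le_pow₀ (n := 4) hK
      have := one_le_pow₀ (n := 2) hr
      nlinarith
    refine ⟨min c ((1 - β) / 4 * A ^ (-(4 * δ)) / (‖ψ.LFunction 1‖ * (C * (r : ℝ) ^ (2 * δ)))),
      by positivity, fun q _ χ hp h1 h2 => ?_⟩
    have hq : (1 : ℝ) ≤ q := by exact_mod_cast NeZero.one_le
    rcases le_or_gt q r with hqr | hqr
    · refine le_trans ?_ (hmin q hqr χ h1)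
      exact (mul_le_of_le_one_right (by positivity)
        (Real.rpow_le_one_of_one_le_of_nonpos hq (by linarith))).trans (min_le_left _ _)
    set a := changeLevel (dvd_mul_right r q) ψ with ha
    set b := changeLevel (dvd_mul_left q r) χ with hb'
    have l1 : a * b ≠ 1 := fun e => by
      have e2 : b = a⁻¹ := (inv_eq_of_mul_eq_one_right e).symm
      have e3 := congrArg conductor e2
      rw [conductor_inv, ha, hb', conductor_changeLevel, conductor_changeLevel, hp] at e3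
      exact absurd (Nat.le_of_dvd (NeZero.pos r) (e3 ▸ ψ.conductor_dvd_level)) (by omega)
    have hω : ∀ n : ℕ, (a * b) n = ψ n * χ n := fun n => by
      rw [MulChar.mul_apply]
      by_cases hn : IsCoprime (n : ℤ) (r * q : ℕ)
      · have e1 := ψ.changeLevel_eq_cast_of_dvd' (dvd_mul_right r q) hn
        have e2 := χ.changeLevel_eq_cast_of_dvd' (dvd_mul_left q r) hn
        simp only [Int.cast_natCast] at e1 e2
        rw [ha, hb', e1, e2]
      · have e1 := (a.apply_eq_zero_iff n).2 hn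
        rw [Nat.cast_mul, IsCoprime.mul_right_iff, not_and_or, ← ψ.apply_eq_zero_iff,
          ← χ.apply_eq_zero_iff] at hn
        simp only [Int.cast_natCast] at e1 hn
        rw [e1, zero_mul, eq_comm, mul_eq_zero]
        exact hn
    have h := case_two hK hz (by linarith) b2 k1 k2 h1 h2 l1 hω hL b3
    have h3 := hsm _ _ l1 1 (by simp [d0.le])
    rw [norm_one, mul_one, Nat.cast_mul, Real.mul_rpow (by positivity) (by positivity)] at h3
    have h4 : A ^ (-(4 * δ)) * (q : ℝ) ^ (-(8 * δ)) ≤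
        (32 * (K * (K * r) * (K * q) * (K * (r * q : ℕ)))) ^ (-(4 * (1 - β))) := by
      rw [show (32 * (K * (K * r) * (K * q) * (K * (r * q : ℕ)))) = A * (q : ℝ) ^ (2 : ℝ) by
        rw [hA, Real.rpow_two]; push_cast; ring, show -(8 * δ) = 2 * -(4 * δ) by ring,
        Real.rpow_mul (by positivity), ← Real.mul_rpow (by positivity) (by positivity)]
      exact Real.rpow_le_rpow_of_exponent_le (one_le_mul_of_one_le_of_one_le A1
        (Real.one_le_rpow hq (by norm_num))) (by linarith)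
    have h5 : (q : ℝ) ^ (-ε) * (q : ℝ) ^ (2 * δ) ≤ (q : ℝ) ^ (-(8 * δ)) := by
      rw [← Real.rpow_add (by linarith)]
      exact Real.rpow_le_rpow_of_exponent_le hq (by linarith)
    refine (mul_le_mul_of_nonneg_right (min_le_right _ _) (by positivity)).trans ?_
    rw [div_mul_eq_mul_div, div_le_iff₀ (by positivity)]
    refine le_of_mul_le_mul_right ?_ (show 0 < (q : ℝ) ^ (2 * δ) by positivity)
    calc _ = (1 - β) / 4 * (A ^ (-(4 * δ)) * ((q : ℝ) ^ (-ε) * (q : ℝ) ^ (2 * δ))) := by ring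
      _ ≤ (1 - β) / 4 * (A ^ (-(4 * δ)) * (q : ℝ) ^ (-(8 * δ))) := by gcongr
      _ ≤ _ := mul_le_mul_of_nonneg_left h4 (by positivity)
      _ ≤ _ := h
      _ ≤ ‖ψ.LFunction 1‖ * ‖χ.LFunction 1‖ * (C * ((r : ℝ) ^ (2 * δ) * (q : ℝ) ^ (2 * δ))) := by
          gcongr
      _ = _ := by ring
  · push Not at H
    refine ⟨δ / 4 * (32 * K ^ 2) ^ (-(4 * δ)), by positivity, fun q _ χ _ h1 h2 => ?_⟩
    have hq : (1 : ℝ) ≤ q := by exact_mod_cast NeZero.one_le
    refine le_trans ?_ (case_one hK hz d0 d2 (fun x hx => hn x (by linarith)) h1 h2 (hL q χ h1)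
      fun x => H q _ χ x h1 h2)
    rw [show 32 * (K * (K * q)) = 32 * K ^ 2 * q by ring,
      Real.mul_rpow (x := 32 * K ^ 2) (by positivity) (by positivity), ← mul_assoc]
    gcongr
    linarith

end Pool.Agent.Lib.MP_f64879_nt
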