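import Pool.Agent.Lib.MP_f64879_nt.LS
import Pool.Agent.Lib.MP_f64879_nt.SW
import Pool.Agent.Lib.MP_164d34_nt.Fam.Mertens2

/-! Type I and type II sums. -/

namespace Pool.Agent.Lib.MP_f64879_nt

open Complex Finset Pool.Agent.Lib.MP_164d34_nt.Fam
open scoped Real

theorem conv_gen {R : Type} [AddCommMonoid R] (G : ℕ × ℕ → R) (M : ℕ) :
    ∑ n ∈ range M, ∑ p ∈ n.divisorsAntidiagonal, G p =
      ∑ p ∈ range M ×ˢ range M with p.1 * p.2 ≠ 0 ∧ p.1 * p.2 < M, G p := by
  rw [← sum_fiberwise_of_maps_to (s := filter _ _) (t := range M)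
    (g := fun p : ℕ × ℕ => p.1 * p.2) fun p hp => mem_range.2 (mem_filter.1 hp).2.2]
  refine sum_congr rfl fun n hn => sum_congr ?_ fun _ _ => rfl
  ext ⟨a, b⟩
  have := mem_range.1 hn
  simp only [Nat.mem_divisorsAntidiagonal, mem_filter, mem_product, mem_range]
  constructor
  · rintro ⟨rfl, h⟩
    have h1 := Nat.le_mul_of_pos_right a (Nat.pos_of_ne_zero (right_ne_zero_of_mul h))
    have h2 := Nat.le_mul_of_pos_left b (Nat.pos_of_ne_zero (left_ne_zero_of_mul h))
    exact ⟨⟨⟨by omega, by omega⟩, h, this⟩, rfl⟩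
  · rintro ⟨⟨_, h, _⟩, rfl⟩
    exact ⟨rfl, h⟩

theorem conv_le {G : ℕ × ℕ → ℝ} (hG : ∀ p, 0 ≤ G p) (M : ℕ) :
    ∑ n ∈ range M, ∑ p ∈ n.divisorsAntidiagonal, G p ≤ ∑ a ∈ range M, ∑ b ∈ range M, G (a, b) := by
  rw [conv_gen, ← sum_product]
  exact sum_le_sum_of_subset_of_nonneg (filter_subset _ _) fun p _ _ => hG p

theorem conv_sum (α β : ArithmeticFunction ℝ) {F : ℕ → ℂ} {M : ℕ} (hF : ∀ n, n ∉ range M → F n = 0) :
    ∑ n ∈ range M, ((α * β) n : ℝ) * F n =
      ∑ p ∈ range M ×ˢ range M, (α p.1 * β p.2 : ℝ) * F (p.1 * p.2) := by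
  rw [← sum_subset (filter_subset (fun p : ℕ × ℕ => p.1 * p.2 ≠ 0 ∧ p.1 * p.2 < M) _)
    fun p hp h => ?_, ← conv_gen]
  · refine sum_congr rfl fun n _ => ?_
    rw [ArithmeticFunction.mul_apply, ofReal_sum, sum_mul]
    exact sum_congr rfl fun p hp => by rw [(Nat.mem_divisorsAntidiagonal.1 hp).1]
  · rw [mem_filter, not_and, not_and] at h
    by_cases h0 : p.1 * p.2 = 0
    · rcases mul_eq_zero.1 h0 with e | e <;> simp [e]
    · rw [hF _ (mem_range.not.2 (h hp h0)), mul_zero]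

theorem tau_eq (n : ℕ) (c : ℝ) : #n.divisors * c = ∑ _p ∈ n.divisorsAntidiagonal, c := by
  rw [Nat.sum_divisorsAntidiagonal fun _ _ => c, sum_const, nsmul_eq_mul]

theorem tau_one (M : ℕ) : ∑ n ∈ range M, (#n.divisors : ℝ) / n ≤ (Real.log M + 1) ^ 2 := by
  have h := sum_inv_le M
  have h0 : 0 ≤ ∑ n ∈ range M, (n : ℝ)⁻¹ := sum_nonneg fun _ _ => by positivity
  refine le_trans (le_of_eq ?_) ((conv_le (G := fun p => (p.1 : ℝ)⁻¹ * (p.2 : ℝ)⁻¹)
    (fun p => by positivity) M).trans ?_)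
  · refine sum_congr rfl fun n _ => ?_
    rw [div_eq_mul_inv, tau_eq]
    exact sum_congr rfl fun p hp => by
      rw [← (Nat.mem_divisorsAntidiagonal.1 hp).1, Nat.cast_mul, mul_inv]
  · dsimp only
    rw [← sum_mul_sum, ← sq]
    gcongr

theorem tau_two (M : ℕ) : ∑ n ∈ range M, (#n.divisors : ℝ) ^ 2 / n ≤ (Real.log M + 1) ^ 4 := by
  have h := tau_one M
  have h0 : 0 ≤ ∑ n ∈ range M, (#n.divisors : ℝ) / n := sum_nonneg fun _ _ => by positivity
  refine le_trans ?_ ((conv_le (G := fun p => (#p.1.divisors : ℝ) / p.1 * (#p.2.divisors / p.2))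
    (fun p => by positivity) M).trans ?_)
  · refine sum_le_sum fun n _ => ?_
    rw [sq, mul_div_assoc, tau_eq]
    refine sum_le_sum fun p hp => ?_
    rw [← (Nat.mem_divisorsAntidiagonal.1 hp).1, div_mul_div_comm, Nat.cast_mul]
    gcongr
    rw [Nat.divisors_mul]
    exact_mod_cast card_mul_le
  · dsimp only
    rw [← sum_mul_sum, ← sq, show 4 = 2 * 2 from rfl, pow_mul]
    gcongr

theorem abel {q : ℕ} [NeZero q] {χ : DirichletCharacter ℂ q} (h1 : χ ≠ 1) (Φ : ℝ → ℝ) (M : ℕ)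
    {K B : ℝ} (hK : 0 ≤ K) (hB : ∀ x, 0 ≤ x → x ≤ Real.log M → |Φ x| ≤ B)
    (hL : ∀ x y, 0 ≤ x → x ≤ y → y ≤ Real.log M → |Φ y - Φ x| ≤ K * (y - x)) :
    ‖∑ k ∈ range M, (Φ (Real.log k) : ℂ) * χ k‖ ≤ q * (B + K * Real.log M) := by
  have hp : ∀ n, ‖∑ k ∈ range n, χ k‖ ≤ q := fun n => by
    rcases n with _ | n
    · simp
    · rw [sum_range_succ', Nat.cast_zero, χ.map_zero' fun h => h1 (χ.level_one' h), add_zero]
      simpa using lb_partial h1 n
  have hm : ∀ a b : ℕ, a ≤ b → Real.log a ≤ Real.log b := fun a b h => by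
    rcases Nat.eq_zero_or_pos a with rfl | ha
    · simpa using Real.log_natCast_nonneg b
    · exact Real.log_le_log (by exact_mod_cast ha) (by exact_mod_cast h)
  have h := sum_range_by_parts (fun k : ℕ => (Φ (Real.log k) : ℂ)) (fun k : ℕ => χ k) M
  simp only [smul_eq_mul] at h
  rw [h, mul_add]
  refine (norm_sub_le _ _).trans (add_le_add ?_ ?_)
  · rw [norm_mul, norm_real, mul_comm]
    exact mul_le_mul (hp M) (hB _ (Real.log_natCast_nonneg _) (hm _ _ (by omega))) (abs_nonneg _)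
      (Nat.cast_nonneg _)
  · refine (norm_sum_le_of_le _ (n := fun i => q * (K * (Real.log (i + 1 : ℕ) - Real.log i)))
      fun i hi => ?_).trans ?_
    · rw [norm_mul, ← ofReal_sub, norm_real, mul_comm]
      exact mul_le_mul (hp _) (hL _ _ (Real.log_natCast_nonneg _) (hm _ _ (by omega))
        (hm _ _ (by have := mem_range.1 hi; omega))) (abs_nonneg _) (Nat.cast_nonneg _)
    · rw [← mul_sum, ← mul_sum, sum_range_sub fun i : ℕ => Real.log i]
      have := hm (M - 1) M (by omega)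
      simp only [Nat.cast_zero, Real.log_zero, sub_zero]
      gcongr

theorem g0_ex : ∃ K : ℝ, 0 ≤ K ∧ (∀ x, |bp x * Real.exp (-x)| ≤ K) ∧
    ∀ x y, |bp x * Real.exp (-x) - bp y * Real.exp (-y)| ≤ K * |x - y| := by
  have hs : HasCompactSupport fun x => bp x * Real.exp (-x) := bp.hasCompactSupport.mul_right
  have hc : ContDiff ℝ 1 fun x => bp x * Real.exp (-x) := bp.contDiff.mul contDiff_neg.exp
  obtain ⟨K, hK⟩ := hc.lipschitzWith_of_hasCompactSupport hs one_ne_zero
  obtain ⟨B, hB⟩ := hs.exists_bound_of_continuous hc.continuous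
  refine ⟨max K B, le_max_of_le_left K.2, fun x => le_max_of_le_right (hB x), fun x y => ?_⟩
  exact (hK.dist_le_mul x y).trans (mul_le_mul_of_nonneg_right (le_max_left _ _) (abs_nonneg _))

theorem W_out {u : ℝ} {n : ℕ} (h : n ∉ range (Mx u)) : W u n = 0 := by rw [W, bp_out h, zero_div]

theorem log_Mx {u : ℝ} (hu : 0 ≤ u) : Real.log (Mx u) ≤ u + 2 := by
  have h1 : (Mx u : ℝ) ≤ Real.exp (u + 1) + 1 := by
    rw [Mx]; push_cast; linarith [Nat.floor_le (Real.exp_pos (u + 1)).le]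
  rw [Real.log_le_iff_le_exp (by rw [Mx]; positivity), show u + 2 = u + 1 + 1 by ring,
    Real.exp_add _ 1]
  nlinarith [Real.add_one_le_exp (u + 1), Real.add_one_le_exp 1]

theorem typeI : ∃ C : ℝ, 0 ≤ C ∧ ∀ (q : ℕ) [NeZero q] (χ : DirichletCharacter ℂ q), χ ≠ 1 →
    ∀ (u : ℝ), 0 ≤ u → ∀ (α β : ArithmeticFunction ℝ) (j Z : ℕ) (A : ℝ), j ≤ 1 → 0 ≤ A →
      (∀ k, k ≠ 0 → β k = Real.log k ^ j) → (∀ d, |α d| ≤ A) → (∀ d, Z < d → α d = 0) →
      ‖∑ n ∈ range (Mx u), ((α * β) n : ℝ) * (χ n * W u n)‖ ≤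
        C * Z * A * q * (u + 3) ^ 2 * Real.exp (-u) := by
  obtain ⟨K, hK, h1, h2⟩ := g0_ex
  refine ⟨2 * K, by positivity, fun q _ χ hχ u hu α β j Z A hj hA hβ hα hZ => ?_⟩
  have hl := log_Mx hu
  have hl0 := Real.log_natCast_nonneg (Mx u)
  rw [conv_sum α β fun n hn => by rw [W_out hn]; simp, sum_product,
    ← sum_subset (inter_subset_left (s₂ := Icc 1 Z)) fun d hd h => ?_]
  · refine (norm_sum_le_of_le _ (n := fun _ => 2 * K * A * q * (u + 3) ^ 2 * Real.exp (-u))
      fun d hd => ?_).trans ?_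
    · have hd0 : d ≠ 0 := by have := (mem_Icc.1 (mem_inter.1 hd).2).1; omega
      have hd1 : (0 : ℝ) < d := by positivity
      have e : ∑ k ∈ range (Mx u), (α d * β k : ℝ) * (χ (d * k : ℕ) * W u (d * k)) =
          (α d * Real.exp (-u) : ℝ) * χ d * ∑ k ∈ range (Mx u), ((fun x : ℝ => x ^ j *
            (bp (Real.log d + x - u) * Real.exp (-(Real.log d + x - u)))) (Real.log k) : ℝ) * χ k := by
        rw [mul_sum]
        refine sum_congr rfl fun k _ => ?_
        rcases eq_or_ne k 0 with rfl | hk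
        · simp [χ.map_zero' fun h => hχ (χ.level_one' h)]
        have hk1 : (0 : ℝ) < k := by positivity
        have e1 : W u (d * k) = Real.exp (-u) * (bp (Real.log d + Real.log k - u) *
            Real.exp (-(Real.log d + Real.log k - u))) := by
          rw [W, Nat.cast_mul, Real.log_mul hd1.ne' hk1.ne', mul_left_comm, ← Real.exp_add,
            show -u + -(Real.log d + Real.log k - u) = -(Real.log d + Real.log k) by ring,
            Real.exp_neg, Real.exp_add, Real.exp_log hd1, Real.exp_log hk1, div_eq_mul_inv]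
        rw [e1, hβ k hk, Nat.cast_mul, map_mul]
        push_cast
        ring
      have h3 := abel hχ (fun x : ℝ => x ^ j *
        (bp (Real.log d + x - u) * Real.exp (-(Real.log d + x - u)))) (Mx u)
        (K := K * (u + 3)) (B := K * (u + 3)) (by positivity) (fun x h4 h5 => ?_)
        fun x y h4 h5 h6 => ?_
      · simp only at e ⊢
        rw [e, norm_mul, norm_mul, norm_real, Real.norm_eq_abs, abs_mul, abs_of_pos (Real.exp_pos _)]
        calc _ ≤ A * Real.exp (-u) * 1 * (q * (K * (u + 3) + K * (u + 3) * (u + 2))) := by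
              gcongr
              · exact hα d
              · exact χ.norm_le_one _
              · exact h3.trans (by gcongr)
          _ ≤ _ := by
              have : 0 ≤ K * A * q * (u + 3) ^ 2 * Real.exp (-u) := by positivity
              linarith
      · rw [abs_mul, mul_comm]
        gcongr
        · exact h1 _
        · rw [abs_of_nonneg (by positivity)]
          interval_cases j <;> simp <;> linarith
      · have a1 := h2 (Real.log d + y - u) (Real.log d + x - u)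
        have a2 := h1 (Real.log d + x - u)
        rw [show Real.log d + y - u - (Real.log d + x - u) = y - x by ring,
          abs_of_nonneg (sub_nonneg.2 h5)] at a1
        generalize bp (Real.log d + x - u) * Real.exp (-(Real.log d + x - u)) = s at a1 a2 ⊢
        generalize bp (Real.log d + y - u) * Real.exp (-(Real.log d + y - u)) = t at a1 ⊢
        have a3 : 0 ≤ K * (y - x) := mul_nonneg hK (sub_nonneg.2 h5)
        interval_cases j
        · simp only [pow_zero, one_mul]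
          nlinarith
        · rw [pow_one, pow_one, show y * t - x * s = y * (t - s) + (y - x) * s by ring]
          refine (abs_add_le _ _).trans ?_
          rw [abs_mul, abs_mul, abs_of_nonneg (h4.trans h5), abs_of_nonneg (sub_nonneg.2 h5)]
          have a4 := mul_le_mul (show y ≤ u + 2 by linarith) a1 (abs_nonneg _) (by linarith)
          have a5 := mul_le_mul_of_nonneg_left a2 (sub_nonneg.2 h5)
          linarith
    · have : (#(range (Mx u) ∩ Icc 1 Z) : ℝ) ≤ Z := by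
        exact_mod_cast (card_le_card inter_subset_right).trans_eq (by simp)
      rw [sum_const, nsmul_eq_mul]
      refine (mul_le_mul_of_nonneg_right this (by positivity)).trans_eq (by ring)
  · have : α d = 0 := by
      rcases eq_or_ne d 0 with rfl | h0
      · simp
      · exact hZ d (by by_contra h'; exact h (mem_inter.2 ⟨hd, mem_Icc.2 ⟨by omega, by omega⟩⟩))
    simp [this]

theorem typeII {u : ℝ} (hu : 0 ≤ u) (α β : ArithmeticFunction ℝ) (D : ℕ) {R : ℝ}
    (hα : ∀ n ≤ D ^ 2, α n = 0) (hβ : ∀ n ≤ D ^ 2, β n = 0)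
    (h1 : ∑ n ∈ range (Mx u), α n ^ 2 / n ≤ R) (h2 : ∑ n ∈ range (Mx u), β n ^ 2 / n ≤ R) :
    ∑ f ∈ Icc 1 D, ∑ χ ∈ prim f, ‖∑ n ∈ range (Mx u), ((α * β) n : ℝ) * (χ n * W u n)‖ ≤
      132 * (u + 3) * R * fI (bq 0) 0 := by
  have hJ : Mx u ≤ 2 ^ (2 * (⌈u⌉₊ + 2)) := by
    have a1 : (Mx u : ℝ) ≤ Real.exp (⌈u⌉₊ + 2 : ℕ) := by
      rw [← Real.log_le_iff_le_exp (by rw [Mx]; positivity)]
      push_cast
      linarith [log_Mx hu, Nat.le_ceil u]
    rw [← Real.exp_one_pow] at a1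
    have a2 := a1.trans (pow_le_pow_left₀ (Real.exp_pos 1).le
      (show Real.exp 1 ≤ 2 ^ 2 by linarith [Real.exp_one_lt_d9]) _)
    rw [← pow_mul] at a2
    exact_mod_cast a2
  have hJ' : ((2 * (⌈u⌉₊ + 2) : ℕ) : ℝ) ≤ 2 * (u + 3) := by
    push_cast; linarith [Nat.ceil_lt_add_one hu]
  have hs : Ioo (D ^ 2) (Mx u) ⊆ range (Mx u) := fun n hn => mem_range.2 (mem_Ioo.1 hn).2
  have key : ∀ (γ : ArithmeticFunction ℝ) (ξ : ℝ), ∑ n ∈ range (Mx u), γ n ^ 2 / n ≤ R →
      ∑ x ∈ (Icc 1 D).sigma prim, ‖∑ n ∈ Ioo (D ^ 2) (Mx u),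
        ((γ n / n : ℝ) * cexp ((2 * π * ξ * Real.log n : ℝ) * I)) * x.2 n‖ ^ 2 ≤
        132 * (u + 3) * R := fun γ ξ h => by
    rw [sum_sigma]
    refine (ls_dy _ _ (J := 2 * (⌈u⌉₊ + 2)) fun n hn =>
      ⟨(mem_Ioo.1 hn).1, (mem_Ioo.1 hn).2.trans_le hJ⟩).trans ?_
    have a1 : ∑ n ∈ Ioo (D ^ 2) (Mx u), n * ‖((γ n / n : ℝ) : ℂ) *
        cexp ((2 * π * ξ * Real.log n : ℝ) * I)‖ ^ 2 ≤ R := by
      refine le_trans (le_of_eq ?_) ((sum_le_sum_of_subset_of_nonneg hs
        fun _ _ _ => by positivity).trans h)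
      refine sum_congr rfl fun n hn => ?_
      have : (n : ℝ) ≠ 0 := by have := (mem_Ioo.1 hn).1; exact_mod_cast (by omega : n ≠ 0)
      rw [norm_mul, norm_e, mul_one, norm_real, Real.norm_eq_abs, sq_abs]
      field_simp
    refine (mul_le_mul (mul_le_mul_of_nonneg_left hJ' (by norm_num)) a1
      (sum_nonneg fun _ _ => by positivity) (by positivity)).trans_eq (by ring)
  have h := four_fam (bq 0) ((Icc 1 D).sigma prim) (Ioo (D ^ 2) (Mx u) ×ˢ Ioo (D ^ 2) (Mx u))
    (w := fun _ => 1) (fun _ _ => zero_le_one)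
    (fun x p => (α p.1 / p.1 : ℝ) * x.2 p.1 * ((β p.2 / p.2 : ℝ) * x.2 p.2))
    (fun p => Real.log p.1 + Real.log p.2) u (B := 132 * (u + 3) * R) fun ξ => by
      have a := add_le_add (key α ξ h1) (key β ξ h2)
      rw [← sum_add_distrib, ← two_mul] at a
      refine le_of_mul_le_mul_left (le_trans ?_ a) two_pos
      rw [mul_sum]
      refine sum_le_sum fun x _ => le_trans (le_of_eq ?_) (two_mul_le_add_sq _ _)
      rw [one_mul, mul_assoc 2 ‖_‖, ← norm_mul, sum_mul_sum, ← sum_product']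
      congr 2
      refine sum_congr rfl fun p _ => ?_
      rw [mul_add, ofReal_add, add_mul, Complex.exp_add]
      ring
  rw [sum_sigma] at h
  refine le_trans (le_of_eq (sum_congr rfl fun f _ => sum_congr rfl fun χ _ => ?_)) h
  rw [one_mul, conv_sum α β fun n hn => by rw [W_out hn]; simp,
    ← sum_subset (product_subset_product hs hs) fun p hp hn => ?_]
  · refine congrArg _ (sum_congr rfl fun p hp => ?_)
    obtain ⟨a1, a2⟩ := mem_product.1 hp
    have b1 : (p.1 : ℝ) ≠ 0 := by have := (mem_Ioo.1 a1).1; exact_mod_cast (by omega : p.1 ≠ 0)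
    have b2 : (p.2 : ℝ) ≠ 0 := by have := (mem_Ioo.1 a2).1; exact_mod_cast (by omega : p.2 ≠ 0)
    rw [W, bq_apply, Nat.cast_mul, Nat.cast_mul, map_mul, Real.log_mul b1 b2]
    push_cast
    ring
  · obtain ⟨a1, a2⟩ := mem_product.1 hp
    rw [mem_product, mem_Ioo, mem_Ioo] at hn
    rw [mem_range] at a1 a2
    rcases le_or_gt p.1 (D ^ 2) with h | h
    · simp [hα _ h]
    · simp [hβ p.2 (by omega)]

end Pool.Agent.Lib.MP_f64879_nt
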