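import Pool.Agent.Lib.MP_f64879_nt.Low
import Pool.Agent.Shared.BrunSieve

/-! An upper bound sieve and an exponential moment over the primes `2 y + 1`. -/

namespace Pool.Agent.Lib.MP_f64879_nt

open Finset Filter Function Pool.Agent.Lib.MP_30b5ba_nt.P Pool.Agent.Shared.BrunSieve
open scoped Classical

theorem sum_un {f : ℕ → ℝ} (h : ∀ n, 0 ≤ f n) (s t : Finset ℕ) :
    ∑ n ∈ s ∪ t, f n ≤ ∑ n ∈ s, f n + ∑ n ∈ t, f n := by
  linarith [sum_union_inter (s₁ := s) (s₂ := t) (f := f), sum_nonneg (s := s ∩ t) fun n _ => h n]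

theorem card_res {l : ℕ} (hl : 0 < l) (R : Finset (ZMod l)) :
    #{n ∈ range l | ((n : ℕ) : ZMod l) ∈ R} = #R := by
  have : NeZero l := ⟨hl.ne'⟩
  exact card_nbij' (fun n => (n : ZMod l)) ZMod.val (fun n hn => (mem_filter.1 hn).2)
    (fun a ha => mem_filter.2 ⟨mem_range.2 (ZMod.val_lt a), by simpa using ha⟩)
    (fun n hn => ZMod.val_cast_of_lt (mem_range.1 (mem_filter.1 hn).1))
    fun a _ => ZMod.natCast_zmod_val a

theorem per_res (l : ℕ) (R : Finset (ZMod l)) : Periodic (fun n : ℕ => (n : ZMod l) ∈ R) l :=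
  fun n => by simp

theorem us (k : ℕ) {θ : ℝ} (hθ : 0 < θ) : ∃ C : ℝ, 0 < C ∧ ∀ (N Δ : ℕ) (S : Finset ℕ), 2 ≤ N →
    Δ ≠ 0 → S ⊆ range N → (∀ l : ℕ, l.Prime → (l : ℝ) ≤ N ^ θ → ¬l ∣ Δ →
      ∃ R : Finset (ZMod l), #R = k ∧ ∀ t ∈ S, (t : ZMod l) ∉ R) →
    #S ≤ C * N / Real.log N ^ k * Real.exp (k * ∑ l ∈ Δ.primeFactors, 1 / (l : ℝ)) := by
  obtain ⟨u, hu, hfl⟩ := MP_9d27bc_nt.C.fl (k + 1) 1 (by positivity) one_pos
  obtain ⟨C, hC, hM⟩ := Mertens.real_bound
  obtain ⟨K, hK, hE⟩ := exp_neg_le (show (0 : ℝ) < 1 / 2 by norm_num) k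
  have u1 : (1 : ℝ) ≤ u := by exact_mod_cast hu
  obtain ⟨η, η0, η1, η2⟩ : ∃ η : ℝ, 0 < η ∧ η ≤ θ ∧ η * (3 * u) ≤ 1 / 2 :=
    ⟨min θ (1 / (6 * u)), by positivity, min_le_left _ _, by
      rw [← le_div_iff₀ (by positivity)]
      exact (min_le_right _ _).trans_eq (by field_simp; norm_num)⟩
  refine ⟨2 * Real.exp (k * (C + 2 * k)) / η ^ k + K + 1 / η ^ k, by positivity,
    fun N Δ S hN hΔ hS h => ?_⟩
  have N2 : (2 : ℝ) ≤ N := by exact_mod_cast hN
  have L0 : 0 < Real.log N := Real.log_pos (by linarith)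
  obtain ⟨σ, hσ⟩ : ∃ σ, σ = ∑ l ∈ Δ.primeFactors, 1 / (l : ℝ) := ⟨_, rfl⟩
  have σ0 : 0 ≤ σ := hσ ▸ sum_nonneg fun _ _ => by positivity
  have σ1 : 1 ≤ Real.exp (k * σ) := Real.one_le_exp (by positivity)
  obtain ⟨z, hz⟩ : ∃ z, z = (N : ℝ) ^ η := ⟨_, rfl⟩
  have z1 : Real.log z = η * Real.log N := by rw [hz, Real.log_rpow (by linarith)]
  have z0 : 0 < z := by rw [hz]; positivity
  rw [← hσ]
  have p1 : 0 ≤ 2 * Real.exp (k * (C + 2 * k)) / η ^ k * N / Real.log N ^ k * Real.exp (k * σ) := by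
    positivity
  have p2 : 0 ≤ K * N / Real.log N ^ k * Real.exp (k * σ) := by positivity
  have p3 : 0 ≤ 1 / η ^ k * N / Real.log N ^ k * Real.exp (k * σ) := by positivity
  simp only [add_mul, add_div]
  rcases lt_or_ge z 2 with z2 | z2
  · have a1 : η * Real.log N ≤ 1 := by
      rw [← z1]; linarith [Real.log_le_sub_one_of_pos z0]
    have a2 : (#S : ℝ) ≤ N := by exact_mod_cast (card_le_card hS).trans_eq (card_range N)
    have a3 : (N : ℝ) ≤ 1 / η ^ k * N / Real.log N ^ k := by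
      rw [one_div_mul_eq_div, div_div, ← mul_pow]
      exact le_div_self (by linarith) (by positivity) (pow_le_one₀ (by positivity) a1)
    linarith [le_mul_of_one_le_right (le_trans (by linarith) a3) σ1]
  choose! R R1 R2 using h
  set P := (pr 0 z).filter fun l => 2 * k ≤ l ∧ ¬l ∣ Δ with hP
  have hP1 : ∀ l ∈ P, l.Prime ∧ (l : ℝ) ≤ z := fun l hl =>
    ⟨(mem_pr.1 (mem_filter.1 hl).1).1, (mem_pr.1 (mem_filter.1 hl).1).2.2⟩
  have hP2 : ∀ l ∈ P, (l : ℝ) ≤ N ^ θ := fun l hl =>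
    (hP1 l hl).2.trans (hz ▸ Real.rpow_le_rpow_of_exponent_le (by linarith) η1)
  have h1 := hfl ℕ (range N) (fun _ => 1) P (fun l t => (t : ZMod l) ∈ R l) (fun l => k / l) N
    (z ^ u) z z2 (fun _ _ => zero_le_one) (fun l hl => by
      have b1 : (0 : ℝ) < l := by exact_mod_cast (hP1 l hl).1.pos
      have b2 : (2 * k : ℝ) ≤ l := by exact_mod_cast (mem_filter.1 hl).2.1
      refine ⟨(hP1 l hl).1, (hP1 l hl).2, by positivity, by gcongr; linarith, ?_⟩
      rw [div_le_iff₀ b1]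
      linarith) (by linarith) (by positivity) fun T hT hT' => by
      have d0 : 0 < ∏ l ∈ T, l := prod_pos fun l hl => (hP1 l (hT hl)).1.pos
      have b1 := count_approx d0 _ (periodic_forall T _ fun l _ => per_res l (R l)) N
      have b2 : (#{n ∈ range (∏ l ∈ T, l) | ∀ l ∈ T, ((n : ℕ) : ZMod l) ∈ R l} : ℝ) ≤ z ^ u := by
        refine le_trans ?_ hT'
        rw [← Nat.cast_prod]
        exact Nat.cast_le.2 ((card_filter_le _ _).trans_eq (card_range _))
      refine le_trans (le_of_eq ?_) (b1.trans b2)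
      rw [count_prod T (fun l hl => (hP1 l (hT hl)).1) _ fun l _ => per_res l (R l),
        prod_congr rfl fun l hl => (card_res (hP1 l (hT hl)).1.pos _).trans
          (R1 l (hP1 l (hT hl)).1 (hP2 l (hT hl)) (mem_filter.1 (hT hl)).2.2), prod_div_distrib]
      simp only [sum_const, nsmul_one, prod_const, Nat.cast_pow, Nat.cast_prod]
      congr
  have a1 : (#S : ℝ) ≤ ∑ i ∈ range N with ∀ l ∈ P, ¬((i : ℕ) : ZMod l) ∈ R l, (1 : ℝ) := by
    rw [sum_const, nsmul_one]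
    exact Nat.cast_le.2 (card_le_card fun t ht => mem_filter.2 ⟨hS ht, fun l hl =>
      R2 l (hP1 l hl).1 (hP2 l hl) (mem_filter.1 hl).2.2 t ht⟩)
  have a2 : Real.log (Real.log z) - C ≤ ∑ l ∈ P, 1 / (l : ℝ) + 2 * k + σ := by
    have b1 := sum_le_sum_of_subset_of_nonneg (f := fun l : ℕ => 1 / (l : ℝ)) (s := pr 0 z)
      (t := P ∪ range (2 * k) ∪ Δ.primeFactors) (fun l hl => by
        simp only [hP, mem_union, mem_filter, mem_range, Nat.mem_primeFactors]
        have := (mem_pr.1 hl).1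
        by_cases b : l ∣ Δ
        · exact .inr ⟨this, b, hΔ⟩
        · exact .inl ((le_or_gt (2 * k) l).imp (fun c => ⟨hl, c, b⟩) id)) fun _ _ _ => by positivity
    have b2 := sum_un (f := fun l : ℕ => 1 / (l : ℝ)) (fun _ => by positivity)
    have b3 : ∑ l ∈ range (2 * k), 1 / (l : ℝ) ≤ 2 * k := by
      simpa using sum_le_card_nsmul (range (2 * k)) (fun l : ℕ => 1 / (l : ℝ)) 1 fun l _ => by
        simpa using Nat.cast_inv_le_one l
    linarith [b2 (P ∪ range (2 * k)) Δ.primeFactors, b2 P (range (2 * k)), (abs_le.1 (hM z z2)).1]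
  have a3 : ∏ l ∈ P, (1 - k / (l : ℝ)) ≤
      Real.exp (k * (C + 2 * k)) / η ^ k / Real.log N ^ k * Real.exp (k * σ) :=
    calc _ ≤ ∏ l ∈ P, Real.exp (-(k * (1 / l))) := prod_le_prod (fun l hl => by
          have b1 : (0 : ℝ) < l := by exact_mod_cast (hP1 l hl).1.pos
          have b2 : (2 * k : ℝ) ≤ l := by exact_mod_cast (mem_filter.1 hl).2.1
          rw [sub_nonneg, div_le_one b1]
          linarith) fun l _ => by
            rw [mul_one_div]; exact Real.one_sub_le_exp_neg _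
      _ ≤ Real.exp (k * (C + 2 * k) - k * Real.log (Real.log z) + k * σ) := by
          rw [← Real.exp_sum, Real.exp_le_exp, sum_neg_distrib, ← mul_sum]
          nlinarith [Nat.cast_nonneg (α := ℝ) k]
      _ = _ := by
          rw [Real.exp_add, Real.exp_sub, Real.exp_nat_mul (Real.log _), z1,
            Real.exp_log (by positivity), mul_pow, div_div]
  have a4 : z ^ u * z ^ (2 * u) ≤ K * N / Real.log N ^ k :=
    calc _ = (N : ℝ) ^ (η * (3 * u)) := by
          rw [← pow_add, hz, ← Real.rpow_mul_natCast (by linarith)]; congr 1; push_cast; ring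
      _ ≤ N ^ (1 / 2 : ℝ) := Real.rpow_le_rpow_of_exponent_le (by linarith) η2
      _ = N * Real.exp (-(1 / 2 * Real.log N)) := by
          rw [Real.rpow_def_of_pos (by linarith), show Real.log N * (1 / 2) =
            Real.log N + -(1 / 2 * Real.log N) by ring, Real.exp_add, Real.exp_log (by linarith)]
      _ ≤ N * (K / Real.log N ^ k) := by gcongr; exact hE _ L0
      _ = _ := by ring
  have a5 := le_mul_of_one_le_right (by positivity : 0 ≤ K * N / Real.log N ^ k) σ1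
  have a6 := mul_le_mul_of_nonneg_left a3 (show (0 : ℝ) ≤ 2 * N by linarith)
  have a7 := (abs_le.1 h1).2
  rw [sub_le_iff_le_add] at a7
  refine (a1.trans_eq (sum_congr (by congr) fun _ _ => rfl)).trans (a7.trans ?_)
  have a8 : 2 * N * (Real.exp (k * (C + 2 * k)) / η ^ k / Real.log N ^ k * Real.exp (k * σ)) =
    2 * Real.exp (k * (C + 2 * k)) / η ^ k * N / Real.log N ^ k * Real.exp (k * σ) := by ring
  linarith

end Pool.Agent.Lib.MP_f64879_nt
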