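import Pool.Agent.Lib.MP_f64879_nt.Ty

/-! The identity of Vaughan and the mean value of smooth prime sums over primitive characters. -/

namespace Pool.Agent.Lib.MP_f64879_nt

open Complex Finset Pool.Agent.Lib.MP_164d34_nt.Fam ArithmeticFunction
open scoped Real ArithmeticFunction.Moebius ArithmeticFunction.zeta

/-- truncation of an arithmetic function -/
noncomputable def tr (g : ArithmeticFunction ℝ) (U : ℕ) : ArithmeticFunction ℝ :=
  ⟨fun n => if n ≤ U then g n else 0, by simp⟩

theorem tr_apply (g : ArithmeticFunction ℝ) (U n : ℕ) : tr g U n = if n ≤ U then g n else 0 := rfl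

theorem af_sub (f g : ArithmeticFunction ℝ) (n : ℕ) : (f - g) n = f n - g n := by
  rw [sub_eq_add_neg, ArithmeticFunction.add_apply, ArithmeticFunction.neg_apply, sub_eq_add_neg]

theorem tr_mu (U n : ℕ) : |tr μ U n| ≤ 1 := by
  rw [tr_apply]
  split_ifs
  · rw [intCoe_apply]
    exact_mod_cast abs_moebius_le_one
  · simp

theorem tr_vm (U n : ℕ) : |tr Λ U n| ≤ Λ n ∧ |(Λ - tr Λ U) n| ≤ Λ n := by
  have := vonMangoldt_nonneg (n := n)
  rw [af_sub, tr_apply]
  split_ifs <;> simp [this, abs_of_nonneg this]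

/-- a smooth sum over prime powers -/
noncomputable def sm (f : ℕ → ℂ) (u : ℝ) : ℂ := ∑ n ∈ range (Mx u), f n * (Λ n * W u n : ℝ)

theorem card_prim {q : ℕ} (hq : 0 < q) : (#(prim q) : ℝ) ≤ q := by
  have : NeZero q := ⟨hq.ne'⟩
  have h : #(prim q) ≤ q.totient := by
    rw [← DirichletCharacter.card_eq_totient_of_hasEnoughRootsOfUnity ℂ, Nat.card_eq_fintype_card]
    exact card_le_univ _
  exact_mod_cast h.trans (Nat.totient_le q)

theorem prim_ne {q : ℕ} (hq : 1 < q) {χ : DirichletCharacter ℂ q} (h : χ ∈ prim q) : χ ≠ 1 := by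
  have : NeZero q := ⟨by omega⟩
  rintro rfl
  have := (g2_prim.1 h).symm.trans DirichletCharacter.conductor_one
  omega

theorem W_small {u : ℝ} {n : ℕ} (h : (n : ℝ) ≤ Real.exp (u - 1)) : W u n = 0 := by
  rcases eq_or_ne n 0 with rfl | hn
  · simp [W]
  have := (Real.log_le_iff_le_exp (by positivity)).2 h
  rw [W, bp_zero (le_abs.2 (.inr (by linarith))), zero_div]

theorem vaughan : ∃ C : ℝ, 0 ≤ C ∧ ∀ (u : ℝ) (D F : ℕ), 0 ≤ u → 1 ≤ F →
    (D : ℝ) ^ 2 ≤ Real.exp (u - 1) →
    ∑ f ∈ Ioc F D, (f : ℝ)⁻¹ * ∑ χ ∈ prim f, ‖sm (fun n => χ n) u‖ ≤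
      C * (u + 3) ^ 5 / F + C * D ^ 6 * (u + 3) ^ 3 * Real.exp (-u) := by
  obtain ⟨C, hC, hI⟩ := typeI
  have hf := fI_nonneg (bq 0) 0
  refine ⟨3 * C + 132 * fI (bq 0) 0, by positivity, fun u D F hu hF hD => ?_⟩
  rcases Nat.eq_zero_or_pos D with rfl | hD0
  · simp only [Nat.zero_le, Ioc_eq_empty_of_le, sum_empty]
    positivity
  have hD1 : (1 : ℝ) ≤ D := by exact_mod_cast hD0
  have hl := log_Mx hu
  have hl0 := Real.log_natCast_nonneg (Mx u)
  set L1 := tr Λ (D ^ 2) with hL1
  set m1 := tr μ (D ^ 2) with hm1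
  have hid : Λ = L1 + m1 * ArithmeticFunction.log - L1 * m1 * ζ - (Λ - L1) * (ζ * m1 - 1) := by
    rw [← vonMangoldt_mul_zeta]
    ring
  have hII := typeII hu (Λ - L1) (ζ * m1 - 1) D (R := (u + 3) ^ 4)
    (fun n hn => by simp [af_sub, hL1, tr_apply, hn]) (fun n hn => by
      rw [af_sub, ← coe_zeta_mul_coe_moebius, coe_zeta_mul_apply, coe_zeta_mul_apply, sub_eq_zero]
      exact sum_congr rfl fun d hd => if_pos ((Nat.divisor_le hd).trans hn))
    (by
      refine le_trans (sum_le_sum (g := fun n : ℕ => (u + 3) ^ 2 * (n : ℝ)⁻¹) fun n hn => ?_) ?_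
      · rw [div_eq_mul_inv, ← sq_abs]
        gcongr
        rcases eq_or_ne n 0 with rfl | h0
        · simpa using by linarith
        refine (tr_vm _ n).2.trans (vonMangoldt_le_log.trans ((Real.log_le_log (by positivity)
          (Nat.cast_le.2 (mem_range.1 hn).le)).trans (by linarith)))
      · rw [← mul_sum, show (u + 3) ^ 4 = (u + 3) ^ 2 * (u + 3) ^ 2 by ring]
        gcongr
        nlinarith [sum_inv_le (Mx u)])
    (by
      refine le_trans (sum_le_sum fun n hn => ?_) ((tau_two (Mx u)).trans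
        (pow_le_pow_left₀ (by linarith) (by linarith) 4))
      rw [← sq_abs]
      gcongr
      rw [af_sub, coe_zeta_mul_apply, one_apply]
      split_ifs with h
      · subst h
        simp [hm1, tr_apply, Nat.one_le_pow _ _ hD0]
      · rw [sub_zero]
        refine (abs_sum_le_sum_abs _ _).trans ((sum_le_sum fun d _ => tr_mu _ d).trans ?_)
        simp)
  have key : ∀ f ∈ Ioc F D, ∀ χ ∈ prim f, ‖sm (fun n => χ n) u‖ ≤
      3 * C * D ^ 5 * (u + 3) ^ 3 * Real.exp (-u) +
        ‖∑ n ∈ range (Mx u), (((Λ - L1) * (ζ * m1 - 1)) n : ℝ) * (χ n * W u n : ℂ)‖ := by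
    intro f hf χ hχ
    obtain ⟨f1, f2⟩ := mem_Ioc.1 hf
    have : NeZero f := ⟨by omega⟩
    have hχ1 := prim_ne (by omega) hχ
    have f3 : (f : ℝ) ≤ D := by exact_mod_cast f2
    have a1 := hI f χ hχ1 u hu m1 ArithmeticFunction.log 1 (D ^ 2) 1 le_rfl zero_le_one (fun k _ => by simp [log_apply])
      (tr_mu _) fun d hd => if_neg (by omega)
    have hz : ∀ d, D ^ 2 * D ^ 2 < d → (L1 * m1) d = 0 := fun d hd => by
      rw [mul_apply]
      refine sum_eq_zero fun p hp => ?_
      rcases le_or_gt p.1 (D ^ 2) with h | h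
      · rw [hm1, tr_apply μ, if_neg, mul_zero]
        intro h'
        have := Nat.mul_le_mul h h'
        rw [(Nat.mem_divisorsAntidiagonal.1 hp).1] at this
        omega
      · rw [hL1, tr_apply, if_neg (by omega), zero_mul]
    have a2 := hI f χ hχ1 u hu (L1 * m1) ζ 0 (D ^ 2 * D ^ 2) (2 * (u + 3)) (by omega)
      (by positivity) (fun k hk => by simp [natCoe_apply, hk]) (fun d => by
        rcases le_or_gt d (D ^ 2 * D ^ 2) with h | h
        · rcases eq_or_ne d 0 with rfl | h0
          · simpa using by linarith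
          rw [mul_apply, Nat.sum_divisorsAntidiagonal fun a b => L1 a * m1 b]
          refine (abs_sum_le_sum_abs _ _).trans ((sum_le_sum (g := fun a => Λ a) fun a _ => ?_).trans ?_)
          · rw [abs_mul]
            exact (mul_le_mul (tr_vm _ a).1 (tr_mu _ _) (abs_nonneg _) vonMangoldt_nonneg).trans_eq
              (mul_one _)
          · have b1 : (d : ℝ) ≤ D ^ 2 * D ^ 2 := by exact_mod_cast h
            rw [vonMangoldt_sum, Real.log_le_iff_le_exp (by positivity)]
            refine b1.trans ((mul_le_mul hD hD (by positivity) (by positivity)).trans ?_)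
            rw [← Real.exp_add, Real.exp_le_exp]
            linarith
        · rw [hz d h, abs_zero]
          positivity) hz
    have e : sm (fun n => χ n) u = ∑ n ∈ range (Mx u), ((m1 * ArithmeticFunction.log) n : ℝ) * (χ n * W u n : ℂ) -
        ∑ n ∈ range (Mx u), ((L1 * m1 * ζ) n : ℝ) * (χ n * W u n : ℂ) -
        ∑ n ∈ range (Mx u), (((Λ - L1) * (ζ * m1 - 1)) n : ℝ) * (χ n * W u n : ℂ) := by
      rw [sm, ← sum_sub_distrib, ← sum_sub_distrib]
      refine sum_congr rfl fun n _ => ?_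
      have b1 := congrArg (fun g : ArithmeticFunction ℝ => g n) hid
      simp only [af_sub, ArithmeticFunction.add_apply] at b1
      have b2 : L1 n * W u n = 0 := by
        rw [hL1, tr_apply]
        split_ifs with h
        · rw [W_small (le_trans (by exact_mod_cast h) hD), mul_zero]
        · exact zero_mul _
      have b3 : Λ n * W u n = ((m1 * ArithmeticFunction.log) n - (L1 * m1 * ζ) n - ((Λ - L1) * (ζ * m1 - 1)) n) *
          W u n := by linear_combination W u n * b1 + b2
      rw [b3]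
      push_cast
      ring
    rw [e]
    refine (norm_sub_le _ _).trans (add_le_add_left ((norm_sub_le _ _).trans ?_) _)
    refine (add_le_add a1 a2).trans ?_
    push_cast
    have b1 : C * D ^ 2 * 1 * f * (u + 3) ^ 2 * Real.exp (-u) ≤
        C * D ^ 4 * (u + 3) * D * (u + 3) ^ 2 * Real.exp (-u) := by
      gcongr
      · norm_num
      · linarith
    have b2 : C * (D ^ 2 * D ^ 2) * (2 * (u + 3)) * f * (u + 3) ^ 2 * Real.exp (-u) ≤
        C * (D ^ 2 * D ^ 2) * (2 * (u + 3)) * D * (u + 3) ^ 2 * Real.exp (-u) := by gcongr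
    linarith
  have hF' : (0 : ℝ) < F := by exact_mod_cast hF
  calc _ ≤ ∑ f ∈ Ioc F D, (3 * C * D ^ 5 * (u + 3) ^ 3 * Real.exp (-u) + (F : ℝ)⁻¹ * ∑ χ ∈ prim f,
        ‖∑ n ∈ range (Mx u), (((Λ - L1) * (ζ * m1 - 1)) n : ℝ) * (χ n * W u n : ℂ)‖) := by
        refine sum_le_sum fun f hf => ?_
        have f1 := (mem_Ioc.1 hf).1
        have f2 : (F : ℝ) ≤ f := by exact_mod_cast f1.le
        refine (mul_le_mul_of_nonneg_left (sum_le_sum (key f hf)) (by positivity)).trans ?_
        rw [sum_add_distrib, mul_add, sum_const, nsmul_eq_mul, ← mul_assoc]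
        refine add_le_add (mul_le_of_le_one_left (by positivity) ?_) (mul_le_mul_of_nonneg_right
          (inv_anti₀ hF' f2) (sum_nonneg fun _ _ => norm_nonneg _))
        rw [inv_mul_le_iff₀ (by linarith), mul_one]
        exact card_prim (by omega)
    _ ≤ D * (3 * C * D ^ 5 * (u + 3) ^ 3 * Real.exp (-u)) +
        (F : ℝ)⁻¹ * (132 * (u + 3) * (u + 3) ^ 4 * fI (bq 0) 0) := by
        rw [sum_add_distrib, sum_const, nsmul_eq_mul, Nat.card_Ioc, ← mul_sum]
        refine add_le_add (mul_le_mul_of_nonneg_right (Nat.cast_le.2 (Nat.sub_le _ _))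
          (by positivity)) (mul_le_mul_of_nonneg_left (le_trans ?_ hII) (by positivity))
        exact sum_le_sum_of_subset_of_nonneg (fun f hf => by
          rw [mem_Ioc] at hf; rw [mem_Icc]; omega) fun _ _ _ => sum_nonneg fun _ _ => norm_nonneg _
    _ ≤ _ := by
        have b1 : 0 ≤ C * (u + 3) ^ 5 / F := by positivity
        have b2 : 0 ≤ fI (bq 0) 0 * D ^ 6 * (u + 3) ^ 3 * Real.exp (-u) := by positivity
        simp only [div_eq_mul_inv] at b1 ⊢
        linarith

end Pool.Agent.Lib.MP_f64879_nt
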