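import Pool.Agent.Lib.MP_f64879_nt.Siegel
import Pool.Agent.Lib.MP_30b5ba_nt.P.Mertens

/-! A zero-free region and bounds for the derivatives of `L'/L`. -/

namespace Pool.Agent.Lib.MP_f64879_nt

open Complex Finset Filter Topology Metric DirichletCharacter MP_164d34_nt MP_164d34_nt.Fam

theorem sum_pf : ∃ C : ℝ, 0 < C ∧ ∀ q : ℕ,
    ∑ p ∈ q.primeFactors, 1 / (p : ℝ) ≤ Real.log (1 + Real.log q) + C := by
  obtain ⟨C, hC, h⟩ := MP_30b5ba_nt.P.Mertens.real_bound
  refine ⟨C, hC, fun q => ?_⟩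
  rcases lt_or_ge q 2 with hq | hq
  · interval_cases q <;> simp [hC.le]
  have h2 : (2 : ℝ) ≤ q := by exact_mod_cast hq
  have h3 := (abs_le.1 (h q h2)).2
  have h4 : ∑ p ∈ q.primeFactors, 1 / (p : ℝ) ≤ ∑ p ∈ MP_30b5ba_nt.P.pr 0 q, 1 / (p : ℝ) :=
    sum_le_sum_of_subset_of_nonneg (fun p hp => MP_30b5ba_nt.P.mem_pr.2
      ⟨Nat.prime_of_mem_primeFactors hp, by exact_mod_cast Nat.pos_of_mem_primeFactors hp,
        by exact_mod_cast Nat.le_of_mem_primeFactors hp⟩) fun _ _ _ => by positivity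
  have h5 := Real.log_le_log (Real.log_pos (show (1 : ℝ) < q by linarith))
    (show Real.log q ≤ 1 + Real.log q by linarith)
  linarith

theorem triv_bound {ε : ℝ} (hε : 0 < ε) : ∃ C : ℝ, 1 ≤ C ∧ ∀ (q : ℕ) [NeZero q] (s : ℂ), 1 < s.re →
    ‖(1 : DirichletCharacter ℂ q).LFunction s‖ ≤ C * (q : ℝ) ^ ε * (1 / ‖s - 1‖ + ‖s‖) := by
  obtain ⟨C, hC, h⟩ := sum_pf
  have hs := zb_summable one_pos
  set S := max 1 (∑' n : ℕ, ((n : ℝ) + 1) ^ (-1 - 1 : ℝ)) with hS
  have S1 : 1 ≤ S := le_max_left _ _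
  have e1 : 1 ≤ Real.exp C := Real.one_le_exp hC.le
  have e2 : 1 ≤ 1 + 1 / ε := le_add_of_nonneg_right (by positivity)
  refine ⟨Real.exp C * (1 + 1 / ε) * S, one_le_mul_of_one_le_of_one_le
    (one_le_mul_of_one_le_of_one_le e1 e2) S1, fun q _ s hre => ?_⟩
  have hq : (1 : ℝ) ≤ q := by exact_mod_cast NeZero.one_le
  have h1 : s ≠ 1 := fun h => by simp [h] at hre
  have a1 : ‖riemannZeta s‖ ≤ S * (1 / ‖s - 1‖ + ‖s‖) := by
    rw [zb_eq_of_one_lt hre]
    refine (norm_add_le _ _).trans ?_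
    have b1 := tsum_of_norm_bounded (hs.hasSum.mul_left ‖s‖) (f := fun n => zbTerm n s) fun n =>
      (zb_term_le (by linarith) h1 n).trans (by
        gcongr
        linarith [n.cast_nonneg (α := ℝ)])
    have b2 := mul_le_mul_of_nonneg_left (le_max_right 1 _ : _ ≤ S) (norm_nonneg s)
    have b3 := le_mul_of_one_le_left (show 0 ≤ 1 / ‖s - 1‖ by positivity) S1
    rw [norm_div, norm_one]
    linarith
  have a2 : ‖∏ p ∈ q.primeFactors, (1 - (p : ℂ) ^ (-s))‖ ≤ Real.exp C * (1 + 1 / ε) * (q : ℝ) ^ ε := by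
    calc _ ≤ ∏ p ∈ q.primeFactors, (1 + 1 / (p : ℝ)) := by
          rw [norm_prod]
          refine prod_le_prod (fun _ _ => norm_nonneg _) fun p hp => (norm_sub_le _ _).trans ?_
          have := Nat.pos_of_mem_primeFactors hp
          rw [norm_one, norm_natCast_cpow_of_pos this, one_div, ← Real.rpow_neg_one]
          gcongr
          · exact_mod_cast this
          · simpa using hre.le
      _ ≤ Real.exp (Real.log (1 + Real.log q) + C) :=
          (Real.prod_one_add_le_exp_sum _ fun _ => by positivity).trans (Real.exp_le_exp.2 (h q))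
      _ ≤ _ := by
          have b1 := Real.log_le_rpow_div (show (0 : ℝ) ≤ q by linarith) hε
          have b2 := Real.one_le_rpow hq hε.le
          rw [Real.exp_add, Real.exp_log (by linarith [Real.log_nonneg hq]), mul_comm, mul_assoc]
          gcongr
          rw [add_mul, one_mul, one_div, inv_mul_eq_div]
          linarith
  change ‖LFunctionTrivChar q s‖ ≤ _
  rw [LFunctionTrivChar_eq_mul_riemannZeta h1, norm_mul]
  exact (mul_le_mul a2 a1 (norm_nonneg _) (by positivity)).trans_eq (by ring)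

theorem zf {ε : ℝ} (hε : 0 < ε) : ∃ K : ℝ, 1 ≤ K ∧ ∀ (q : ℕ) [NeZero q]
    (χ : DirichletCharacter ℂ q), χ.IsPrimitive → χ ≠ 1 → ∀ s : ℂ, 1 < s.re → s.re ≤ 2 → ∀ j : ℕ,
      ‖LSeries (LSeries.logMul^[j] ((fun n : ℕ => χ n) *
        fun n => (ArithmeticFunction.vonMangoldt n : ℂ))) s‖ ≤
        j.factorial * (K * (q : ℝ) ^ ε * (‖s‖ + 2)) ^ (20 * (j + 1)) := by
  set e := min (ε / 2) (1 / 4) with he
  have e0 : 0 < e := by positivity
  have e1 : e ≤ 1 / 4 := min_le_right _ _
  obtain ⟨C, hC, hsm⟩ := L_small e0 (by linarith)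
  obtain ⟨C', hC', htr⟩ := triv_bound hε
  obtain ⟨c, hc, hsg⟩ := siegel hε
  set K := 4 * C / e + 1 / c + 7 * C' with hK
  clear_value K
  have k1 : 4 * C / e ≤ K := by have : 0 < 1 / c := by positivity
                                linarith
  have k0 : 16 * C ≤ 4 * C / e := by rw [le_div_iff₀ e0]; nlinarith
  have k2 : 1 / c ≤ K := by linarith
  have k3 : 7 * C' ≤ K := by have : 0 < 1 / c := by positivity
                             linarith
  refine ⟨K, by linarith, fun q _ χ hp h1 s hs1 hs2 j => ?_⟩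
  have hq : (1 : ℝ) ≤ q := by exact_mod_cast NeZero.one_le
  set Q := (q : ℝ) ^ ε with hQ
  have Q1 : 1 ≤ Q := Real.one_le_rpow hq hε.le
  have hsm' : ∀ ψ : DirichletCharacter ℂ q, ψ ≠ 1 → ∀ w : ℂ, 1 - e ≤ w.re →
      ‖ψ.LFunction w‖ ≤ C * Q * ‖w‖ := fun ψ h w hw => (hsm q ψ h w hw).trans (by
    have := Real.rpow_le_rpow_of_exponent_le hq
      (show 2 * e ≤ ε by linarith [min_le_left (ε / 2) (1 / 4)])
    gcongr)
  set T := ‖s‖ + 2 with hT
  have T1 : 2 ≤ T := by linarith [norm_nonneg s]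
  set R := K * Q * T with hR
  clear_value R
  have QT : 1 ≤ Q * T := by nlinarith
  have RK : K ≤ R := by rw [hR, mul_assoc]; exact le_mul_of_one_le_right (by linarith) QT
  have R2 : 2 ≤ R := by linarith
  have R0 : 0 < R := by linarith
  have hd := χ.differentiable_LFunction h1
  set U : Set ℂ := {w | 1 - e / 2 ≤ w.re} ∩ closedBall 0 T with hU
  have hD : ∀ w ∈ U, ‖deriv χ.LFunction w‖ ≤ R := fun w hw => by
    have a1 := mem_closedBall_zero_iff.1 hw.2
    refine (Complex.norm_deriv_le_of_forall_mem_sphere_norm_le (R := e / 2) (C := C * Q * (2 * T))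
      (by linarith) hd.diffContOnCl fun z hz => ?_).trans ?_
    · have a2 := mem_sphere_iff_norm.1 hz
      have a3 := (abs_le.1 ((abs_re_le_norm _).trans a2.le)).1
      have a4 := norm_sub_norm_le z w
      have a5 : 1 - e / 2 ≤ w.re := hw.1
      rw [sub_re] at a3
      exact (hsm' χ h1 z (by linarith)).trans (by gcongr; linarith)
    · calc _ = 4 * C / e * Q * T := by field_simp; ring
        _ ≤ _ := by rw [hR]; gcongr
  have hLip : ∀ w ∈ U, ∀ w' ∈ U, ‖χ.LFunction w' - χ.LFunction w‖ ≤ R * ‖w' - w‖ := fun w hw w' hw' =>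
    ((convex_halfSpace_re_ge _).inter (convex_closedBall _ _)).norm_image_sub_le_of_norm_deriv_le
      (fun x _ => hd x) hD hw hw'
  set η := (R ^ 20)⁻¹ with hη
  have η0 : 0 < η := by positivity
  have η1 : η ≤ R⁻¹ := inv_anti₀ R0 (le_self_pow₀ (by linarith) (by norm_num))
  clear_value η
  have η2 : η ≤ e / 4 := η1.trans (by
    rw [inv_le_comm₀ R0 (by linarith), inv_div]
    refine le_trans ?_ (k1.trans RK)
    gcongr
    linarith)
  have hlow : ∀ w ∈ U, 1 + η ≤ w.re → w.re ≤ 3 → 4 * η * R ≤ ‖χ.LFunction w‖ := by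
    intro w hw a1 a2
    have a0 := mem_closedBall_zero_iff.1 hw.2
    by_cases hn : χ ^ 2 = 1 ∧ ‖w - 1‖ ≤ 1 / (4 * R ^ 2)
    · have b1 : 1 / R ≤ ‖χ.LFunction 1‖ := by
        refine le_trans ?_ (hsg q χ hp h1 hn.1)
        rw [Real.rpow_neg (by linarith), ← hQ, ← div_eq_mul_inv, div_le_div_iff₀ R0 (by linarith)]
        rw [div_le_iff₀ hc] at k2
        calc 1 * Q ≤ K * c * Q * T := by nlinarith
          _ = _ := by rw [hR]; ring
      have b2 := hLip 1 ⟨by simp; linarith, by simp; linarith⟩ w hw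
      have b3 := norm_sub_norm_le (χ.LFunction 1) (χ.LFunction w)
      rw [norm_sub_rev] at b3
      have b4 : R * ‖w - 1‖ ≤ 1 / R / 4 := (mul_le_mul_of_nonneg_left hn.2 R0.le).trans_eq (by
        field_simp)
      have b5 : 4 * η * R ≤ 1 / R / 2 := by
        have : (2 : ℝ) ^ 18 ≤ R ^ 18 := by gcongr
        rw [hη, div_div, le_div_iff₀ (by positivity)]
        field_simp
        linarith
      have : 0 < 1 / R := by positivity
      linarith
    set x := w.re - 1 with hx
    have x0 : 0 < x := by linarith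
    have hw' : w = 1 + x + I * w.im := by apply Complex.ext <;> simp [hx]
    have b0 := χ.norm_LFunction_product_ge_one x0 w.im
    rw [← hw', norm_mul, norm_mul, norm_pow, norm_pow] at b0
    have b1 : ‖LFunctionTrivChar q (1 + x)‖ ≤ R / η := by
      refine (htr q (1 + x) (by simpa using x0)).trans ?_
      have c1 : ‖(1 + x : ℂ)‖ ≤ 3 := (norm_add_le _ _).trans (by
        rw [norm_one, norm_real, Real.norm_of_nonneg x0.le]; linarith)
      have c2 : 1 / x ≤ 1 / η := by gcongr; linarith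
      have c3 : 1 ≤ 1 / η := by rw [le_div_iff₀ η0]; linarith
      rw [add_sub_cancel_left, norm_real, Real.norm_of_nonneg x0.le]
      calc _ ≤ C' * Q * (7 * (1 / η)) := by gcongr; linarith
        _ = 7 * C' * Q * 1 / η := by ring
        _ ≤ K * Q * T / η := by
          have : 0 ≤ K := by linarith
          gcongr
          linarith
        _ = _ := by rw [hR]
    have n2 : ‖(1 + x + 2 * I * w.im : ℂ)‖ ≤ 2 * T := by
      rw [show (1 + x + 2 * I * w.im : ℂ) = w + I * w.im by rw [hw']; simp; ring]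
      refine (norm_add_le _ _).trans ?_
      rw [norm_mul, norm_I, one_mul, norm_real, Real.norm_eq_abs]
      linarith [abs_im_le_norm w]
    have R3 : 1 ≤ 4 * R ^ 2 := by nlinarith
    have b2 : ‖(χ ^ 2).LFunction (1 + x + 2 * I * w.im)‖ ≤ R * (4 * R ^ 2) := by
      by_cases h2 : χ ^ 2 = 1
      · have c1 : 1 / (4 * R ^ 2) < ‖w - 1‖ := not_le.1 fun h => hn ⟨h2, h⟩
        have c2 : ‖w - 1‖ ≤ ‖(1 + x + 2 * I * w.im : ℂ) - 1‖ := by
          rw [← sq_le_sq₀ (norm_nonneg _) (norm_nonneg _), ← normSq_eq_norm_sq, ← normSq_eq_norm_sq,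
            normSq_apply, normSq_apply]
          simp [hx]
          nlinarith [mul_self_nonneg w.im]
        have c3 : 1 / ‖(1 + x + 2 * I * w.im : ℂ) - 1‖ ≤ 4 * R ^ 2 :=
          (one_div_le (lt_of_lt_of_le (by positivity) (c1.le.trans c2)) (by positivity)).2
            (c1.le.trans c2)
        rw [h2]
        refine (htr q _ (by simpa using x0)).trans ?_
        calc _ ≤ C' * Q * (7 * T * (4 * R ^ 2)) := by gcongr; nlinarith
          _ = 7 * C' * Q * T * (4 * R ^ 2) := by ring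
          _ ≤ K * Q * T * (4 * R ^ 2) := by gcongr
          _ = _ := by rw [← hR]
      · refine (hsm' _ h2 _ (by simp; linarith)).trans ?_
        calc _ ≤ C * Q * (2 * T) := by gcongr
          _ = 2 * C * Q * T * 1 := by ring
          _ ≤ K * Q * T * (4 * R ^ 2) := by
            have : 0 ≤ K := by linarith
            gcongr
            linarith
          _ = _ := by rw [← hR]
    by_contra hlt
    have b3 : (1 : ℝ) ≤ (R / η) ^ 3 * (4 * η * R) ^ 4 * (R * (4 * R ^ 2)) :=
      b0.le.trans (by gcongr; exact (not_le.1 hlt).le)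
    have b4 : (R / η) ^ 3 * (4 * η * R) ^ 4 * (R * (4 * R ^ 2)) = 1024 / R ^ 10 := by
      rw [hη]; field_simp; norm_num
    have b5 : (16 : ℝ) ^ 10 ≤ R ^ 10 := by gcongr; linarith
    rw [b4, le_div_iff₀ (by positivity)] at b3
    linarith
  have hball : ∀ w ∈ closedBall s η, χ.LFunction w ≠ 0 ∧
      ‖-deriv χ.LFunction w / χ.LFunction w‖ ≤ η⁻¹ := by
    intro w hw
    have a1 := mem_closedBall_iff_norm.1 hw
    have a2 := abs_le.1 ((abs_re_le_norm _).trans a1)
    have a3 := norm_sub_norm_le w s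
    rw [sub_re] at a2
    have hwU : w ∈ U := ⟨show 1 - e / 2 ≤ w.re by linarith, mem_closedBall_zero_iff.2 (by linarith)⟩
    set y := max 0 (1 + η - w.re) with hy
    have y0 : 0 ≤ y := le_max_left _ _
    have y1 : 1 + η - w.re ≤ y := le_max_right _ _
    have y2 : y ≤ 2 * η := max_le (by linarith) (by linarith)
    have a4 := norm_add_le w y
    rw [norm_real, Real.norm_of_nonneg y0] at a4
    have hw' : w + y ∈ U := ⟨show 1 - e / 2 ≤ (w + y).re by simp; linarith, mem_closedBall_zero_iff.2 (by linarith)⟩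
    have a5 := hlow _ hw' (by simp; linarith) (by simp; linarith)
    have a6 := hLip w hwU _ hw'
    rw [add_sub_cancel_left, norm_real, Real.norm_of_nonneg y0] at a6
    have a7 := norm_sub_norm_le (χ.LFunction (w + y)) (χ.LFunction w)
    have a8 := mul_le_mul_of_nonneg_left y2 R0.le
    have a9 : 0 < η * R := by positivity
    have b1 : η * R ≤ ‖χ.LFunction w‖ := by linarith
    refine ⟨norm_pos_iff.1 (by linarith), ?_⟩
    rw [norm_div, norm_neg, div_le_iff₀ (by linarith), ← div_eq_inv_mul, le_div_iff₀ η0]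
    nlinarith [hD w hwU]
  have hev : LSeries ((fun n : ℕ => χ n) * fun n => (ArithmeticFunction.vonMangoldt n : ℂ)) =ᶠ[𝓝 s]
      fun w => -deriv χ.LFunction w / χ.LFunction w := by
    filter_upwards [(isOpen_lt continuous_const continuous_re).mem_nhds hs1] with w hw
    rw [χ.LSeries_twist_vonMangoldt_eq hw, χ.deriv_LFunction_eq_deriv_LSeries hw,
      χ.LFunction_eq_LSeries hw]
  have habs : LSeries.abscissaOfAbsConv ((fun n : ℕ => χ n) *
      fun n => (ArithmeticFunction.vonMangoldt n : ℂ)) < s.re :=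
    (LSeries.abscissaOfAbsConv_le_of_forall_lt_LSeriesSummable (x := 1) fun y hy =>
      χ.LSeriesSummable_twist_vonMangoldt (by simpa using hy)).trans_lt (by exact_mod_cast hs1)
  have h2 := congrArg norm (LSeries_iteratedDeriv j habs)
  rw [norm_mul, norm_pow, norm_neg, norm_one, one_pow, one_mul, hev.iteratedDeriv_eq] at h2
  rw [← h2]
  refine (Complex.norm_iteratedDeriv_le_of_forall_mem_sphere_norm_le j η0
    (DifferentiableOn.diffContOnCl_ball (U := closedBall s η) (fun w hw =>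
      ((hd.deriv w).neg.div (hd w) (hball w hw).1).differentiableWithinAt) subset_rfl)
    fun z hz => (hball z (sphere_subset_closedBall hz)).2).trans_eq ?_
  rw [hη, inv_inv, inv_pow, div_inv_eq_mul]
  ring

end Pool.Agent.Lib.MP_f64879_nt
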